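import Mathlib

/-!
# ROW A1: elements of Morozov type are algebraic with integral eigenvalues

Plan. Put `N := 2 * n`.
(0) `h * e ^ k = e ^ k * (h + 2 * k)`: induction, from `h * e = e * h + 2 * e`.
(1) `e ^ (k + 1) * f - f * e ^ (k + 1) = (k + 1) * e ^ k * (h + k)`: induction (uses `e f - f e = h`).
(2) If `v = e ^ k * w` with `e * v = 0`, then by (1), `e ^ (k + 1) * w = 0` gives
`(k + 1) * e ^ k * (h + k) * w = e ^ (k + 1) * (f * w)`, that is `(h - k) * v = e ^ (k + 1) * w'` with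
`w' = (k + 1)⁻¹ • (f * w)`; moreover `e * ((h - k) * v) = (h - k - 2) * (e * v) = 0`.
(3) Hence for `e * v = 0`: `(∏_{k < n} (h - k)) * v = 0`, as `e ^ n = 0`.
(4) By induction on `j`: if `e ^ j * v = 0` then `(∏_{i < j} ∏_{k < n} (h + 2 i - k)) * v = 0`: for
`e ^ (j + 1) * v = 0` apply (3) to `e ^ j * v`: `0 = ∏_k (h - k) * e ^ j * v = e ^ j * ∏_k (h + 2 j - k) * v`.
(5) `j = n`, `v = 1`; each factor `X + 2 i - k = X - C (k - 2 i)` divides the product over the interval
`[-2n, 2n]`; there are `n ^ 2` factors.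
It may be convenient to work with `Polynomial.aeval h` throughout (all factors are polynomials in `h`).
-/

set_option autoImplicit false

namespace SDCK

open Polynomial

section Comm

variable {B : Type*} [Ring B] {e f h : B}

private theorem A1x_eh (h2 : h * e - e * h = 2 * e) (c : ℕ) : e * (h - c) = (h - (c + 2 : ℕ)) * e := by
  have h3 : e * h = h * e - 2 * e := by rw [← h2]; abel
  rw [mul_sub, h3, sub_mul, ← (Nat.cast_commute c e).eq, Nat.cast_add, add_mul, Nat.cast_ofNat]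
  abel

private theorem A1x_comm_pow (h1 : e * f - f * e = h) (h2 : h * e - e * h = 2 * e) (n : ℕ) :
    e ^ (n + 1) * f - f * e ^ (n + 1) = ((n : B) + 1) * ((h - n) * e ^ n) := by
  induction n with
  | zero => simp [h1]
  | succ n ih =>
    have e1 : e ^ (n + 1 + 1) * f - f * e ^ (n + 1 + 1) =
        e * (e ^ (n + 1) * f - f * e ^ (n + 1)) + (e * f - f * e) * e ^ (n + 1) := by
      rw [pow_succ' e (n + 1)]
      noncomm_ring
    have hc : e * ((n : B) + 1) = ((n : B) + 1) * e := by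
      rw [mul_add, add_mul, (Nat.cast_commute n e).eq, mul_one, one_mul]
    rw [e1, ih, h1, ← mul_assoc, hc, mul_assoc, ← mul_assoc e, A1x_eh h2 n, mul_assoc, ← pow_succ']
    push_cast
    set t := e ^ (n + 1)
    have e2 : ∀ c : B, (c + 1) * ((h - (c + 2)) * t) + h * t =
        (c + 1 + 1) * ((h - (c + 1)) * t) := by
      intro c
      rw [← mul_assoc, ← mul_assoc, ← add_mul]
      congr 1
      simp only [mul_sub, mul_add, add_mul, one_mul, mul_one, ← one_add_one_eq_two]
      abel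
    exact e2 n

end Comm

section Mor

variable {B : Type*} [Ring B] [Algebra ℚ B] {e f h : B}

private theorem A1x_semi {a a' c : B} (h1 : c * a = a' * c) (p : ℚ[X]) :
    c * aeval a p = aeval a' p * c := by
  induction p using Polynomial.induction_on with
  | C q => rw [aeval_C, aeval_C]; exact (Algebra.commutes q c).symm
  | add p q hp hq => rw [map_add, map_add, mul_add, add_mul, hp, hq]
  | monomial n q hq =>
    rw [pow_succ, ← mul_assoc, map_mul (aeval a) (C q * X ^ n) X,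
      map_mul (aeval a') (C q * X ^ n) X, aeval_X, aeval_X, ← mul_assoc, hq, mul_assoc, h1,
      ← mul_assoc]

private theorem A1x_semi_pow (h2 : h * e - e * h = 2 * e) (p : ℚ[X]) (j : ℕ) :
    e ^ j * aeval (h + (2 * j : ℕ)) p = aeval h p * e ^ j := by
  apply A1x_semi
  induction j with
  | zero => simp
  | succ j ih =>
    have h3 : e * h = h * e - 2 * e := by rw [← h2]; abel
    have hc : e * ((2 * j : ℕ) : B) = ((2 * j : ℕ) : B) * e := (Nat.cast_commute _ e).symm
    have e1 : h + ((2 * (j + 1) : ℕ) : B) = (h + (2 * j : ℕ)) + 2 := by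
      rw [Nat.mul_succ, Nat.cast_add, ← add_assoc, Nat.cast_ofNat]
    have e2 : e * (h + ((2 * j : ℕ) : B) + 2) = (h + ((2 * j : ℕ) : B)) * e := by
      rw [mul_add, mul_add, h3, hc, add_mul, mul_two, two_mul]
      abel
    rw [e1, pow_succ, mul_assoc, e2, ← mul_assoc, ih, mul_assoc]

private noncomputable def A1x_Qp (m N : ℕ) : ℚ[X] := ∏ i ∈ Finset.Ico m N, (X - C (i : ℚ))

private theorem A1x_kill (h1 : e * f - f * e = h) (h2 : h * e - e * h = 2 * e) {N : ℕ} (hN : e ^ N = 0) :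
    ∀ (r m : ℕ), m + r = N → ∀ w : B, e ^ (m + 1) * w = 0 →
      aeval h (A1x_Qp m N) * (e ^ m * w) = 0 := by
  intro r
  induction r with
  | zero =>
    intro m hm w _
    rw [add_zero] at hm
    rw [hm, hN, zero_mul, mul_zero]
  | succ r ih =>
    intro m hm w hw
    have hmN : m < N := by omega
    have e0 : A1x_Qp m N = A1x_Qp (m + 1) N * (X - C (m : ℚ)) := by
      rw [A1x_Qp, A1x_Qp, Finset.prod_eq_prod_Ico_succ_bot hmN, mul_comm]
    have e1 : ((m : B) + 1) * ((h - m) * (e ^ m * w)) = e ^ (m + 1) * (f * w) := by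
      have := congrArg (fun t => t * w) (A1x_comm_pow h1 h2 m)
      simp only [sub_mul, mul_assoc] at this
      rw [hw, mul_zero, sub_zero] at this
      rw [this]
      noncomm_ring
    set c : ℚ := ((m : ℚ) + 1)⁻¹ with hc
    have hc0 : c * ((m : ℚ) + 1) = 1 := inv_mul_cancel₀ (by positivity)
    set w' : B := c • (f * w) with hw'
    have e2 : (h - m) * (e ^ m * w) = e ^ (m + 1) * w' := by
      rw [hw', mul_smul_comm, ← e1]
      have : ((m : B) + 1) = algebraMap ℚ B ((m : ℚ) + 1) := by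
        rw [map_add, map_natCast, map_one]
      rw [this, ← Algebra.smul_def, smul_smul, hc0, one_smul]
    have e3 : e ^ (m + 1 + 1) * w' = 0 := by
      rw [pow_succ', mul_assoc, ← e2, ← mul_assoc, A1x_eh h2 m, mul_assoc, ← mul_assoc e, ← pow_succ', hw,
        mul_zero]
    have e4 := ih (m + 1) (by omega) w' e3
    rw [e0, map_mul, map_sub, aeval_X, aeval_C, map_natCast, mul_assoc, e2, e4]

private noncomputable def A1x_Pp (k N : ℕ) : ℚ[X] :=
  ∏ j ∈ Finset.range k, (A1x_Qp j N).comp (X + C ((2 * j : ℕ) : ℚ))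

private theorem A1x_kill2 (h1 : e * f - f * e = h) (h2 : h * e - e * h = 2 * e) {N : ℕ} (hN : e ^ N = 0) :
    ∀ k : ℕ, k ≤ N → ∀ v : B, e ^ k * v = 0 → aeval h (A1x_Pp k N) * v = 0 := by
  intro k
  induction k with
  | zero =>
    intro _ v hv
    rw [pow_zero, one_mul] at hv
    rw [hv, mul_zero]
  | succ k ih =>
    intro hk v hv
    have e1 := A1x_kill h1 h2 hN (N - k) k (by omega) v hv
    rw [← mul_assoc, ← A1x_semi_pow h2, mul_assoc] at e1
    have e2 := ih (by omega) _ e1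
    rw [A1x_Pp, Finset.prod_range_succ, map_mul, aeval_comp, map_add, aeval_X, aeval_C, map_natCast,
      mul_assoc]
    exact e2

private theorem A1x_dvd {n : ℕ} {z : ℤ} (h1 : -(2 * (n : ℤ)) ≤ z) (h2 : z ≤ 2 * n) :
    (X - C (z : ℚ) : ℚ[X]) ∣ ∏ i ∈ Finset.Icc (-(2 * (n : ℤ))) (2 * n), (X - C (i : ℚ)) :=
  Finset.dvd_prod_of_mem (fun i : ℤ => (X - C (i : ℚ) : ℚ[X])) (Finset.mem_Icc.2 ⟨h1, h2⟩)

private theorem A1x_Pp_dvd (n : ℕ) : ∀ k : ℕ, k ≤ n →
    A1x_Pp k n ∣ (∏ i ∈ Finset.Icc (-(2 * (n : ℤ))) (2 * n), (X - C (i : ℚ) : ℚ[X])) ^ (k * n) := by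
  intro k
  induction k with
  | zero =>
    intro _
    simp [A1x_Pp]
  | succ k ih =>
    intro hk
    rw [Nat.succ_mul, pow_add, A1x_Pp, Finset.prod_range_succ]
    refine mul_dvd_mul (ih (by omega)) ?_
    have hcard : (Finset.Ico k n).card ≤ n := by
      rw [Nat.card_Ico]
      omega
    refine Dvd.dvd.trans ?_ (pow_dvd_pow _ hcard)
    rw [A1x_Qp, Polynomial.prod_comp, ← Finset.prod_const]
    apply Finset.prod_dvd_prod_of_dvd
    intro i hi
    rw [Finset.mem_Ico] at hi
    have e1 : ((X - C (i : ℚ) : ℚ[X]).comp (X + C ((2 * k : ℕ) : ℚ))) =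
        X - C (((i : ℤ) - 2 * k : ℤ) : ℚ) := by
      rw [sub_comp, X_comp, C_comp]
      push_cast
      rw [C_sub, C_mul]
      ring
    rw [e1]
    exact A1x_dvd (by omega) (by omega)

end Mor

theorem A1_aeval_pow_eq_zero {A : Type*} [Ring A] [Algebra ℚ A] {e f h : A} {n : ℕ}
    (hef : e * f - f * e = h) (hhe : h * e - e * h = 2 * e) (he : e ^ n = 0) :
    aeval h ((∏ i ∈ Finset.Icc (-(2 * (n : ℤ))) (2 * n), (X - C (i : ℚ))) ^ (n ^ 2)) = 0 := by
  obtain ⟨c, hc⟩ := A1x_Pp_dvd n n le_rfl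
  have e1 := A1x_kill2 hef hhe he n le_rfl 1 (by rw [he, zero_mul])
  rw [mul_one] at e1
  rw [pow_two, hc, map_mul, e1, zero_mul]

end SDCK
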