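import Mathlib

/-!
# ROW A2: a lemma on `sl₂`-triples

Plan. Put `adE v = E * v - v * E`, `adF v = F * v - v * F`, `adH v = H * v - v * H`; these are additive
maps with `adE ∘ adF - adF ∘ adE = adH`, and so on (Jacobi identity, `noncomm_ring`).
(1) `adF ^ j y` has weight `- 2 - 2 j`, and `adE (adF v) = adF (adE v) + μ • v` if `adH v = μ • v`.
(2) with `Q = adF ∘ adE` (which preserves the weight): for `v` of weight `- 2`,
`adE ^ j (adF ^ j v) = ∏_{i=1}^{j} (Q - i (i + 1)) v`. (Check: on the weight `- 2` part of the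
irreducible module of dimension `2 n + 1` the left side is the product of the numbers
`n (n + 1) - i (i + 1)`, `i = 1, …, j`, and `Q = n (n + 1)`.) Induction on `j`, for instance in the form:
for `u = adF ^ j v` one has `adE (adF ^ (j + 1) v) = adF ^ j ((Q - (j + 1) (j + 2)) v)`: move `adE`
through `adF ^ (j + 1)`.
(3) `F ^ K = 0` gives `adF ^ (2 * K) y = 0` (binomial formula; or: left and right multiplication by `F`
commute and are nilpotent: `Commute.isNilpotent_sub` in `AddMonoid.End B`/`Module.End ℤ B`; one only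
needs some `M` with `adF ^ M y = 0`).
(4) Hence `g(Q) y = 0` for `g = ∏_{i=1}^{M} (X - i (i + 1))`. Apply `adE`: `adE (Q v) = (adE ∘ adF) (adE v)`
and `adE ∘ adF = Q` on the elements of weight `0`: so `g(Q) w = 0`, `w = adE y`.
(5) `g = g1 * X + c`, `c = ∏ (- i (i + 1)) ≠ 0` an integer (`g1` with integral coefficients): `c • w = - g1(Q) Q w`,
`Q w = adF (adE w) = adF z`, `z = adE w ∈ V1`, so `Q w ∈ V0`, and `Q` maps `V0` to `V0`. Conclude with `hV`.
-/

set_option autoImplicit false

namespace SDCK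

private theorem A2_main {B : Type*} [AddCommGroup B] (e f h : Module.End ℤ B)
    (hef : ∀ v, e (f v) = f (e v) + h v) (hhe : ∀ v, h (e v) = e (h v) + (2 : ℤ) • e v)
    (hhf : ∀ v, h (f v) = f (h v) - (2 : ℤ) • f v) (y : B) (hy : h y = (-2 : ℤ) • y) (M : ℕ)
    (hM : (f ^ M) y = 0) (V0 V1 : AddSubgroup B) (hV : ∀ n : ℕ, n ≠ 0 → ∀ v : B, n • v ∈ V0 → v ∈ V0)
    (hE1 : ∀ v ∈ V0, e v ∈ V1) (hF1 : ∀ v ∈ V1, f v ∈ V0) (hz : e (e y) ∈ V1) : e y ∈ V0 := by
  have W0 : ∀ v, h v = (-2 : ℤ) • v → ∀ j : ℕ, h ((f ^ j) v) = (-2 - 2 * (j : ℤ)) • (f ^ j) v := by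
    intro v hv j
    induction j with
    | zero => simpa using hv
    | succ j ih =>
      rw [pow_succ', Module.End.mul_apply, hhf, ih, map_zsmul, ← sub_smul]
      congr 1
      push_cast
      ring
  have W1 : ∀ v, h v = (-2 : ℤ) • v → ∀ j : ℕ,
      e ((f ^ (j + 1)) v) = (f ^ j) (f (e v) - (((j : ℤ) + 1) * ((j : ℤ) + 2)) • v) := by
    intro v hv j
    induction j with
    | zero =>
      rw [zero_add, pow_one, pow_zero, Module.End.one_apply, hef, hv, sub_eq_add_neg, ← neg_smul]
      congr 1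
    | succ j ih =>
      rw [pow_succ' f (j + 1), Module.End.mul_apply, hef, ih, W0 v hv (j + 1),
        ← Module.End.mul_apply, ← pow_succ', map_sub, map_sub, map_zsmul, map_zsmul, sub_add, ← sub_smul]
      congr 2
      push_cast
      ring
  have hQ : ∀ v, h v = (-2 : ℤ) • v → h ((f * e) v) = (-2 : ℤ) • (f * e) v := by
    intro v hv
    rw [Module.End.mul_apply, hhf, hhe, hv, map_add, map_zsmul, map_zsmul, map_zsmul, ← add_smul, ← sub_smul]
    congr 1
  obtain ⟨P, hP⟩ : ∃ P : ℕ → Polynomial ℤ, P = fun j =>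
    ∏ i ∈ Finset.range j, (Polynomial.X - Polynomial.C (((i : ℤ) + 1) * ((i : ℤ) + 2))) := ⟨_, rfl⟩
  have W2 : ∀ (j : ℕ) (v), h v = (-2 : ℤ) • v →
      (e ^ j) ((f ^ j) v) = (Polynomial.aeval (f * e) (P j)) v := by
    intro j
    induction j with
    | zero =>
      intro v _
      rw [hP]
      simp
    | succ j ih =>
      intro v hv
      have hv' : h (f (e v) - (((j : ℤ) + 1) * ((j : ℤ) + 2)) • v) =
          (-2 : ℤ) • (f (e v) - (((j : ℤ) + 1) * ((j : ℤ) + 2)) • v) := by
        have h1 := hQ v hv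
        rw [Module.End.mul_apply] at h1
        rw [map_sub, h1, map_zsmul, hv, smul_sub, smul_comm]
      rw [pow_succ e, Module.End.mul_apply, W1 v hv j, ih _ hv']
      have h2 : P (j + 1) = P j * (Polynomial.X - Polynomial.C (((j : ℤ) + 1) * ((j : ℤ) + 2))) := by
        rw [hP]
        exact Finset.prod_range_succ _ _
      have h3 : Polynomial.aeval (f * e) (P (j + 1)) = Polynomial.aeval (f * e) (P j) *
          ((f * e) - algebraMap ℤ (Module.End ℤ B) (((j : ℤ) + 1) * ((j : ℤ) + 2))) := by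
        rw [h2, map_mul, map_sub, Polynomial.aeval_X, Polynomial.aeval_C]
      rw [h3, Module.End.mul_apply]
      congr 1
  have W3 : ∀ (n : ℕ) (v), h v = (-2 : ℤ) • v → e (((f * e) ^ n) v) = ((f * e) ^ n) (e v) := by
    intro n
    induction n with
    | zero =>
      intro v _
      rw [pow_zero, Module.End.one_apply, Module.End.one_apply]
    | succ n ih =>
      intro v hv
      have h1 : e ((f * e) v) = (f * e) (e v) := by
        rw [Module.End.mul_apply, Module.End.mul_apply, hef, hhe, hv, map_zsmul, ← add_smul,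
          show (-2 : ℤ) + 2 = 0 by norm_num, zero_smul, add_zero]
      rw [pow_succ]
      show e (((f * e) ^ n) ((f * e) v)) = ((f * e) ^ n) ((f * e) (e v))
      rw [ih _ (hQ v hv), h1]
  have W4 : ∀ (p : Polynomial ℤ) (v), h v = (-2 : ℤ) • v →
      e ((Polynomial.aeval (f * e) p) v) = (Polynomial.aeval (f * e) p) (e v) := by
    intro p v hv
    induction p using Polynomial.induction_on' with
    | add p q hp hq => rw [map_add, LinearMap.add_apply, LinearMap.add_apply, map_add, hp, hq]
    | monomial n a =>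
      rw [Polynomial.aeval_monomial, Module.End.mul_apply, Module.End.mul_apply,
        Module.algebraMap_end_apply, Module.algebraMap_end_apply, map_smul, W3 n v hv]
  have h0 : (Polynomial.aeval (f * e) (P M)) (e y) = 0 := by
    rw [← W4 _ _ hy, ← W2 M y hy, hM, map_zero, map_zero]
  have hc : (P M).coeff 0 ≠ 0 := by
    rw [hP, Polynomial.coeff_zero_eq_eval_zero, Polynomial.eval_prod]
    refine Finset.prod_ne_zero_iff.2 fun i _ => ?_
    rw [Polynomial.eval_sub, Polynomial.eval_X, Polynomial.eval_C, zero_sub, neg_ne_zero]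
    positivity
  have hQV : ∀ v ∈ V0, (f * e) v ∈ V0 := fun v hv => hF1 _ (hE1 v hv)
  have hQnV : ∀ (n : ℕ) (v), v ∈ V0 → ((f * e) ^ n) v ∈ V0 := by
    intro n
    induction n with
    | zero =>
      intro v hv
      rw [pow_zero, Module.End.one_apply]
      exact hv
    | succ n ih =>
      intro v hv
      rw [pow_succ, Module.End.mul_apply]
      exact ih _ (hQV v hv)
  have hpV : ∀ (p : Polynomial ℤ) (v), v ∈ V0 → (Polynomial.aeval (f * e) p) v ∈ V0 := by
    intro p v hv
    induction p using Polynomial.induction_on' with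
    | add p q hp hq =>
      rw [map_add, LinearMap.add_apply]
      exact V0.add_mem hp hq
    | monomial n a =>
      rw [Polynomial.aeval_monomial, Module.End.mul_apply, Module.algebraMap_end_apply]
      exact V0.zsmul_mem (hQnV n v hv) a
  have hsplit : ((P M).coeff 0) • (e y) ∈ V0 := by
    have h1 := Polynomial.divX_mul_X_add (P M)
    rw [← h1, map_add, map_mul, Polynomial.aeval_X, Polynomial.aeval_C, LinearMap.add_apply,
      Module.End.mul_apply, Module.algebraMap_end_apply] at h0
    rw [eq_neg_of_add_eq_zero_right h0]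
    refine V0.neg_mem (hpV _ _ ?_)
    exact hF1 _ hz
  refine hV ((P M).coeff 0).natAbs (Int.natAbs_ne_zero.2 hc) _ ?_
  rcases Int.natAbs_eq ((P M).coeff 0) with h1 | h1
  · rw [h1, natCast_zsmul] at hsplit
    exact hsplit
  · rw [h1, neg_smul, natCast_zsmul] at hsplit
    exact neg_mem_iff.1 hsplit

private theorem A2_pow {B : Type*} [Ring B] {F : B} {K : ℕ} (hF : F ^ K = 0) :
    ∃ M : ℕ, (LinearMap.mulLeft ℤ F - LinearMap.mulRight ℤ F) ^ M = 0 := by
  have h1 : IsNilpotent (LinearMap.mulLeft ℤ F) :=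
    ⟨K, by rw [LinearMap.pow_mulLeft, hF, LinearMap.mulLeft_zero_eq_zero]⟩
  have h2 : IsNilpotent (LinearMap.mulRight ℤ F) :=
    ⟨K, by rw [LinearMap.pow_mulRight, hF, LinearMap.mulRight_zero_eq_zero]⟩
  exact (LinearMap.commute_mulLeft_right (R := ℤ) F F).isNilpotent_sub h1 h2

theorem A2_sl2_mem {B : Type*} [Ring B] {E F H y : B} (hEF : E * F - F * E = H)
    (hHE : H * E - E * H = 2 * E) (hHF : H * F - F * H = -(2 * F)) {K : ℕ} (hF : F ^ K = 0)
    (hy : H * y - y * H = -(2 * y)) {V0 V1 : AddSubgroup B}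
    (hV : ∀ n : ℕ, n ≠ 0 → ∀ v : B, n • v ∈ V0 → v ∈ V0)
    (hE1 : ∀ v ∈ V0, E * v - v * E ∈ V1) (hF1 : ∀ v ∈ V1, F * v - v * F ∈ V0)
    (hz : E * (E * y - y * E) - (E * y - y * E) * E ∈ V1) : E * y - y * E ∈ V0 := by
  obtain ⟨M, hM⟩ := A2_pow hF
  have hadj : ∀ X v : B, (LinearMap.mulLeft ℤ X - LinearMap.mulRight ℤ X) v = X * v - v * X := fun X v => rfl
  have key := A2_main (LinearMap.mulLeft ℤ E - LinearMap.mulRight ℤ E)
    (LinearMap.mulLeft ℤ F - LinearMap.mulRight ℤ F) (LinearMap.mulLeft ℤ H - LinearMap.mulRight ℤ H)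
    (fun v => by
      rw [hadj, hadj, hadj, hadj, hadj, ← hEF]
      noncomm_ring)
    (fun v => by
      rw [hadj, hadj, hadj, hadj]
      have h1 : H * (E * v - v * E) - (E * v - v * E) * H =
          (E * (H * v - v * H) - (H * v - v * H) * E) + ((H * E - E * H) * v - v * (H * E - E * H)) := by
        noncomm_ring
      rw [h1, hHE]
      noncomm_ring)
    (fun v => by
      rw [hadj, hadj, hadj, hadj]
      have h1 : H * (F * v - v * F) - (F * v - v * F) * H =
          (F * (H * v - v * H) - (H * v - v * H) * F) + ((H * F - F * H) * v - v * (H * F - F * H)) := by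
        noncomm_ring
      rw [h1, hHF]
      noncomm_ring)
    y (by
      rw [hadj, hy]
      noncomm_ring) M (by rw [hM]; rfl) V0 V1 hV hE1 hF1 hz
  exact key

end SDCK
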