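import Mathlib

/-!
# ROW A3: interpolation polynomials

Plan. `P = (∏ i ∈ Icc (-m) m, (X - C i)) ^ r = ∏ (X - C i) ^ r`. For `k` in the interval let
`Q k = ∏_{i ≠ k} (X - C i) ^ r` (`Finset.erase`); `(X - C k) ^ r` and `Q k` are coprime
(`Polynomial.isCoprime_X_sub_C_of_isUnit_sub`/`Polynomial.pairwise_coprime_X_sub_C`, `IsCoprime.pow`,
`IsCoprime.prod_right`), so `u * (X - C k) ^ r + v * Q k = 1`; put `E k = v * Q k` (and `0` outside the
interval). Then
* for `k ≠ l`, `P ∣ Q k * Q l`; `E k * E k - E k = - E k * (u * (X - C k) ^ r)` is divisible by `P`;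
* values: `(E k).eval l = 0` for `l ≠ k` as `X - C l ∣ Q k` (`r ≠ 0`), `(E k).eval k = 1`;
* for `k + l ≠ 0`: `(Q k).comp (-X)` is `± Q (-k)`, which is divisible by `(X - C l) ^ r` since `l ≠ -k`; and
`P = (X - C l) ^ r * Q l`.
-/

set_option autoImplicit false

namespace SDCK

open Polynomial

theorem A3_interpolation (m r : ℕ) (hr : r ≠ 0) : ∃ E : ℤ → ℚ[X],
    (∀ k ∈ Finset.Icc (-(m : ℤ)) m, ∀ l ∈ Finset.Icc (-(m : ℤ)) m,
      (∏ i ∈ Finset.Icc (-(m : ℤ)) m, (X - C (i : ℚ))) ^ r ∣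
        E k * E l - if k = l then E k else 0) ∧
    (∀ k ∈ Finset.Icc (-(m : ℤ)) m, ∀ l ∈ Finset.Icc (-(m : ℤ)) m,
      (E k).eval (l : ℚ) = if k = l then 1 else 0) ∧
    (∀ k ∈ Finset.Icc (-(m : ℤ)) m, ∀ l ∈ Finset.Icc (-(m : ℤ)) m, k + l ≠ 0 →
      (∏ i ∈ Finset.Icc (-(m : ℤ)) m, (X - C (i : ℚ))) ^ r ∣ (E k).comp (-X) * E l) := by
  classical
  set I : Finset ℤ := Finset.Icc (-(m : ℤ)) m with hI
  set Q : ℤ → ℚ[X] := fun k => ∏ i ∈ I.erase k, (X - C (i : ℚ)) ^ r with hQ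
  have hP : ∀ k ∈ I, (∏ i ∈ I, (X - C (i : ℚ))) ^ r = (X - C (k : ℚ)) ^ r * Q k := by
    intro k hk
    rw [← Finset.prod_pow, hQ]
    exact (Finset.mul_prod_erase I (fun i : ℤ => (X - C (i : ℚ)) ^ r) hk).symm
  have hcop : ∀ k : ℤ, IsCoprime ((X - C (k : ℚ)) ^ r) (Q k) := by
    intro k
    refine IsCoprime.prod_right fun i hi => ?_
    refine (isCoprime_X_sub_C_of_isUnit_sub ?_).pow
    rw [isUnit_iff_ne_zero, sub_ne_zero]
    intro h
    exact (Finset.mem_erase.1 hi).1 (by exact_mod_cast h.symm)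
  choose u v huv using hcop
  have hdvd : ∀ k : ℤ, ∀ l ∈ I, l ≠ k → (X - C (l : ℚ)) ^ r ∣ Q k := fun k l hl hlk =>
    Finset.dvd_prod_of_mem (fun i : ℤ => (X - C (i : ℚ)) ^ r) (Finset.mem_erase.2 ⟨hlk, hl⟩)
  refine ⟨fun k => v k * Q k, ?_, ?_, ?_⟩
  · intro k hk l hl
    by_cases hkl : k = l
    · subst hkl
      rw [if_pos rfl, hP k hk]
      refine ⟨-(v k * u k), ?_⟩
      linear_combination (v k * Q k) * huv k
    · rw [if_neg hkl, sub_zero, hP k hk]
      obtain ⟨w, hw⟩ := hdvd l k hk hkl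
      refine ⟨v k * v l * w, ?_⟩
      simp only [hw]
      ring
  · intro k hk l hl
    by_cases hkl : k = l
    · subst hkl
      rw [if_pos rfl]
      have h1 := congrArg (eval (k : ℚ)) (huv k)
      rw [eval_add, eval_mul, eval_pow, eval_sub, eval_X, eval_C, sub_self, zero_pow hr, mul_zero,
        zero_add, eval_one] at h1
      exact h1
    · rw [if_neg hkl]
      obtain ⟨w, hw⟩ := hdvd k l hl (Ne.symm hkl)
      simp only [hw]
      rw [eval_mul, eval_mul, eval_pow, eval_sub, eval_X, eval_C, sub_self, zero_pow hr, zero_mul,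
        mul_zero]
  · intro k hk l hl hkl
    have hl' : -l ∈ I := by
      rw [hI, Finset.mem_Icc] at hl ⊢
      omega
    obtain ⟨w, hw⟩ := hdvd k (-l) hl' (by omega)
    rw [hP l hl]
    refine ⟨(v k).comp (-X) * (-1) ^ r * w.comp (-X) * v l, ?_⟩
    have h1 : ((X - C (((-l : ℤ)) : ℚ)) ^ r).comp (-X) = (-1) ^ r * (X - C (l : ℚ)) ^ r := by
      rw [pow_comp, sub_comp, X_comp, C_comp, ← mul_pow]
      congr 1
      push_cast
      rw [C_neg]
      ring
    simp only [mul_comp, hw]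
    rw [h1]
    ring

end SDCK
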