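import Pool.Agent.LibLC88.Defs

/-!
# The regular representation of the graded ring of correspondences modulo `N`
-/

set_option autoImplicit false

namespace SDCK

universe u v

namespace Cycles

variable {T : Cycles.{u, v}}

/-- correspondences of degree `s` modulo those through `N` -/
abbrev B1_Q (N : Set T.ι) (x : T.ι) (s : ℤ) : Type u :=
  ↥(T.Cor x x s) ⧸ (T.CorN N x x s).submoduleOf (T.Cor x x s)

/-- left multiplication -/
def B1_mulL {x : T.ι} {r s t : ℤ} (h : r + s = t) (a : T.C) (ha : a ∈ T.Cor x x r) :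
    ↥(T.Cor x x s) →ₗ[ℚ] ↥(T.Cor x x t) where
  toFun b := ⟨a * b.1, cor_mul ha b.2 h⟩
  map_add' b c := Subtype.ext (mul_add a b.1 c.1)
  map_smul' q b := Subtype.ext (mul_smul_comm q a b.1)

/-- left multiplication modulo `N` -/
noncomputable def B1_act (N : Set T.ι) {x : T.ι} {r s t : ℤ} (h : r + s = t) (a : T.C)
    (ha : a ∈ T.Cor x x r) : B1_Q N x s →ₗ[ℚ] B1_Q N x t :=
  Submodule.mapQ _ _ (B1_mulL h a ha) (fun b hb => by
    have h1 : b.1 ∈ T.CorN N x x s := hb
    have h2 : a * b.1 ∈ T.CorN N x x t := mul_corN ha h1 h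
    exact h2)

private theorem B1_act_mk (N : Set T.ι) {x : T.ι} {r s t : ℤ} (h : r + s = t) (a : T.C)
    (ha : a ∈ T.Cor x x r) (b : ↥(T.Cor x x s)) :
    B1_act N h a ha (Submodule.Quotient.mk b) = Submodule.Quotient.mk (B1_mulL h a ha b) := rfl

private theorem B1_mk_eq {N : Set T.ι} {x : T.ι} {s : ℤ} {b c : ↥(T.Cor x x s)}
    (h : b.1 - c.1 ∈ T.CorN N x x s) :
    (Submodule.Quotient.mk b : B1_Q N x s) = Submodule.Quotient.mk c := by
  rw [Submodule.Quotient.eq]
  exact h

private theorem B1_mk_eq_zero {N : Set T.ι} {x : T.ι} {s : ℤ} {b : ↥(T.Cor x x s)} :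
    (Submodule.Quotient.mk b : B1_Q N x s) = 0 ↔ b.1 ∈ T.CorN N x x s := by
  rw [Submodule.Quotient.mk_eq_zero]
  exact Iff.rfl

private theorem B1_act_index (N : Set T.ι) {x : T.ι} {r s s' t : ℤ} (h : r + s = t)
    (h' : r + s' = t) (a : T.C) (ha : a ∈ T.Cor x x r) (m : ∀ s, B1_Q N x s) :
    B1_act N h a ha (m s) = B1_act N h' a ha (m s') := by
  obtain rfl : s = s' := by omega
  rfl

open Classical in
/-- the regular representation -/
noncomputable def B1_lam (N : Set T.ι) (x : T.ι) (r : ℤ) (a : T.C) :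
    Module.End ℚ (∀ s : ℤ, B1_Q N x s) :=
  if ha : a ∈ T.Cor x x r then
    LinearMap.pi fun s => (B1_act N (show r + (s - r) = s by omega) a ha).comp
      (LinearMap.proj (s - r))
  else 0

private theorem B1_lam_apply (N : Set T.ι) (x : T.ι) (r : ℤ) (a : T.C) (ha : a ∈ T.Cor x x r)
    (m : ∀ s : ℤ, B1_Q N x s) (s : ℤ) : B1_lam N x r a m s =
      B1_act N (show r + (s - r) = s by omega) a ha (m (s - r)) := by
  unfold B1_lam
  rw [dif_pos ha]
  rfl

theorem B1_exists_rep (N : Set T.ι) (x : T.ι) : ∃ (M : Type u) (_ : AddCommGroup M)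
    (_ : Module ℚ M) (lam : ℤ → T.C → Module.End ℚ M),
    (∀ r, ∀ a ∈ T.Cor x x r, ∀ b ∈ T.Cor x x r, lam r (a + b) = lam r a + lam r b) ∧
    (∀ r, ∀ q : ℚ, ∀ a ∈ T.Cor x x r, lam r (q • a) = q • lam r a) ∧
    (∀ r s t, r + s = t → ∀ a ∈ T.Cor x x r, ∀ b ∈ T.Cor x x s,
      lam t (a * b) = lam r a * lam s b) ∧
    lam 0 (T.Δ x) = 1 ∧
    (∀ r, ∀ a ∈ T.Cor x x r, lam r a = 0 ↔ a ∈ T.CorN N x x r) := by
  refine ⟨∀ s : ℤ, B1_Q N x s, Module.addCommMonoidToAddCommGroup ℚ,
    @Pi.module ℤ (fun s => B1_Q N x s) ℚ _ _ (fun _ => inferInstance), B1_lam N x, ?_, ?_, ?_, ?_, ?_⟩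
  · intro r a ha b hb
    refine LinearMap.ext fun m => funext fun s => ?_
    rw [LinearMap.add_apply, Pi.add_apply, B1_lam_apply N x r _ (Submodule.add_mem _ ha hb),
      B1_lam_apply N x r a ha, B1_lam_apply N x r b hb]
    obtain ⟨c, hc⟩ := Submodule.Quotient.mk_surjective _ (m (s - r))
    rw [← hc, B1_act_mk, B1_act_mk, B1_act_mk, ← Submodule.Quotient.mk_add]
    congr 1
    exact Subtype.ext (add_mul a b c.1)
  · intro r q a ha
    refine LinearMap.ext fun m => funext fun s => ?_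
    rw [LinearMap.smul_apply, Pi.smul_apply, B1_lam_apply N x r _ (Submodule.smul_mem _ q ha),
      B1_lam_apply N x r a ha]
    obtain ⟨c, hc⟩ := Submodule.Quotient.mk_surjective _ (m (s - r))
    rw [← hc, B1_act_mk, B1_act_mk, ← Submodule.Quotient.mk_smul]
    congr 1
    exact Subtype.ext (smul_mul_assoc q a c.1)
  · intro r s t hrs a ha b hb
    refine LinearMap.ext fun m => funext fun w => ?_
    rw [Module.End.mul_apply, B1_lam_apply N x t _ (cor_mul ha hb hrs),
      B1_lam_apply N x r a ha, B1_lam_apply N x s b hb,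
      B1_act_index N (show t + (w - t) = w by omega) (show t + (w - r - s) = w by omega)
        (a * b) (cor_mul ha hb hrs) m]
    obtain ⟨c, hc⟩ := Submodule.Quotient.mk_surjective _ (m (w - r - s))
    rw [← hc, B1_act_mk, B1_act_mk, B1_act_mk]
    congr 1
    exact Subtype.ext (mul_assoc a b c.1)
  · refine LinearMap.ext fun m => funext fun s => ?_
    rw [Module.End.one_apply, B1_lam_apply N x 0 _ (Δ_cor x)]
    have h1 : ∀ s' : ℤ, (h : 0 + s' = s) → B1_act N h (T.Δ x) (Δ_cor x) (m s') = m s := by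
      intro s' h
      obtain rfl : s' = s := by omega
      obtain ⟨c, hc⟩ := Submodule.Quotient.mk_surjective _ (m s')
      rw [← hc, B1_act_mk]
      congr 1
      exact Subtype.ext (Δ_cor_mul c.2)
    exact h1 _ _
  · intro r a ha
    constructor
    · intro h
      have h1 := congrFun (LinearMap.congr_fun h
        (Pi.single (M := fun s => B1_Q N x s) 0 (Submodule.Quotient.mk ⟨T.Δ x, Δ_cor x⟩))) r
      rw [B1_lam_apply N x r a ha, B1_act_index N (show r + (r - r) = r by omega)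
        (show r + 0 = r by omega) a ha, Pi.single_eq_same, B1_act_mk, LinearMap.zero_apply,
        Pi.zero_apply, B1_mk_eq_zero] at h1
      have h2 : a * T.Δ x ∈ T.CorN N x x r := h1
      rwa [cor_mul_Δ ha] at h2
    · intro h
      refine LinearMap.ext fun m => funext fun s => ?_
      rw [B1_lam_apply N x r a ha, LinearMap.zero_apply, Pi.zero_apply]
      obtain ⟨c, hc⟩ := Submodule.Quotient.mk_surjective _ (m (s - r))
      rw [← hc, B1_act_mk, B1_mk_eq_zero]
      exact corN_mul h c.2 (by omega)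

end Cycles

end SDCK
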