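import Pool.Agent.LibLC88.B1
import Pool.Agent.LibLC88.A1

/-!
# ROW B2: the weight operator is algebraic modulo `N`

Plan. Take `lam` from `B1_exists_rep N x`; put `h0 = e * f - f * e ∈ T.Cor x x 0`. In `Module.End ℚ M`:
`E = lam 1 e`, `F = lam (-1) f`, `H = lam 0 h0 = lam 0 (val h)`: the relations `E * F - F * E = H`,
`H * E - E * H = 2 * E` (from `hlin`, as `h0 * e - e * h0 + (…) = 2 * e`), `E ^ n = lam n (e ^ n)` and
`e ^ n ∈ T.CH x x (dim x + n)` is `0` for `n = T.dim x + 1` by `T.CH_top` (`2 * dim x < dim x + n`). Then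
`A1_aeval_pow_eq_zero` (it is used in the algebra `Module.End ℚ M`). Moreover
`aeval (lam 0 (val h)) P = lam 0 (val (aeval h P))` for all polynomials `P` (the map
`a ↦ lam 0 (val a)` is a ring homomorphism `T.A x → Module.End ℚ M` compatible with `ℚ`; build it as an
`AlgHom`, or by induction on `P`), and conclude by the last property of `lam`. `T.A x` is the ring of
correspondences of degree `0` (`Pool/Agent/LibSD51/Data.lean`): `val`, `mk'`, `val_mul`, `val_one`, `val_mem`,
and `T.Cor x x 0 = T.CH x x (T.dim x)` by `Cor, add_zero`.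
-/

set_option autoImplicit false

namespace SDCK

universe u v

namespace Cycles

open Polynomial

variable {T : Cycles.{u, v}}

private theorem B2_pow {x : T.ι} {e : T.C} (he : e ∈ T.Cor x x 1) (n : ℕ) :
    e ^ (n + 1) ∈ T.Cor x x ((n + 1 : ℕ) : ℤ) := by
  induction n with
  | zero => simpa using he
  | succ n ih =>
    rw [pow_succ]
    exact cor_mul ih he (by push_cast; ring)

private theorem B2_top {x : T.ι} {e : T.C} (he : e ∈ T.Cor x x 1) : e ^ (T.dim x + 1) = 0 := by
  refine T.CH_top ?_ (B2_pow he (T.dim x))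
  push_cast
  omega

theorem B2_aeval_mem {N : Set T.ι} {x : T.ι} {e f : T.C} (he : e ∈ T.Cor x x 1)
    (hf : f ∈ T.Cor x x (-1))
    (hlin : e * e * f - 2 * (e * f * e) + f * e * e + 2 * e ∈ T.CorN N x x 1) (h : T.A x)
    (hh : val h - (e * f - f * e) ∈ T.CorN N x x 0) :
    val (aeval h ((∏ i ∈ Finset.Icc (-(2 * ((T.dim x + 1 : ℕ) : ℤ))) (2 * (T.dim x + 1 : ℕ)),
      (Polynomial.X - Polynomial.C (i : ℚ))) ^ ((T.dim x + 1) ^ 2))) ∈ T.CorN N x x 0 := by
  obtain ⟨M, instM, instMod, lam, hadd, hsmul, hmul, hone, hker⟩ := B1_exists_rep N x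
  have hneg : ∀ r, ∀ a ∈ T.Cor x x r, lam r (-a) = -lam r a := by
    intro r a ha
    have h1 := hsmul r (-1) a ha
    rwa [neg_one_smul, neg_one_smul] at h1
  have hsub : ∀ r, ∀ a ∈ T.Cor x x r, ∀ b ∈ T.Cor x x r, lam r (a - b) = lam r a - lam r b := by
    intro r a ha b hb
    rw [sub_eq_add_neg, hadd r a ha (-b) (neg_mem hb), hneg r b hb, sub_eq_add_neg]
  have hzero : ∀ r, lam r 0 = 0 := by
    intro r
    have h1 := hsmul r 0 0 (zero_mem _)
    rwa [zero_smul, zero_smul] at h1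
  have hA : ∀ a : T.A x, val a ∈ T.Cor x x 0 := by
    intro a
    have h1 := val_mem a
    rwa [Cor, add_zero]
  have hef0 : e * f ∈ T.Cor x x 0 := cor_mul he hf (by ring)
  have hfe0 : f * e ∈ T.Cor x x 0 := cor_mul hf he (by ring)
  have h00 : e * f - f * e ∈ T.Cor x x 0 := sub_mem hef0 hfe0
  have hH : lam 0 (val h) = lam 0 (e * f - f * e) := by
    have h1 : lam 0 (val h - (e * f - f * e)) = 0 :=
      (hker 0 _ (corN_le N x x 0 hh)).2 hh
    rw [hsub 0 _ (hA h) _ h00] at h1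
    exact sub_eq_zero.1 h1
  have r1 : lam 1 e * lam (-1) f - lam (-1) f * lam 1 e = lam 0 (val h) := by
    rw [hH, hsub 0 _ hef0 _ hfe0, hmul 1 (-1) 0 (by ring) e he f hf,
      hmul (-1) 1 0 (by ring) f hf e he]
  have r2 : lam 0 (val h) * lam 1 e - lam 1 e * lam 0 (val h) = 2 * lam 1 e := by
    have m1 : (e * f - f * e) * e ∈ T.Cor x x 1 := cor_mul h00 he (by ring)
    have m2 : e * (e * f - f * e) ∈ T.Cor x x 1 := cor_mul he h00 (by ring)
    have m3 : e + e ∈ T.Cor x x 1 := add_mem he he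
    rw [hH, ← hmul 0 1 1 (by ring) _ h00 e he, ← hmul 1 0 1 (by ring) e he _ h00,
      ← hsub 1 _ m1 _ m2, two_mul, ← hadd 1 e he e he]
    have e1 : (e * f - f * e) * e - e * (e * f - f * e) - (e + e) =
        -(e * e * f - 2 * (e * f * e) + f * e * e + 2 * e) := by
      noncomm_ring
    have h2 : lam 1 ((e * f - f * e) * e - e * (e * f - f * e) - (e + e)) = 0 := by
      have h3 : -(e * e * f - 2 * (e * f * e) + f * e * e + 2 * e) ∈ T.CorN N x x 1 :=
        neg_mem hlin
      rw [e1]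
      exact (hker 1 _ (corN_le N x x 1 h3)).2 h3
    rw [hsub 1 _ (sub_mem m1 m2) _ m3] at h2
    exact sub_eq_zero.1 h2
  have hpow : ∀ n : ℕ, lam ((n + 1 : ℕ) : ℤ) (e ^ (n + 1)) = lam 1 e ^ (n + 1) := by
    intro n
    induction n with
    | zero => simp
    | succ n ih =>
      rw [pow_succ e (n + 1), pow_succ (lam 1 e) (n + 1), ← ih]
      exact hmul _ _ _ (by push_cast; ring) _ (B2_pow he n) _ he
  have r3 : lam 1 e ^ (T.dim x + 1) = 0 := by
    rw [← hpow, B2_top he, hzero]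
  have key := A1_aeval_pow_eq_zero (A := Module.End ℚ M) r1 r2 r3
  let L : T.A x →ₗ[ℚ] Module.End ℚ M :=
    { toFun := fun a => lam 0 (val a)
      map_add' := fun a b => by rw [val_add, hadd 0 _ (hA a) _ (hA b)]
      map_smul' := fun q a => by rw [val_smul, hsmul 0 q _ (hA a), RingHom.id_apply] }
  let φ : T.A x →ₐ[ℚ] Module.End ℚ M := AlgHom.ofLinearMap L hone
    (fun a b => by
      show lam 0 (val (a * b)) = lam 0 (val a) * lam 0 (val b)
      rw [val_mul, hmul 0 0 0 (by ring) _ (hA a) _ (hA b)])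
  have hφ : ∀ a : T.A x, φ a = lam 0 (val a) := fun a => rfl
  rw [← hker 0 _ (hA _), ← hφ, ← aeval_algHom_apply, hφ]
  exact key

end Cycles

end SDCK
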