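import Pool.Agent.LibLC88.Hard
import Pool.Agent.LibLC88.A2

/-!
# ROW B3: the weight operator in cohomology

Plan. (0) `T.H` is divisible and torsion free: `T.R ((n : ℚ)⁻¹ • 1)` is an inverse of `n` in `T.H`
(`n ≠ 0`). Put `H = ∑ k, (k - d) • π x k`, `E = R e`, `F = Λ`, `y = R f - Λ`. As `N` satisfies `Kim.deg`:
`π l * R e * π k = 0` for `l ≠ k + 2`, `π l * R f * π k = 0` for `l ≠ k - 2`, and
`R e = ρ * R e * ρ`, `ρ = R (Δ x) = ∑ π k` (`T.π_sum`), also for `f` and `Λ` (`supp`); so (`R_comm` in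
`LibFR75.Basic` is helpful) `H * E - E * H = 2 * E`, `H * F - F * H = - 2 F`, `H * y - y * H = - 2 y`;
`E * F - F * E = H` is `hΛ.comm`; `F ^ (2 * d + 2) = 0` by degrees.
(1) `V_r := {R w | w ∈ T.CorN N x x r}` for `r = 0, 1`, subgroups; `hV` by (0) (if `n • v = R w` then
`v = R ((n : ℚ)⁻¹ • w)`); `E V_0 ⊆ V_1` (`mul_corN`, `corN_mul`); `F V_1 ⊆ V_0`: `hΛ.stable`;
`V_1 F ⊆ V_0`: apply `stable` to `star z` and take adjoints (`hΛ.symm`, `T.R_star`, `corN_star`).
(2) `E (E y - y E) - (E y - y E) E = R (e e f - 2 e f e + f e e) - [E, H] = R (… + 2 e) ∈ V_1` by `hlin`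
(`[E, [E, Λ]] = [E, H] = - 2 E`).
(3) `A2_sl2_mem` gives `E * y - y * E = R (e f - f e) - H = R w`, `w ∈ T.CorN N x x 0`; take
`j = - (w - star w) / 2`: `H` and `R (e f - f e)` change sign under `star` (`T.π_star`, `Fin.rev`; `hs`, `hfs`).
-/

set_option autoImplicit false

namespace SDCK

universe u v

namespace Cycles

variable {T : Cycles.{u, v}}

/-- the weight operator -/
private noncomputable def B3_H (T : Cycles.{u, v}) (x : T.ι) : T.H :=
  ∑ k : Fin (2 * T.dim x + 1), (((k : ℕ) : ℤ) - T.dim x) • T.π x k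

private theorem B3_sum (x : T.ι) :
    T.R (T.Δ x) = ∑ k : Fin (2 * T.dim x + 1), T.πZ x ((k : ℕ) : ℤ) := by
  rw [← T.π_sum]
  exact Finset.sum_congr rfl fun k _ => (πZ_coe x k).symm

private theorem B3_H_mul (x : T.ι) (m : ℤ) :
    B3_H T x * T.πZ x m = (m - T.dim x) • T.πZ x m := by
  rcases πZ_cases x m with ⟨l, hl, h⟩ | h
  · rw [h, B3_H, Finset.sum_mul, Finset.sum_eq_single l]
    · rw [smul_mul_assoc, (T.π_ortho x).mul_eq, if_pos rfl, hl]
    · intro k _ hk
      rw [smul_mul_assoc, (T.π_ortho x).mul_eq, if_neg hk, smul_zero]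
    · intro h1
      exact absurd (Finset.mem_univ _) h1
  · rw [h, mul_zero, smul_zero]

private theorem B3_comm {x : T.ι} {a : T.H} {s : ℤ} (hl : T.R (T.Δ x) * a = a)
    (hr : a * T.R (T.Δ x) = a)
    (hdeg : ∀ k l : ℤ, l ≠ k + s → T.πZ x l * a * T.πZ x k = 0) (k : ℤ) :
    a * T.πZ x k = T.πZ x (k + s) * a := by
  have h1 : a * T.πZ x k = T.πZ x (k + s) * a * T.πZ x k := by
    conv_lhs => rw [← hl, B3_sum, Finset.sum_mul, Finset.sum_mul]
    by_cases h : 0 ≤ k + s ∧ k + s ≤ 2 * T.dim x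
    · rw [Finset.sum_eq_single (⟨(k + s).toNat, by omega⟩ : Fin (2 * T.dim x + 1))]
      · have h3 : (((k + s).toNat : ℕ) : ℤ) = k + s := by omega
        simp only [h3]
      · intro l' _ hl'
        refine hdeg _ _ fun h3 => hl' ?_
        ext
        simp only
        omega
      · intro h3
        exact absurd (Finset.mem_univ _) h3
    · rw [πZ_out x (k := k + s) (by omega), zero_mul, zero_mul]
      refine Finset.sum_eq_zero fun l' _ => hdeg _ _ fun h3 => h ?_
      have := l'.isLt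
      omega
  have h2 : T.πZ x (k + s) * a = T.πZ x (k + s) * a * T.πZ x k := by
    conv_lhs => rw [← hr, B3_sum, Finset.mul_sum, Finset.mul_sum]
    by_cases h : 0 ≤ k ∧ k ≤ 2 * T.dim x
    · rw [Finset.sum_eq_single (⟨k.toNat, by omega⟩ : Fin (2 * T.dim x + 1))]
      · have h3 : ((k.toNat : ℕ) : ℤ) = k := by omega
        simp only [h3]
        rw [mul_assoc]
      · intro k' _ hk'
        rw [← mul_assoc]
        refine hdeg _ _ fun h3 => hk' ?_
        ext
        simp only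
        omega
      · intro h3
        exact absurd (Finset.mem_univ _) h3
    · rw [πZ_out x (k := k) (by omega), mul_zero]
      refine Finset.sum_eq_zero fun k' _ => ?_
      rw [← mul_assoc]
      refine hdeg _ _ fun h3 => h ?_
      have := k'.isLt
      omega
  rw [h1, ← h2]

private theorem B3_grade {x : T.ι} {a : T.H} {s : ℤ} (hρ : a * T.R (T.Δ x) = a)
    (hd : ∀ k : ℤ, a * T.πZ x k = T.πZ x (k + s) * a) :
    B3_H T x * a - a * B3_H T x = s • a := by
  have h1 : B3_H T x * a = ∑ k : Fin (2 * T.dim x + 1),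
      (((k : ℕ) : ℤ) + s - T.dim x) • (a * T.πZ x ((k : ℕ) : ℤ)) := by
    conv_lhs => rw [← hρ, B3_sum, Finset.mul_sum, Finset.mul_sum]
    refine Finset.sum_congr rfl fun k _ => ?_
    rw [hd, ← mul_assoc, B3_H_mul, smul_mul_assoc]
  have h2 : a * B3_H T x = ∑ k : Fin (2 * T.dim x + 1),
      (((k : ℕ) : ℤ) - T.dim x) • (a * T.πZ x ((k : ℕ) : ℤ)) := by
    rw [B3_H, Finset.mul_sum]
    refine Finset.sum_congr rfl fun k _ => ?_
    rw [mul_smul_comm, πZ_coe]
  have h3 : ∀ k : Fin (2 * T.dim x + 1),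
      (((k : ℕ) : ℤ) + s - T.dim x) • (a * T.πZ x ((k : ℕ) : ℤ)) -
        (((k : ℕ) : ℤ) - T.dim x) • (a * T.πZ x ((k : ℕ) : ℤ)) =
      s • (a * T.πZ x ((k : ℕ) : ℤ)) := by
    intro k
    rw [← sub_smul]
    congr 1
    ring
  rw [h1, h2, ← Finset.sum_sub_distrib, Finset.sum_congr rfl fun k _ => h3 k,
    ← Finset.smul_sum, ← Finset.mul_sum, ← B3_sum, hρ]

private theorem B3_nil {x : T.ι} {a : T.H} (hρ : a * T.R (T.Δ x) = a)
    (hd : ∀ k : ℤ, a * T.πZ x k = T.πZ x (k + -2) * a) : a ^ (T.dim x + 1) = 0 := by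
  have h1 : ∀ (n : ℕ) (k : ℤ), a ^ n * T.πZ x k = T.πZ x (k - 2 * n) * a ^ n := by
    intro n
    induction n with
    | zero =>
      intro k
      rw [pow_zero, one_mul, mul_one]
      congr 1
      push_cast
      ring
    | succ n ih =>
      intro k
      rw [pow_succ, mul_assoc, hd, ← mul_assoc, ih, mul_assoc]
      congr 2
      push_cast
      ring
  have h2 : a ^ (T.dim x + 1) = a ^ (T.dim x + 1) * T.R (T.Δ x) := by
    rw [pow_succ, mul_assoc, hρ]
  rw [h2, B3_sum, Finset.mul_sum]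
  refine Finset.sum_eq_zero fun k _ => ?_
  rw [h1, πZ_out x, zero_mul]
  have := k.isLt
  left
  push_cast
  omega

private theorem B3_star_H (x : T.ι) : star (B3_H T x) = -B3_H T x := by
  have h1 : star (B3_H T x) = ∑ k : Fin (2 * T.dim x + 1),
      (((k.rev.rev : ℕ) : ℤ) - T.dim x) • T.π x k.rev := by
    rw [B3_H, star_sum]
    refine Finset.sum_congr rfl fun k _ => ?_
    rw [star_zsmul, T.π_star, Fin.rev_rev]
  rw [h1]
  refine (Equiv.sum_comp Fin.revPerm (fun k : Fin (2 * T.dim x + 1) =>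
    (((k.rev : ℕ) : ℤ) - T.dim x) • T.π x k)).trans ?_
  rw [B3_H, ← Finset.sum_neg_distrib]
  refine Finset.sum_congr rfl fun k _ => ?_
  rw [← neg_smul]
  congr 1
  have := k.isLt
  rw [Fin.val_rev]
  omega

private theorem B3_smul (q : ℚ) (c : T.C) : T.R (q • c) = T.R (q • (1 : T.C)) * T.R c := by
  rw [← map_mul, smul_mul_assoc, one_mul]

theorem B3_exists_cohom {N : Set T.ι} (hN : T.Kim N) {x : T.ι} {e f : T.C}
    (he : e ∈ T.Cor x x 1) (hs : star e = e) (hf : f ∈ T.Cor x x (-1)) (hfs : star f = f) {Λ : T.H}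
    (hΛ : T.IsHard N x e Λ)
    (hlin : e * e * f - 2 * (e * f * e) + f * e * e + 2 * e ∈ T.CorN N x x 1) :
    ∃ j ∈ T.CorN N x x 0, star j = -j ∧ T.R (e * f - f * e + j) =
      ∑ k : Fin (2 * T.dim x + 1), (((k : ℕ) : ℤ) - T.dim x) • T.π x k := by
  change ∃ j ∈ T.CorN N x x 0, star j = -j ∧ T.R (e * f - f * e + j) = B3_H T x
  have hEF : T.R e * Λ - Λ * T.R e = B3_H T x := hΛ.comm
  have hρρ : T.R (T.Δ x) * T.R (T.Δ x) = T.R (T.Δ x) := by
    rw [← map_mul, Δ_cor_mul (Δ_cor x)]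
  have hΛl : T.R (T.Δ x) * Λ = Λ := by
    conv_lhs => rw [← hΛ.supp, ← mul_assoc, ← mul_assoc, hρρ]
    exact hΛ.supp
  have hΛr : Λ * T.R (T.Δ x) = Λ := by
    conv_lhs => rw [← hΛ.supp, mul_assoc, hρρ]
    exact hΛ.supp
  have her : T.R e * T.R (T.Δ x) = T.R e := by rw [← map_mul, cor_mul_Δ he]
  have hfr : T.R f * T.R (T.Δ x) = T.R f := by rw [← map_mul, cor_mul_Δ hf]
  have hed : ∀ k : ℤ, T.R e * T.πZ x k = T.πZ x (k + 2) * T.R e := fun k =>
    R_comm hN he (by ring)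
  have hfd : ∀ k : ℤ, T.R f * T.πZ x k = T.πZ x (k + -2) * T.R f := fun k =>
    R_comm hN hf (by ring)
  have hΛd : ∀ k : ℤ, Λ * T.πZ x k = T.πZ x (k + -2) * Λ := by
    refine B3_comm hΛl hΛr ?_
    intro k l hkl
    rcases πZ_cases x k with ⟨k', hk', hk⟩ | hk
    · rcases πZ_cases x l with ⟨l', hl', hl⟩ | hl
      · rw [hk, hl]
        refine hΛ.deg k' l' ?_
        omega
      · rw [hl, zero_mul, zero_mul]
    · rw [hk, mul_zero]
  have hHE : B3_H T x * T.R e - T.R e * B3_H T x = 2 * T.R e := by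
    rw [B3_grade her hed, zsmul_eq_mul, Int.cast_ofNat]
  have hHF : B3_H T x * Λ - Λ * B3_H T x = -(2 * Λ) := by
    rw [B3_grade hΛr hΛd, zsmul_eq_mul, Int.cast_neg, Int.cast_ofNat, neg_mul]
  have hy : B3_H T x * (T.R f - Λ) - (T.R f - Λ) * B3_H T x = -(2 * (T.R f - Λ)) := by
    have h1 : B3_H T x * T.R f - T.R f * B3_H T x = -(2 * T.R f) := by
      rw [B3_grade hfr hfd, zsmul_eq_mul, Int.cast_neg, Int.cast_ofNat, neg_mul]
    have h2 : B3_H T x * (T.R f - Λ) - (T.R f - Λ) * B3_H T x =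
        (B3_H T x * T.R f - T.R f * B3_H T x) - (B3_H T x * Λ - Λ * B3_H T x) := by
      noncomm_ring
    rw [h2, h1, hHF]
    noncomm_ring
  obtain ⟨V, hV⟩ : ∃ V : ℤ → AddSubgroup T.H, ∀ r v, v ∈ V r ↔
      ∃ w ∈ T.CorN N x x r, T.R w = v :=
    ⟨fun r => AddSubgroup.map T.R.toAddMonoidHom (T.CorN N x x r).toAddSubgroup,
      fun r v => AddSubgroup.mem_map⟩
  have key : T.R e * (T.R f - Λ) - (T.R f - Λ) * T.R e ∈ V 0 := by
    refine A2_sl2_mem (V1 := V 1) hEF hHE hHF (B3_nil hΛr hΛd) hy ?_ ?_ ?_ ?_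
    · intro n hn v hv
      obtain ⟨w, hw, hwv⟩ := (hV 0 _).1 hv
      refine (hV 0 _).2 ⟨(n : ℚ)⁻¹ • w, Submodule.smul_mem _ _ hw, ?_⟩
      have h1 : T.R ((n : ℚ)⁻¹ • (1 : T.C)) * (n : T.H) = 1 := by
        have h2 : ((n : ℚ)⁻¹ • (1 : T.C)) * (n : T.C) = 1 := by
          rw [smul_mul_assoc, one_mul]
          have h3 : ((n : ℕ) : T.C) = (n : ℚ) • (1 : T.C) := by
            rw [Nat.cast_smul_eq_nsmul, nsmul_one]
          rw [h3, smul_smul, inv_mul_cancel₀ (by exact_mod_cast hn), one_smul]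
        have h4 := congrArg T.R h2
        rwa [map_mul, map_natCast, map_one] at h4
      rw [B3_smul, hwv, nsmul_eq_mul, ← mul_assoc, h1, one_mul]
    · intro v hv
      obtain ⟨w, hw, rfl⟩ := (hV 0 _).1 hv
      refine (hV 1 _).2 ⟨e * w - w * e, Submodule.sub_mem _ (mul_corN he hw (by ring))
        (corN_mul hw he (by ring)), ?_⟩
      rw [map_sub, map_mul, map_mul]
    · intro v hv
      obtain ⟨z, hz, rfl⟩ := (hV 1 _).1 hv
      obtain ⟨w, hw, hwR⟩ := hΛ.stable z hz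
      obtain ⟨w', hw', hwR'⟩ := hΛ.stable (star z) (corN_star hz rfl)
      refine (hV 0 _).2 ⟨w - star w', Submodule.sub_mem _ hw (corN_star hw' rfl), ?_⟩
      rw [map_sub, T.R_star, hwR, hwR', star_mul, T.R_star, star_star, hΛ.symm]
    · refine (hV 1 _).2 ⟨_, hlin, ?_⟩
      have h1 : T.R e * (T.R f - Λ) - (T.R f - Λ) * T.R e =
          T.R e * T.R f - T.R f * T.R e - B3_H T x := by
        rw [← hEF]
        noncomm_ring
      rw [h1]
      have h2 : T.R e * (T.R e * T.R f - T.R f * T.R e - B3_H T x) -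
          (T.R e * T.R f - T.R f * T.R e - B3_H T x) * T.R e =
          T.R e * T.R e * T.R f - 2 * (T.R e * T.R f * T.R e) + T.R f * T.R e * T.R e +
            (B3_H T x * T.R e - T.R e * B3_H T x) := by
        noncomm_ring
      rw [h2, hHE]
      simp only [map_add, map_sub, map_mul, map_ofNat]
  obtain ⟨w, hw, hwR⟩ := (hV 0 _).1 key
  have hR : T.R (e * f - f * e) = B3_H T x + T.R w := by
    rw [hwR, ← hEF, map_sub, map_mul, map_mul]
    noncomm_ring
  have hRs : T.R (star w) = -T.R w := by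
    have h1 : T.R w = T.R (e * f - f * e) - B3_H T x := by
      rw [hR]
      abel
    rw [T.R_star, h1, star_sub, B3_star_H, ← T.R_star, star_sub, star_mul, star_mul, hs, hfs,
      map_sub, map_sub]
    abel
  refine ⟨-((1 / 2 : ℚ) • (w - star w)), Submodule.neg_mem _ (Submodule.smul_mem _ _
    (Submodule.sub_mem _ hw (corN_star hw rfl))), ?_, ?_⟩
  · rw [star_neg, star_rat_smul, star_sub, star_star, ← smul_neg, neg_sub, neg_neg]
  · have h1 : T.R ((1 / 2 : ℚ) • (w - star w)) = T.R w := by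
      rw [B3_smul, map_sub, hRs, sub_neg_eq_add, ← two_mul, ← mul_assoc]
      have h2 : ((1 / 2 : ℚ) • (1 : T.C)) * (2 : T.C) = 1 := by
        rw [smul_mul_assoc, one_mul]
        have h3 : (2 : T.C) = (2 : ℚ) • (1 : T.C) := by
          rw [two_smul, one_add_one_eq_two]
        rw [h3, smul_smul]
        norm_num
      have h4 := congrArg T.R h2
      rw [map_mul, map_ofNat, map_one] at h4
      rw [h4, one_mul]
    rw [map_add, map_neg, hR, h1]
    abel

end Cycles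

end SDCK
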