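import Pool.Agent.LibLC88.Defs

/-!
# ROW B4: domination
-/

set_option autoImplicit false

namespace SDCK

universe u v

namespace Cycles

variable {T : Cycles.{u, v}}

theorem B4_first {N : Set T.ι} {x y : T.ι} {e a b e' f' : T.C} (he : e ∈ T.Cor x x 1)
    (ha : a ∈ T.Cor x y 0) (hb : b ∈ T.Cor y x 0) (he' : e' ∈ T.Cor y y 1)
    (hf' : f' ∈ T.Cor y y (-1)) (hba : b * a - T.Δ x ∈ T.CorN N x x 0)
    (hea : e' * a - a * e ∈ T.CorN N x y 1) (hbe : b * e' - e * b ∈ T.CorN N y x 1)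
    (hlin : e' * e' * f' - 2 * (e' * f' * e') + f' * e' * e' + 2 * e' ∈ T.CorN N y y 1) :
    e * e * (b * f' * a) - 2 * (e * (b * f' * a) * e) + (b * f' * a) * e * e + 2 * e ∈
      T.CorN N x x 1 := by
  have hΔ : e * T.Δ x = e := cor_mul_Δ he
  -- the terms
  have t0 : b * (e' * e' * f' - 2 * (e' * f' * e') + f' * e' * e' + 2 * e') * a ∈
      T.CorN N x x 1 := corN_mul (mul_corN hb hlin (by norm_num : (0 : ℤ) + 1 = 1)) ha (by norm_num)
  have t1 : (b * e' - e * b) * (e' * f' * a) ∈ T.CorN N x x 1 :=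
    corN_mul hbe (cor_mul (cor_mul he' hf' (by norm_num : (1 : ℤ) + -1 = 0)) ha
      (by norm_num : (0 : ℤ) + 0 = 0)) (by norm_num)
  have t2 : e * (b * e' - e * b) * (f' * a) ∈ T.CorN N x x 1 :=
    corN_mul (mul_corN he hbe (by norm_num : (1 : ℤ) + 1 = 2))
      (cor_mul hf' ha (by norm_num : (-1 : ℤ) + 0 = -1)) (by norm_num)
  have t3 : (b * e' - e * b) * (f' * e' * a) ∈ T.CorN N x x 1 :=
    corN_mul hbe (cor_mul (cor_mul hf' he' (by norm_num : (-1 : ℤ) + 1 = 0)) ha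
      (by norm_num : (0 : ℤ) + 0 = 0)) (by norm_num)
  have t4 : b * e' * f' * (e' * a - a * e) ∈ T.CorN N x x 1 :=
    mul_corN (cor_mul (cor_mul hb he' (by norm_num : (0 : ℤ) + 1 = 1)) hf'
      (by norm_num : (1 : ℤ) + -1 = 0)) hea (by norm_num)
  have t5 : (b * e' - e * b) * f' * (e' * a - a * e) ∈ T.CorN N x x 1 :=
    mul_corN (cor_mul (show b * e' - e * b ∈ T.Cor y x 1 from corN_le N _ _ _ hbe) hf'
      (by norm_num : (1 : ℤ) + -1 = 0)) hea (by norm_num)
  have t6 : b * f' * e' * (e' * a - a * e) ∈ T.CorN N x x 1 :=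
    mul_corN (cor_mul (cor_mul hb hf' (by norm_num : (0 : ℤ) + -1 = -1)) he'
      (by norm_num : (-1 : ℤ) + 1 = 0)) hea (by norm_num)
  have t7 : b * f' * ((e' * a - a * e) * e) ∈ T.CorN N x x 1 :=
    mul_corN (cor_mul hb hf' (by norm_num : (0 : ℤ) + -1 = -1))
      (corN_mul hea he (by norm_num : (1 : ℤ) + 1 = 2)) (by norm_num)
  have t8 : (b * e' - e * b) * a ∈ T.CorN N x x 1 := corN_mul hbe ha (by norm_num)
  have t9 : e * (b * a - T.Δ x) ∈ T.CorN N x x 1 := mul_corN he hba (by norm_num)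
  have h2 : ∀ z ∈ T.CorN N x x 1, 2 * z ∈ T.CorN N x x 1 := by
    intro z hz
    rw [two_mul]
    exact Submodule.add_mem _ hz hz
  have hsum := Submodule.sub_mem _ (Submodule.sub_mem _ (Submodule.sub_mem _ (Submodule.sub_mem _
    (Submodule.sub_mem _ (Submodule.add_mem _ (Submodule.add_mem _
    (Submodule.sub_mem _ (Submodule.sub_mem _ t0 t1) t2) (h2 _ t3)) (h2 _ t4)) (h2 _ t5)) t6) t7)
    (h2 _ t8)) (h2 _ t9)
  have hid : e * e * (b * f' * a) - 2 * (e * (b * f' * a) * e) + (b * f' * a) * e * e +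
      2 * (e * T.Δ x) =
      b * (e' * e' * f' - 2 * (e' * f' * e') + f' * e' * e' + 2 * e') * a -
        (b * e' - e * b) * (e' * f' * a) - e * (b * e' - e * b) * (f' * a) +
        2 * ((b * e' - e * b) * (f' * e' * a)) + 2 * (b * e' * f' * (e' * a - a * e)) -
        2 * ((b * e' - e * b) * f' * (e' * a - a * e)) - b * f' * e' * (e' * a - a * e) -
        b * f' * ((e' * a - a * e) * e) - 2 * ((b * e' - e * b) * a) -
        2 * (e * (b * a - T.Δ x)) := by
    noncomm_ring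
  rw [hΔ] at hid
  rw [hid]
  exact hsum

theorem B4_domination {N : Set T.ι} {x y : T.ι} {e a b e' f' : T.C} (he : e ∈ T.Cor x x 1)
    (hs : star e = e) (ha : a ∈ T.Cor x y 0) (hb : b ∈ T.Cor y x 0) (he' : e' ∈ T.Cor y y 1)
    (hf' : f' ∈ T.Cor y y (-1)) (hba : b * a - T.Δ x ∈ T.CorN N x x 0)
    (hea : e' * a - a * e ∈ T.CorN N x y 1) (hbe : b * e' - e * b ∈ T.CorN N y x 1)
    (hlin : e' * e' * f' - 2 * (e' * f' * e') + f' * e' * e' + 2 * e' ∈ T.CorN N y y 1) :
    ∃ f ∈ T.Cor x x (-1), star f = f ∧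
      e * e * f - 2 * (e * f * e) + f * e * e + 2 * e ∈ T.CorN N x x 1 := by
  have h1 := B4_first he ha hb he' hf' hba hea hbe hlin
  obtain ⟨f1, hf1⟩ : ∃ f1, f1 = b * f' * a := ⟨_, rfl⟩
  rw [← hf1] at h1
  have hf1C : f1 ∈ T.Cor x x (-1) := by
    rw [hf1]
    exact cor_mul (cor_mul hb hf' (by norm_num : (0 : ℤ) + -1 = -1)) ha (by norm_num)
  have hg1C : star f1 ∈ T.Cor x x (-1) := cor_star hf1C rfl
  have h3 : e * e * star f1 - 2 * (e * star f1 * e) + star f1 * e * e + 2 * e ∈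
      T.CorN N x x 1 := by
    have h4 : star (e * e * f1 - 2 * (e * f1 * e) + f1 * e * e + 2 * e) ∈ T.CorN N x x 1 :=
      corN_star h1 rfl
    simp only [star_add, star_sub, star_mul, hs, star_ofNat] at h4
    have h5 : e * e * star f1 - 2 * (e * star f1 * e) + star f1 * e * e + 2 * e =
        star f1 * (e * e) - e * (star f1 * e) * 2 + e * (e * star f1) + e * 2 := by
      noncomm_ring
    rw [h5]
    exact h4
  obtain ⟨f, hf⟩ : ∃ f, f = (1 / 2 : ℚ) • (f1 + star f1) := ⟨_, rfl⟩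
  have hff : ∀ z : T.C, (1 / 2 : ℚ) • (z + z) = z := by
    intro z
    rw [← two_smul ℚ z, smul_smul]
    norm_num
  have hff2 : f + f = f1 + star f1 := by
    rw [hf, ← smul_add, hff]
  refine ⟨f, ?_, ?_, ?_⟩
  · rw [hf]
    exact Submodule.smul_mem _ _ (Submodule.add_mem _ hf1C hg1C)
  · rw [hf, star_rat_smul, star_add, star_star, add_comm]
  · have h6 : (e * e * f - 2 * (e * f * e) + f * e * e + 2 * e) +
        (e * e * f - 2 * (e * f * e) + f * e * e + 2 * e) =
        (e * e * f1 - 2 * (e * f1 * e) + f1 * e * e + 2 * e) +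
        (e * e * star f1 - 2 * (e * star f1 * e) + star f1 * e * e + 2 * e) := by
      have h7 : (e * e * f - 2 * (e * f * e) + f * e * e + 2 * e) +
        (e * e * f - 2 * (e * f * e) + f * e * e + 2 * e) =
        e * e * (f + f) - 2 * (e * (f + f) * e) + (f + f) * e * e + 4 * e := by
        noncomm_ring
      rw [h7, hff2]
      noncomm_ring
    rw [← hff (e * e * f - 2 * (e * f * e) + f * e * e + 2 * e), h6]
    exact Submodule.smul_mem _ _ (Submodule.add_mem _ h1 h3)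

end Cycles

end SDCK
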