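import Pool.Agent.LibLC88.B2
import Pool.Agent.LibLC88.B3
import Pool.Agent.LibLC88.A3

/-!
# ROW B5: from the weight operator to a self-dual Chow-Künneth decomposition

Plan. Take `j` from `B3_exists_cohom`, `h : T.A x := mk' (e * f - f * e + j) _`; `star h = - h`
(`star (e f - f e) = f e - e f`), `R (val h) = ∑ (k - d) π k`. `m = 2 (d + 1)`, `r = (d + 1) ^ 2`; `E` from
`A3_interpolation m r`. Put `c k = val (aeval h (E (k - d)))` for `k < d`, and use `selfDual_of_mod` of
`LibFR75.Mod` with `n = 0`: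
* `hcc`: `c k * c l - (if k = l then c k else 0) = val (aeval h (E_k E_l - …)) = val (aeval h (P * S))
= val (aeval h P) * val (aeval h S) ∈ CorN` by `B2_aeval_mem` (`corN_mul`).
* `hR`: `R (c k) = ∑ l, (E (k - d)).eval (l - d) • π l = π k`: a polynomial in `∑ (l - d) π l` (`R ∘ val` is
additive and multiplicative; `T.R (q • a) = T.R (q • 1) * T.R a`; by induction on the polynomial
`T.R (val (aeval h S)) = ∑ l, T.R (algebraMap ℚ T.C (S.eval (l - d))) * T.π x l`).
* `hn`: `star (∑ c k) * ∑ c l = ∑∑ val (aeval h ((E (k - d)).comp (-X) * E (l - d)))` as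
`star (aeval h S) = aeval (star h) S` (`star_aeval` in `LibSDCK.Basic`), `aeval (-h) S = aeval h (S.comp (-X))`,
and `(k - d) + (l - d) < 0`.
-/

set_option autoImplicit false

namespace SDCK

universe u v

namespace Cycles

variable {T : Cycles.{u, v}}

open Polynomial

/-- the weight of the degree `l` -/
private def B5_w (T : Cycles.{u, v}) (x : T.ι) (l : ℕ) : ℤ := (l : ℤ) - T.dim x

private theorem B5_cor0 (x : T.ι) : T.Cor x x 0 = T.CH x x (T.dim x) := by rw [Cor, add_zero]

private theorem B5_R_int (n : ℤ) : T.R (algebraMap ℚ T.C (n : ℚ)) = (n : T.H) := by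
  rw [map_intCast, map_intCast]

/-- a polynomial in the weight operator, on the cohomology in degree `l` -/
private theorem B5_R_aeval {x : T.ι} (h : T.A x)
    (hh : T.R (val h) = ∑ k : Fin (2 * T.dim x + 1), (((k : ℕ) : ℤ) - T.dim x) • T.π x k)
    (l : Fin (2 * T.dim x + 1)) (S : ℚ[X]) :
    T.R (val (aeval h S)) * T.π x l =
      T.R (algebraMap ℚ T.C (S.eval ((B5_w T x l : ℤ) : ℚ))) * T.π x l := by
  have hcomm : ∀ (q : ℚ) (a : T.C), T.R a * T.R (algebraMap ℚ T.C q) =
      T.R (algebraMap ℚ T.C q) * T.R a := by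
    intro q a
    rw [← map_mul, ← map_mul, Algebra.commutes]
  have hh1 : T.R (val h) * T.π x l =
      T.R (algebraMap ℚ T.C ((B5_w T x l : ℤ) : ℚ)) * T.π x l := by
    rw [B5_R_int, ← zsmul_eq_mul, hh, Finset.sum_mul, Finset.sum_eq_single l]
    · rw [smul_mul_assoc, (T.π_ortho x).mul_eq, if_pos rfl, B5_w]
    · intro k _ hk
      rw [smul_mul_assoc, (T.π_ortho x).mul_eq, if_neg hk, smul_zero]
    · intro h1
      exact absurd (Finset.mem_univ l) h1
  induction S using Polynomial.induction_on with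
  | C a =>
    rw [aeval_C, eval_C, Algebra.algebraMap_eq_smul_one, val_smul, val_one]
    have h1 : a • T.Δ x = algebraMap ℚ T.C a * T.Δ x := Algebra.smul_def a (T.Δ x)
    rw [h1, map_mul, mul_assoc, ρ_mul_π]
  | add p q hp hq =>
    rw [map_add, val_add, map_add, add_mul, hp, hq, eval_add, map_add, map_add, add_mul]
  | monomial n a ih =>
    have h1 : (Polynomial.C a * X ^ (n + 1) : ℚ[X]) = Polynomial.C a * X ^ n * X := by
      rw [pow_succ, mul_assoc]
    have h2 : eval ((B5_w T x l : ℤ) : ℚ) (Polynomial.C a * X ^ n * X) =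
        ((B5_w T x l : ℤ) : ℚ) * eval ((B5_w T x l : ℤ) : ℚ) (Polynomial.C a * X ^ n) := by
      rw [eval_mul (p := Polynomial.C a * X ^ n), eval_X, mul_comm]
    rw [h1, map_mul, aeval_X, val_mul, map_mul, mul_assoc, hh1, ← mul_assoc, hcomm, mul_assoc, ih,
      ← mul_assoc, ← map_mul, ← map_mul, h2]

private theorem B5_dvd {N : Set T.ι} {x : T.ι} (h : T.A x) {P S : ℚ[X]}
    (hP : val (aeval h P) ∈ T.CorN N x x 0) (hd : P ∣ S) :
    val (aeval h S) ∈ T.CorN N x x 0 := by
  obtain ⟨S', rfl⟩ := hd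
  rw [map_mul, val_mul]
  refine corN_mul hP ?_ (add_zero 0)
  rw [B5_cor0]
  exact val_mem _

private theorem B5_val_sub {x : T.ι} (a b : T.A x) : val (a - b) = val a - val b := by
  rw [sub_eq_add_neg, val_add, val_neg, sub_eq_add_neg]

private theorem B5_aeval_neg {x : T.ι} (h : T.A x) (S : ℚ[X]) :
    aeval (-h) S = aeval h (S.comp (-X)) := by
  rw [aeval_comp, map_neg, aeval_X]

theorem B5_selfDual {N : Set T.ι} (hN : T.Kim N) {x : T.ι} {e f : T.C}
    (he : e ∈ T.Cor x x 1) (hs : star e = e) (hf : f ∈ T.Cor x x (-1)) (hfs : star f = f) {Λ : T.H}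
    (hΛ : T.IsHard N x e Λ)
    (hlin : e * e * f - 2 * (e * f * e) + f * e * e + 2 * e ∈ T.CorN N x x 1) :
    ∃ P, T.IsSelfDualCK x P := by
  classical
  obtain ⟨j, hj, hjs, hjR⟩ := B3_exists_cohom hN he hs hf hfs hΛ hlin
  have hmem : e * f - f * e + j ∈ T.CH x x (T.dim x) := by
    rw [← B5_cor0]
    refine Submodule.add_mem _ (Submodule.sub_mem _ ?_ ?_) (corN_le N x x 0 hj)
    · exact cor_mul he hf (by norm_num)
    · exact cor_mul hf he (by norm_num)
  obtain ⟨h, hh⟩ : ∃ h : T.A x, val h = e * f - f * e + j := ⟨mk' _ hmem, rfl⟩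
  have hstar : star h = -h := by
    apply val_inj
    rw [val_star, val_neg, hh, star_add, star_sub, star_mul, star_mul, hs, hfs, hjs]
    abel
  have hR : T.R (val h) =
      ∑ k : Fin (2 * T.dim x + 1), (((k : ℕ) : ℤ) - T.dim x) • T.π x k := by
    rw [hh, hjR]
  have hB2 := B2_aeval_mem he hf hlin h (by
    rw [hh]
    have h1 : e * f - f * e + j - (e * f - f * e) = j := by abel
    rw [h1]
    exact hj)
  have hcast : ((2 * (T.dim x + 1) : ℕ) : ℤ) = 2 * ((T.dim x + 1 : ℕ) : ℤ) := by
    rw [Nat.cast_mul]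
    rfl
  obtain ⟨E, hE1, hE2, hE3⟩ := A3_interpolation (2 * (T.dim x + 1)) ((T.dim x + 1) ^ 2)
    (by positivity)
  rw [hcast] at hE1 hE2 hE3
  have hI : ∀ k : Fin (2 * T.dim x + 1), B5_w T x k ∈
      Finset.Icc (-(2 * ((T.dim x + 1 : ℕ) : ℤ))) (2 * ((T.dim x + 1 : ℕ) : ℤ)) := by
    intro k
    have hk := k.isLt
    rw [Finset.mem_Icc, B5_w]
    push_cast
    constructor <;> omega
  refine selfDual_of_mod hN (fun k => val (aeval h (E (B5_w T x k)))) (fun k => ?_)
    (fun k l => ?_) (fun k => ?_) 0 ?_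
  · rw [B5_cor0]
    exact val_mem _
  · have h1 := B5_dvd h hB2 (hE1 _ (hI (low T k)) _ (hI (low T l)))
    have h2 : B5_w T x (low T k : Fin (2 * T.dim x + 1)) = B5_w T x (low T l : Fin (2 * T.dim x + 1)) ↔ k = l := by
      unfold B5_w
      constructor
      · intro h3
        ext
        have h4 : ((low T k : Fin (2 * T.dim x + 1)) : ℕ) = k := rfl
        have h5 : ((low T l : Fin (2 * T.dim x + 1)) : ℕ) = l := rfl
        omega
      · intro h3
        rw [h3]
    by_cases hkl : k = l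
    · rw [if_pos (h2.2 hkl), map_sub, map_mul, B5_val_sub, val_mul] at h1
      rw [if_pos hkl]
      exact h1
    · rw [if_neg (fun h3 => hkl (h2.1 h3)), sub_zero, map_mul, val_mul] at h1
      rw [if_neg hkl, sub_zero]
      exact h1
  · have h1 : T.R (val (aeval h (E (B5_w T x k)))) =
        T.R (val (aeval h (E (B5_w T x k)))) * T.R (T.Δ x) := by
      rw [← map_mul, T.mul_Δ (val_mem _)]
    rw [h1, ← T.π_sum, Finset.mul_sum, Finset.sum_eq_single (low T k)]
    · rw [B5_R_aeval h hR]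
      have h3 := hE2 _ (hI (low T k)) _ (hI (low T k))
      rw [if_pos rfl] at h3
      change T.R (algebraMap ℚ T.C (eval ((B5_w T x (low T k : Fin (2 * T.dim x + 1)) : ℤ) : ℚ)
        (E (B5_w T x (low T k : Fin (2 * T.dim x + 1)))))) * T.π x (low T k) = T.π x (low T k)
      rw [h3, map_one, map_one, one_mul]
    · intro l _ hl
      rw [B5_R_aeval h hR]
      have h3 := hE2 _ (hI (low T k)) _ (hI l)
      rw [if_neg (fun h2 => hl (by
        unfold B5_w at h2
        ext
        omega))] at h3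
      change T.R (algebraMap ℚ T.C (eval ((B5_w T x l : ℤ) : ℚ)
        (E (B5_w T x (low T k : Fin (2 * T.dim x + 1)))))) * T.π x l = 0
      rw [h3, map_zero, map_zero, zero_mul]
    · intro h2
      exact absurd (Finset.mem_univ _) h2
  · rw [zero_add, pow_one, star_sum, Finset.sum_mul]
    refine Submodule.sum_mem _ fun k _ => ?_
    rw [Finset.mul_sum]
    refine Submodule.sum_mem _ fun l _ => ?_
    have h1 : star (val (aeval h (E (B5_w T x k)))) * val (aeval h (E (B5_w T x l))) =
        val (aeval h ((E (B5_w T x k)).comp (-X) * E (B5_w T x l))) := by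
      rw [map_mul, val_mul, ← B5_aeval_neg, ← hstar, ← star_aeval, val_star]
    rw [h1]
    refine B5_dvd h hB2 (hE3 _ (hI (low T k)) _ (hI (low T l)) ?_)
    have hk := k.isLt
    have hl := l.isLt
    unfold B5_w
    have h4 : ((low T k : Fin (2 * T.dim x + 1)) : ℕ) = k := rfl
    have h5 : ((low T l : Fin (2 * T.dim x + 1)) : ℕ) = l := rfl
    omega

end Cycles

end SDCK
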