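import Pool.Agent.LibLC88.B4

/-!
# The class `Lin` satisfies the linear equation
-/

set_option autoImplicit false

namespace SDCK

universe u v

namespace Cycles

variable {T : Cycles.{u, v}}

private theorem B6_ring {A : Type*} [Ring A] {E E' F F' : A} (h1 : E * E' = E' * E)
    (h2 : E * F' = F' * E) (h3 : F * E' = E' * F) :
    (E + E') * (E + E') * (F + F') - 2 * ((E + E') * (F + F') * (E + E')) +
      (F + F') * (E + E') * (E + E') + 2 * (E + E') =
      (E * E * F - 2 * (E * F * E) + F * E * E + 2 * E) +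
      (E' * E' * F' - 2 * (E' * F' * E') + F' * E' * E' + 2 * E') := by
  have k1 : ∀ x, E' * (E * x) = E * (E' * x) := fun x => by rw [← mul_assoc, ← h1, mul_assoc]
  have k2 : ∀ x, F' * (E * x) = E * (F' * x) := fun x => by rw [← mul_assoc, ← h2, mul_assoc]
  have k3 : ∀ x, E' * (F * x) = F * (E' * x) := fun x => by rw [← mul_assoc, ← h3, mul_assoc]
  simp only [two_mul, mul_add, add_mul, mul_assoc, ← h1, ← h2, ← h3, k1, k2, k3]
  abel

private theorem B6_theta {i y : T.ι} {θ : T.C → T.C} (hθ : T.IsHom i y θ) {e f : T.C}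
    (he : e ∈ T.Cor i i 1) (hf : f ∈ T.Cor i i (-1)) :
    θ (e * e * f - 2 * (e * f * e) + f * e * e + 2 * e) =
      θ e * θ e * θ f - 2 * (θ e * θ f * θ e) + θ f * θ e * θ e + 2 * θ e := by
  have hee : e * e ∈ T.Cor i i 2 := cor_mul he he (by norm_num)
  have hef : e * f ∈ T.Cor i i 0 := cor_mul he hf (by norm_num)
  have hfe : f * e ∈ T.Cor i i 0 := cor_mul hf he (by norm_num)
  have m1 : θ (e * e * f) = θ e * θ e * θ f := by
    rw [hθ.mul _ _ _ hee _ hf, hθ.mul _ _ _ he _ he]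
  have m2 : θ (e * f * e) = θ e * θ f * θ e := by
    rw [hθ.mul _ _ _ hef _ he, hθ.mul _ _ _ he _ hf]
  have m3 : θ (f * e * e) = θ f * θ e * θ e := by
    rw [hθ.mul _ _ _ hfe _ he, hθ.mul _ _ _ hf _ he]
  have h1 : e * e * f - 2 * (e * f * e) + f * e * e + 2 * e + (e * f * e + e * f * e) =
      e * e * f + f * e * e + (e + e) := by
    noncomm_ring
  have h3 := congrArg θ h1
  rw [hθ.add (e * e * f - 2 * (e * f * e) + f * e * e + 2 * e) (e * f * e + e * f * e),
    hθ.add (e * f * e) (e * f * e), hθ.add (e * e * f + f * e * e) (e + e),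
    hθ.add (e * e * f) (f * e * e), hθ.add e e, m1, m2, m3] at h3
  have h4 : θ e * θ e * θ f - 2 * (θ e * θ f * θ e) + θ f * θ e * θ e + 2 * θ e =
      (θ e * θ e * θ f + θ f * θ e * θ e + (θ e + θ e)) -
        (θ e * θ f * θ e + θ e * θ f * θ e) := by
    rw [two_mul, two_mul]; abel
  rw [h4, ← h3, add_sub_cancel_right]

private theorem B6_cov {N : Set T.ι} {x y : T.ι} {e a b e' f' : T.C} (he : e ∈ T.Cor x x 1)
    (ha : a ∈ T.Cor y x 0) (hb : b ∈ T.Cor x y 0) (he' : e' ∈ T.Cor y y 1)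
    (hf' : f' ∈ T.Cor y y (-1)) (hba : b * a - T.Δ y ∈ T.CorN N y y 0)
    (hc : e - a * e' * b ∈ T.CorN N x x 1)
    (hlin : e' * e' * f' - 2 * (e' * f' * e') + f' * e' * e' + 2 * e' ∈ T.CorN N y y 1) :
    e * e * (a * f' * b) - 2 * (e * (a * f' * b) * e) + (a * f' * b) * e * e + 2 * e ∈
      T.CorN N x x 1 := by
  obtain ⟨c, hcdef⟩ : ∃ c, c = a * e' * b := ⟨_, rfl⟩
  obtain ⟨g, hgdef⟩ : ∃ g, g = a * f' * b := ⟨_, rfl⟩
  rw [← hcdef] at hc
  rw [← hgdef]
  have hcC : c ∈ T.Cor x x 1 := by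
    rw [hcdef]
    exact cor_mul (cor_mul ha he' (by norm_num : (0 : ℤ) + 1 = 1)) hb (by norm_num)
  have hgC : g ∈ T.Cor x x (-1) := by
    rw [hgdef]
    exact cor_mul (cor_mul ha hf' (by norm_num : (0 : ℤ) + -1 = -1)) hb (by norm_num)
  have h2 : ∀ z ∈ T.CorN N x x 1, 2 * z ∈ T.CorN N x x 1 := by
    intro z hz
    rw [two_mul]
    exact Submodule.add_mem _ hz hz
  -- replace `e` by `c`
  have t1 : e * (e - c) * g ∈ T.CorN N x x 1 :=
    corN_mul (mul_corN he hc (by norm_num : (1 : ℤ) + 1 = 2)) hgC (by norm_num)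
  have t2 : (e - c) * (c * g) ∈ T.CorN N x x 1 :=
    corN_mul hc (cor_mul hcC hgC (by norm_num : (1 : ℤ) + -1 = 0)) (by norm_num)
  have t3 : (e - c) * (g * e) ∈ T.CorN N x x 1 :=
    corN_mul hc (cor_mul hgC he (by norm_num : (-1 : ℤ) + 1 = 0)) (by norm_num)
  have t4 : c * g * (e - c) ∈ T.CorN N x x 1 :=
    mul_corN (cor_mul hcC hgC (by norm_num : (1 : ℤ) + -1 = 0)) hc (by norm_num)
  have t5 : g * e * (e - c) ∈ T.CorN N x x 1 :=
    mul_corN (cor_mul hgC he (by norm_num : (-1 : ℤ) + 1 = 0)) hc (by norm_num)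
  have t6 : g * ((e - c) * c) ∈ T.CorN N x x 1 :=
    mul_corN hgC (corN_mul hc hcC (by norm_num : (1 : ℤ) + 1 = 2)) (by norm_num)
  have hA : e * e * g - 2 * (e * g * e) + g * e * e + 2 * e -
      (c * c * g - 2 * (c * g * c) + g * c * c + 2 * c) ∈ T.CorN N x x 1 := by
    have h1 : e * e * g - 2 * (e * g * e) + g * e * e + 2 * e -
        (c * c * g - 2 * (c * g * c) + g * c * c + 2 * c) =
        e * (e - c) * g + (e - c) * (c * g) - 2 * ((e - c) * (g * e)) - 2 * (c * g * (e - c)) +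
          g * e * (e - c) + g * ((e - c) * c) + 2 * (e - c) := by
      noncomm_ring
    rw [h1]
    exact Submodule.add_mem _ (Submodule.add_mem _ (Submodule.add_mem _ (Submodule.sub_mem _
      (Submodule.sub_mem _ (Submodule.add_mem _ t1 t2) (h2 _ t3)) (h2 _ t4)) t5) t6) (h2 _ hc)
  -- replace `b * a` by `Δ`
  have hk : b * a - T.Δ y ∈ T.CorN N y y 0 := hba
  have s1 : a * e' * (b * a - T.Δ y) * (e' * b * (a * f' * b)) ∈ T.CorN N x x 1 :=
    corN_mul (mul_corN (cor_mul ha he' (by norm_num : (0 : ℤ) + 1 = 1)) hk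
      (by norm_num : (1 : ℤ) + 0 = 1)) (cor_mul (cor_mul he' hb (by norm_num : (1 : ℤ) + 0 = 1))
      (cor_mul (cor_mul ha hf' (by norm_num : (0 : ℤ) + -1 = -1)) hb
        (by norm_num : (-1 : ℤ) + 0 = -1)) (by norm_num : (1 : ℤ) + -1 = 0)) (by norm_num)
  have s2 : a * e' * e' * (b * a - T.Δ y) * (f' * b) ∈ T.CorN N x x 1 :=
    corN_mul (mul_corN (cor_mul (cor_mul ha he' (by norm_num : (0 : ℤ) + 1 = 1)) he'
      (by norm_num : (1 : ℤ) + 1 = 2)) hk (by norm_num : (2 : ℤ) + 0 = 2))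
      (cor_mul hf' hb (by norm_num : (-1 : ℤ) + 0 = -1)) (by norm_num)
  have s3 : a * e' * (b * a - T.Δ y) * (f' * b * (a * e' * b)) ∈ T.CorN N x x 1 :=
    corN_mul (mul_corN (cor_mul ha he' (by norm_num : (0 : ℤ) + 1 = 1)) hk
      (by norm_num : (1 : ℤ) + 0 = 1)) (cor_mul (cor_mul hf' hb (by norm_num : (-1 : ℤ) + 0 = -1))
      (cor_mul (cor_mul ha he' (by norm_num : (0 : ℤ) + 1 = 1)) hb
        (by norm_num : (1 : ℤ) + 0 = 1)) (by norm_num : (-1 : ℤ) + 1 = 0)) (by norm_num)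
  have s4 : a * e' * f' * (b * a - T.Δ y) * (e' * b) ∈ T.CorN N x x 1 :=
    corN_mul (mul_corN (cor_mul (cor_mul ha he' (by norm_num : (0 : ℤ) + 1 = 1)) hf'
      (by norm_num : (1 : ℤ) + -1 = 0)) hk (by norm_num : (0 : ℤ) + 0 = 0))
      (cor_mul he' hb (by norm_num : (1 : ℤ) + 0 = 1)) (by norm_num)
  have s5 : a * f' * (b * a - T.Δ y) * (e' * b * (a * e' * b)) ∈ T.CorN N x x 1 :=
    corN_mul (mul_corN (cor_mul ha hf' (by norm_num : (0 : ℤ) + -1 = -1)) hk
      (by norm_num : (-1 : ℤ) + 0 = -1)) (cor_mul (cor_mul he' hb (by norm_num : (1 : ℤ) + 0 = 1))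
      (cor_mul (cor_mul ha he' (by norm_num : (0 : ℤ) + 1 = 1)) hb
        (by norm_num : (1 : ℤ) + 0 = 1)) (by norm_num : (1 : ℤ) + 1 = 2)) (by norm_num)
  have s6 : a * f' * e' * (b * a - T.Δ y) * (e' * b) ∈ T.CorN N x x 1 :=
    corN_mul (mul_corN (cor_mul (cor_mul ha hf' (by norm_num : (0 : ℤ) + -1 = -1)) he'
      (by norm_num : (-1 : ℤ) + 1 = 0)) hk (by norm_num : (0 : ℤ) + 0 = 0))
      (cor_mul he' hb (by norm_num : (1 : ℤ) + 0 = 1)) (by norm_num)
  have s0 : a * (e' * e' * f' - 2 * (e' * f' * e') + f' * e' * e' + 2 * e') * b ∈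
      T.CorN N x x 1 := corN_mul (mul_corN ha hlin (by norm_num : (0 : ℤ) + 1 = 1)) hb (by norm_num)
  have hΔe : e' * T.Δ y = e' := cor_mul_Δ he'
  have hΔf : f' * T.Δ y = f' := cor_mul_Δ hf'
  have hB : c * c * g - 2 * (c * g * c) + g * c * c + 2 * c =
      a * (e' * e' * f' - 2 * (e' * f' * e') + f' * e' * e' + 2 * e') * b +
      a * e' * (b * a - T.Δ y) * (e' * b * (a * f' * b)) +
      a * e' * e' * (b * a - T.Δ y) * (f' * b) -
      2 * (a * e' * (b * a - T.Δ y) * (f' * b * (a * e' * b))) -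
      2 * (a * e' * f' * (b * a - T.Δ y) * (e' * b)) +
      a * f' * (b * a - T.Δ y) * (e' * b * (a * e' * b)) +
      a * f' * e' * (b * a - T.Δ y) * (e' * b) := by
    have r1 : a * e' * (b * a - T.Δ y) = a * e' * b * a - a * e' := by
      rw [mul_sub, mul_assoc a e' (T.Δ y), hΔe]
      noncomm_ring
    have r2 : a * e' * e' * (b * a - T.Δ y) = a * e' * e' * b * a - a * e' * e' := by
      rw [mul_sub, mul_assoc (a * e') e' (T.Δ y), hΔe]
      noncomm_ring
    have r3 : a * e' * f' * (b * a - T.Δ y) = a * e' * f' * b * a - a * e' * f' := by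
      rw [mul_sub, mul_assoc (a * e') f' (T.Δ y), hΔf]
      noncomm_ring
    have r4 : a * f' * (b * a - T.Δ y) = a * f' * b * a - a * f' := by
      rw [mul_sub, mul_assoc a f' (T.Δ y), hΔf]
      noncomm_ring
    have r5 : a * f' * e' * (b * a - T.Δ y) = a * f' * e' * b * a - a * f' * e' := by
      rw [mul_sub, mul_assoc (a * f') e' (T.Δ y), hΔe]
      noncomm_ring
    rw [r1, r2, r3, r4, r5, hcdef, hgdef]
    noncomm_ring
  have hB2 : c * c * g - 2 * (c * g * c) + g * c * c + 2 * c ∈ T.CorN N x x 1 := by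
    rw [hB]
    exact Submodule.add_mem _ (Submodule.add_mem _ (Submodule.sub_mem _ (Submodule.sub_mem _
      (Submodule.add_mem _ (Submodule.add_mem _ s0 s1) s2) (h2 _ s3)) (h2 _ s4)) s5) s6
  have := Submodule.add_mem _ hA hB2
  rwa [sub_add_cancel] at this

theorem B6_isLinear {N : Set T.ι} {y : T.ι} {e : T.C} (h : T.Lin N y e) : T.IsLinear N y e := by
  induction h with
  | linear N y e h => exact h
  | mono N N' y e hN h ih =>
    obtain ⟨he, f, hf, hr⟩ := ih
    refine ⟨he, f, hf, ?_⟩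
    refine Submodule.span_mono ?_ hr
    rintro z ⟨o, ho, h1⟩
    exact ⟨o, hN ho, h1⟩
  | smul N y e q h ih =>
    obtain ⟨he, f, hf, hr⟩ := ih
    refine ⟨Submodule.smul_mem _ _ he, ?_⟩
    by_cases hq : q = 0
    · refine ⟨0, Submodule.zero_mem _, ?_⟩
      rw [hq, zero_smul]
      simp only [mul_zero, sub_zero, add_zero]
      exact Submodule.zero_mem _
    · refine ⟨q⁻¹ • f, Submodule.smul_mem _ _ hf, ?_⟩
      have e1 : (q • e) * (q • e) * (q⁻¹ • f) - 2 * ((q • e) * (q⁻¹ • f) * (q • e)) +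
          (q⁻¹ • f) * (q • e) * (q • e) + 2 * (q • e) =
          q • (e * e * f - 2 * (e * f * e) + f * e * e + 2 * e) := by
        simp only [smul_mul_assoc, mul_smul_comm, smul_smul, smul_add, smul_sub]
        have c1 : q⁻¹ * (q * q) = q := by field_simp
        have c2 : q * (q⁻¹ * q) = q := by field_simp
        have c3 : q * (q * q⁻¹) = q := by field_simp
        simp only [c1, c2, c3]
      rw [e1]
      exact Submodule.smul_mem _ _ hr
  | prod N₁ N₂ N i j y e e' θ θ' h h' hθ hθ' hc hN hN' ih ih' =>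
    obtain ⟨he, f, hf, hr⟩ := ih
    obtain ⟨he', f', hf', hr'⟩ := ih'
    refine ⟨Submodule.add_mem _ (hθ.mem 1 e he) (hθ'.mem 1 e' he'), θ f + θ' f',
      Submodule.add_mem _ (hθ.mem (-1) f hf) (hθ'.mem (-1) f' hf'), ?_⟩
    rw [B6_ring (hc _ _ e he e' he') (hc _ _ e he f' hf') (hc _ _ f hf e' he'),
      ← B6_theta hθ he hf, ← B6_theta hθ' he' hf']
    exact Submodule.add_mem _ (hN _ hr) (hN' _ hr')
  | dom N x y e e' he hd h ih =>
    obtain ⟨a, ha, b, hb, hba, hea, hbe⟩ := hd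
    obtain ⟨he', f', hf', hr⟩ := ih
    exact ⟨he, b * f' * a, cor_mul (cor_mul hb hf' (zero_add (-1))) ha (add_zero (-1)),
      B4_first he ha hb he' hf' hba hea hbe hr⟩
  | cov N x y e e' he hc h ih =>
    obtain ⟨a, ha, b, hb, hba, hc⟩ := hc
    obtain ⟨he', f', hf', hr⟩ := ih
    exact ⟨he, a * f' * b, cor_mul (cor_mul ha hf' (zero_add (-1))) hb (add_zero (-1)),
      B6_cov he ha hb he' hf' hba hc hr⟩

end Cycles

end SDCK
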