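import Mathlib

/-!
# ROW C1: exact `sl₂`-triples with anti-involution

Plan (nilpotent Jacobson-Morozov). Left and right multiplications; `ad e` is nilpotent as `e` is.
(1) As in `A1`: on `ker (ad e)` the product `∏_{k < M} (ad h - k)` is zero, `M` with `(ad e) ^ M = 0`
(uses only `ad h = [ad e, ad f0]` and `[ad h, ad e] = 2 ad e`). So `ad h + 2` is injective on `ker (ad e)`, with
inverse given by a polynomial in `ad h`: with `g(X) = ∏ (X - k)`, `g(-2) ≠ 0`,
`g(X) - g(-2) = (X + 2) q(X)`, the inverse is `- q(ad h) / g(-2)`.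
(2) `u = [h, f0] + 2 f0` lies in `ker (ad e)`: `[e, u] = [e, [h, f0]] + 2 h = [[e, h], f0] + [h, [e, f0]] + 2 h
= - 2 [e, f0] + 0 + 2 h = 0`. Let `v = (ad h + 2)⁻¹ u ∈ ker (ad e)`, `f = f0 - v`: `[e, f] = h` and
`[h, f] + 2 f = u - u = 0`. `f` lies in every subspace `S` containing `f0` and stable under `[h, ·]`.
(3) uniqueness: if `f`, `f'` both satisfy `[e, f] = h`, `[h, f] = - 2 f`, the difference is in `ker (ad e)` and in
`ker (ad h + 2)`, so it is zero.
-/

set_option autoImplicit false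

namespace SDCK

section C1mod

open Polynomial

variable {M : Type*} [AddCommGroup M] [Module ℚ M] {E F H : Module.End ℚ M}

theorem C1_aeval_mem {S : Submodule ℚ M} (hS : ∀ x ∈ S, H x ∈ S) (p : ℚ[X]) {x : M} (hx : x ∈ S) :
    aeval H p x ∈ S := by
  have hpow : ∀ k : ℕ, (H ^ k) x ∈ S := by
    intro k
    induction k with
    | zero => simpa using hx
    | succ k ih =>
      rw [pow_succ', Module.End.mul_apply]
      exact hS _ ih
  induction p using Polynomial.induction_on' with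
  | add p q hp hq =>
    rw [map_add, LinearMap.add_apply]
    exact S.add_mem hp hq
  | monomial k a =>
    rw [aeval_monomial, Module.End.mul_apply, Module.algebraMap_end_apply]
    exact S.smul_mem _ (hpow k)

theorem C1_aeval_eig {μ : ℚ} {w : M} (hw : H w = μ • w) (p : ℚ[X]) :
    aeval H p w = p.eval μ • w := by
  have hpow : ∀ k : ℕ, (H ^ k) w = μ ^ k • w := by
    intro k
    induction k with
    | zero => simp
    | succ k ih =>
      rw [pow_succ', Module.End.mul_apply, ih, map_smul, hw, smul_smul, pow_succ]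
  induction p using Polynomial.induction_on' with
  | add p q hp hq => rw [map_add, LinearMap.add_apply, hp, hq, eval_add, add_smul]
  | monomial k a =>
    rw [aeval_monomial, Module.End.mul_apply, Module.algebraMap_end_apply, hpow, smul_smul,
      eval_monomial]

theorem C1_HE (h1 : H * E - E * H = (2 : ℚ) • E) (x : M) : H (E x) = E (H x) + (2 : ℚ) • E x := by
  have h := congrArg (fun f => f x) h1
  simp only [LinearMap.sub_apply, Module.End.mul_apply, LinearMap.smul_apply] at h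
  rw [← h]
  abel

theorem C1_EF (h2 : E * F - F * E = H) (x : M) : E (F x) = F (E x) + H x := by
  have h := congrArg (fun f => f x) h2
  simp only [LinearMap.sub_apply, Module.End.mul_apply] at h
  rw [← h]
  abel

theorem C1_E_pow_F (h1 : H * E - E * H = (2 : ℚ) • E) (h2 : E * F - F * E = H) (i : ℕ) (x : M) :
    (E ^ (i + 1)) (F x) = F ((E ^ (i + 1)) x) +
      ((i : ℚ) + 1) • (H ((E ^ i) x) - (i : ℚ) • (E ^ i) x) := by
  induction i generalizing x with
  | zero => simp [C1_EF h2]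
  | succ i ih =>
    have e1 : (E ^ (i + 1 + 1)) (F x) = E ((E ^ (i + 1)) (F x)) := by
      rw [pow_succ' E (i + 1), Module.End.mul_apply]
    have e2 : (E ^ (i + 1)) x = E ((E ^ i) x) := by rw [pow_succ', Module.End.mul_apply]
    have e3 : (E ^ (i + 1 + 1)) x = E (E ((E ^ i) x)) := by
      rw [pow_succ' E (i + 1), Module.End.mul_apply, e2]
    rw [e1, ih, map_add, C1_EF h2, map_smul, map_sub, map_smul, e2, e3, C1_HE h1]
    push_cast
    module

/-- `(H - j) ⋯ (H - j - i + 1)` maps `ker E ∩ im E^j` to `im E^(j + i)` -/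
theorem C1_prod_range (h1 : H * E - E * H = (2 : ℚ) • E) (h2 : E * F - F * E = H) {j : ℕ} {z x : M}
    (hz : E z = 0) (hx : z = (E ^ j) x) (i : ℕ) :
    ∃ x', aeval H (∏ l ∈ Finset.range i, (X - C (((j + l : ℕ) : ℚ)))) z = (E ^ (j + i)) x' ∧
      E (aeval H (∏ l ∈ Finset.range i, (X - C (((j + l : ℕ) : ℚ)))) z) = 0 := by
  have hker : ∀ p : ℚ[X], E (aeval H p z) = 0 := by
    intro p
    have hS : ∀ y ∈ LinearMap.ker E, H y ∈ LinearMap.ker E := by
      intro y hy
      rw [LinearMap.mem_ker] at hy ⊢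
      have := C1_HE h1 y
      rw [hy, map_zero, smul_zero, add_zero] at this
      exact this.symm
    exact LinearMap.mem_ker.1 (C1_aeval_mem hS p (LinearMap.mem_ker.2 hz))
  induction i with
  | zero => exact ⟨x, by simpa using hx, hker _⟩
  | succ i ih =>
    obtain ⟨x', hx', h0⟩ := ih
    refine ⟨((((j + i : ℕ) : ℚ) + 1)⁻¹) • F x', ?_, hker _⟩
    have h3 := C1_E_pow_F h1 h2 (j + i) x'
    have h4 : (E ^ (j + i + 1)) x' = 0 := by
      rw [pow_succ', Module.End.mul_apply, ← hx', h0]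
    rw [h4, map_zero, zero_add] at h3
    have hne : (((j + i : ℕ) : ℚ) + 1) ≠ 0 := by positivity
    rw [show j + (i + 1) = j + i + 1 from rfl, map_smul, h3, smul_smul, inv_mul_cancel₀ hne,
      one_smul, Finset.prod_range_succ, mul_comm, map_mul, Module.End.mul_apply, hx', map_sub,
      aeval_X, aeval_C, LinearMap.sub_apply, Module.algebraMap_end_apply]

/-- on `ker E` the eigenvalues of `H` are `0, 1, 2, …` -/
theorem C1_eval_ne {N : ℕ} : (∏ l ∈ Finset.range N, (X - C (((0 + l : ℕ) : ℚ)))).eval (-2) ≠ 0 := by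
  rw [eval_prod, Finset.prod_ne_zero_iff]
  intro l _
  rw [eval_sub, eval_X, eval_C]
  have : (0 : ℚ) ≤ ((0 + l : ℕ) : ℚ) := Nat.cast_nonneg _
  linarith

/-- Morozov's lemma, for vectors: a solution of `E x = h`, where `H h = 0` and `E h = -2 E`… is
given by a completion -/
theorem C1_mor (h1 : H * E - E * H = (2 : ℚ) • E) (h2 : E * F - F * E = H) {N : ℕ}
    (hN : E ^ N = 0) {x h : M} (hx : E x = h) (hh : H h = 0) :
    ∃ y, E y = h ∧ H y = -((2 : ℚ) • y) ∧
      ∀ S : Submodule ℚ M, x ∈ S → (∀ y ∈ S, H y ∈ S) → y ∈ S := by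
  set z : M := H x + (2 : ℚ) • x with hz
  have hzS : ∀ S : Submodule ℚ M, x ∈ S → (∀ y ∈ S, H y ∈ S) → z ∈ S :=
    fun S hxS hS => S.add_mem (hS _ hxS) (S.smul_mem _ hxS)
  have hEz : E z = 0 := by
    have := C1_HE h1 x
    rw [hx, hh] at this
    rw [hz, map_add, map_smul, hx, ← this]
  set P : ℚ[X] := ∏ l ∈ Finset.range N, (X - C (((0 + l : ℕ) : ℚ))) with hP
  have hPz : aeval H P z = 0 := by
    obtain ⟨x', hx', -⟩ := C1_prod_range h1 h2 (j := 0) (x := z) hEz (by simp) N
    rw [hP, hx', zero_add, hN, LinearMap.zero_apply]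
  have hPe : P.eval (-2) ≠ 0 := C1_eval_ne
  obtain ⟨q, hq⟩ := X_sub_C_dvd_sub_C_eval (a := (-2 : ℚ)) (p := P)
  have h3 := congrArg (fun p => aeval H p z) hq
  simp only [map_mul, map_sub, aeval_X, aeval_C, Module.End.mul_apply, LinearMap.sub_apply,
    Module.algebraMap_end_apply, hPz] at h3
  have hker : E (aeval H q z) = 0 := by
    have hS : ∀ y ∈ LinearMap.ker E, H y ∈ LinearMap.ker E := by
      intro y hy
      rw [LinearMap.mem_ker] at hy ⊢
      have := C1_HE h1 y
      rw [hy, map_zero, smul_zero, add_zero] at this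
      exact this.symm
    exact LinearMap.mem_ker.1 (C1_aeval_mem hS q (LinearMap.mem_ker.2 hEz))
  refine ⟨x + (P.eval (-2))⁻¹ • aeval H q z, ?_, ?_, ?_⟩
  · rw [map_add, map_smul, hker, smul_zero, add_zero, hx]
  · have h4 : H (aeval H q z) = -(P.eval (-2) • z) - (2 : ℚ) • aeval H q z := by
      rw [zero_sub] at h3
      rw [h3]
      module
    rw [map_add, map_smul, h4, smul_sub, smul_neg, smul_smul, inv_mul_cancel₀ hPe, one_smul, hz]
    module
  · exact fun S hxS hS => S.add_mem hxS (S.smul_mem _ (C1_aeval_mem hS q (hzS S hxS hS)))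

/-- uniqueness of the completion -/
theorem C1_mor_unique (h1 : H * E - E * H = (2 : ℚ) • E) (h2 : E * F - F * E = H) {N : ℕ}
    (hN : E ^ N = 0) {u : M} (hu : E u = 0) (hu' : H u = -((2 : ℚ) • u)) : u = 0 := by
  obtain ⟨x', hx', -⟩ := C1_prod_range h1 h2 (j := 0) (x := u) hu (by simp) N
  rw [zero_add, hN, LinearMap.zero_apply, C1_aeval_eig (μ := -2) (by rw [hu']; module)] at hx'
  exact (smul_eq_zero.1 hx').resolve_left C1_eval_ne

end C1mod

/-- commutator -/
def C1_ad {A : Type*} [Ring A] [Algebra ℚ A] (y : A) : Module.End ℚ A :=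
  LinearMap.mulLeft ℚ y - LinearMap.mulRight ℚ y

theorem C1_ad_apply {A : Type*} [Ring A] [Algebra ℚ A] (y z : A) :
    C1_ad y z = y * z - z * y := rfl

theorem C1_ad_nil {A : Type*} [Ring A] [Algebra ℚ A] {e : A} {n : ℕ} (he : e ^ n = 0) :
    ∃ N, (C1_ad e) ^ N = 0 := by
  have h1 : IsNilpotent (LinearMap.mulLeft ℚ e) := ⟨n, by rw [LinearMap.pow_mulLeft, he]; ext; simp⟩
  have h2 : IsNilpotent (LinearMap.mulRight ℚ e) :=
    ⟨n, by rw [LinearMap.pow_mulRight, he]; ext; simp⟩
  exact Commute.isNilpotent_sub (LinearMap.commute_mulLeft_right e e) h1 h2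

theorem C1_ad1 {A : Type*} [Ring A] [Algebra ℚ A] {e h : A} (hhe : h * e - e * h = 2 * e) :
    C1_ad h * C1_ad e - C1_ad e * C1_ad h = (2 : ℚ) • C1_ad e := by
  ext z
  simp only [LinearMap.sub_apply, Module.End.mul_apply, LinearMap.smul_apply, C1_ad_apply]
  have h4 : h * (e * z - z * e) - (e * z - z * e) * h - (e * (h * z - z * h) -
      (h * z - z * h) * e) = (h * e - e * h) * z - z * (h * e - e * h) := by noncomm_ring
  rw [h4, hhe, two_smul]
  noncomm_ring

theorem C1_ad2 {A : Type*} [Ring A] [Algebra ℚ A] {e f h : A} (hef : e * f - f * e = h) :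
    C1_ad e * C1_ad f - C1_ad f * C1_ad e = C1_ad h := by
  ext z
  simp only [LinearMap.sub_apply, Module.End.mul_apply, C1_ad_apply]
  rw [← hef]
  noncomm_ring

theorem C1_morozov {A : Type*} [Ring A] [Algebra ℚ A] {e f0 h : A} {n : ℕ}
    (hef : e * f0 - f0 * e = h) (hhe : h * e - e * h = 2 * e) (he : e ^ n = 0) :
    ∃ f : A, e * f - f * e = h ∧ h * f - f * h = -(2 * f) ∧
      ∀ S : Submodule ℚ A, f0 ∈ S → (∀ z ∈ S, h * z - z * h ∈ S) → f ∈ S := by
  obtain ⟨N, hN⟩ := C1_ad_nil he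
  obtain ⟨f, h1, h2, h3⟩ := C1_mor (C1_ad1 hhe) (C1_ad2 hef) hN (x := f0) (h := h) hef
    (by rw [C1_ad_apply, sub_self])
  refine ⟨f, h1, ?_, fun S hf0 hS => h3 S hf0 fun y hy => hS y hy⟩
  rw [C1_ad_apply] at h2
  rw [h2, two_smul, two_mul]

theorem C1_unique {A : Type*} [Ring A] [Algebra ℚ A] {e f f' h : A} {n : ℕ}
    (hhe : h * e - e * h = 2 * e) (he : e ^ n = 0)
    (hef : e * f - f * e = h) (hhf : h * f - f * h = -(2 * f))
    (hef' : e * f' - f' * e = h) (hhf' : h * f' - f' * h = -(2 * f')) : f = f' := by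
  obtain ⟨N, hN⟩ := C1_ad_nil he
  rw [← sub_eq_zero]
  refine C1_mor_unique (C1_ad1 hhe) (C1_ad2 hef) hN ?_ ?_
  · rw [C1_ad_apply]
    have h1 : e * (f - f') - (f - f') * e = (e * f - f * e) - (e * f' - f' * e) := by
      noncomm_ring
    rw [h1, hef, hef', sub_self]
  · rw [C1_ad_apply]
    have h1 : h * (f - f') - (f - f') * h = (h * f - f * h) - (h * f' - f' * h) := by
      noncomm_ring
    rw [h1, hhf, hhf', two_smul, two_mul, two_mul]
    abel

end SDCK
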