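import Mathlib

/-!
# ROW C2: semisimplicity of `h` in an `sl₂`-triple with nilpotent `e`

Plan. As left modules: on `ker e` the product `∏_{k < n} (h - k)` is zero (see the plan of row A1, (0)-(3)).
`f` is nilpotent as well: `f ^ j` shifts the eigenvalues of `h` (by row A1 `h` satisfies a polynomial with
roots in `[-2n, 2n]`; `h f = f (h - 2)` gives `P(h) f ^ j = f ^ j P(h - 2 j)`, and for `2 j > 4 n` the polynomials
`P(X)` and `P(X - 2 j)` are coprime, so `f ^ j = 0`.) Let `v ∈ ker e`, `h v = k v`, `k < n` a natural number: then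
`f ^ (k + 1) v = 0` (otherwise ...: `e f ^ (i + 1) v = (i + 1) (k - i) f ^ i v`; since `f` is nilpotent, take the
largest `i` with `f ^ i v ≠ 0`: then `(i + 1) (k - i) = 0`, `i = k`). So on the submodule generated by `ker e`
the eigenvalues `k - 2 i`, `0 ≤ i ≤ k`, are in `[-(n - 1), n - 1]` and `h` is diagonalisable; and that
submodule is everything: by induction on `j`, `ker e ^ j ⊆ ∑_i f ^ i ker e`: for `v ∈ ker e ^ (j + 1)` the
element `e ^ j v ∈ ker e` can be written as `e ^ j (f ^ j w)` with `w ∈ ker e`: split `e ^ j v` into eigenvectors of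
`h` (on `ker e`, `h` is diagonalisable with eigenvalues `0, …, n - 1`); on `ker e`, `e ^ j f ^ j` acts as
`j! h (h - 1) … (h - j + 1)`, and `e ^ j v` has no component with eigenvalue `< j`, since `e ^ j v` satisfies
`∏_{j ≤ k < n} (h - k) = 0` (step (2) of the plan of row A1 starts with `v' = e ^ j w`).
Alternative without splitting: prove `∏_{i = -(n-1)}^{n-1} (h - i) = 0` by any other method.
-/

set_option autoImplicit false

namespace SDCK

open Polynomial

section C2mod

variable {M : Type*} [AddCommGroup M] [Module ℚ M] {E F H : Module.End ℚ M}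

theorem C2_aeval_mem {S : Submodule ℚ M} (hS : ∀ x ∈ S, H x ∈ S) (p : ℚ[X]) {x : M} (hx : x ∈ S) :
    aeval H p x ∈ S := by
  have hpow : ∀ k : ℕ, (H ^ k) x ∈ S := by
    intro k
    induction k with
    | zero => simpa using hx
    | succ k ih =>
      rw [pow_succ', Module.End.mul_apply]
      exact hS _ ih
  induction p using Polynomial.induction_on' with
  | add p q hp hq =>
    rw [map_add, LinearMap.add_apply]
    exact S.add_mem hp hq
  | monomial k a =>
    rw [aeval_monomial, Module.End.mul_apply, Module.algebraMap_end_apply]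
    exact S.smul_mem _ (hpow k)

theorem C2_aeval_eig {μ : ℚ} {w : M} (hw : H w = μ • w) (p : ℚ[X]) :
    aeval H p w = p.eval μ • w := by
  have hpow : ∀ k : ℕ, (H ^ k) w = μ ^ k • w := by
    intro k
    induction k with
    | zero => simp
    | succ k ih =>
      rw [pow_succ', Module.End.mul_apply, ih, map_smul, hw, smul_smul, pow_succ]
  induction p using Polynomial.induction_on' with
  | add p q hp hq => rw [map_add, LinearMap.add_apply, hp, hq, eval_add, add_smul]
  | monomial k a =>
    rw [aeval_monomial, Module.End.mul_apply, Module.algebraMap_end_apply, hpow, smul_smul,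
      eval_monomial]

theorem C2_HE (h1 : H * E - E * H = (2 : ℚ) • E) (x : M) : H (E x) = E (H x) + (2 : ℚ) • E x := by
  have h := congrArg (fun f => f x) h1
  simp only [LinearMap.sub_apply, Module.End.mul_apply, LinearMap.smul_apply] at h
  rw [← h]
  abel

theorem C2_EF (h2 : E * F - F * E = H) (x : M) : E (F x) = F (E x) + H x := by
  have h := congrArg (fun f => f x) h2
  simp only [LinearMap.sub_apply, Module.End.mul_apply] at h
  rw [← h]
  abel

theorem C2_E_pow_F (h1 : H * E - E * H = (2 : ℚ) • E) (h2 : E * F - F * E = H) (i : ℕ) (x : M) :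
    (E ^ (i + 1)) (F x) = F ((E ^ (i + 1)) x) +
      ((i : ℚ) + 1) • (H ((E ^ i) x) - (i : ℚ) • (E ^ i) x) := by
  induction i generalizing x with
  | zero => simp [C2_EF h2]
  | succ i ih =>
    have e1 : (E ^ (i + 1 + 1)) (F x) = E ((E ^ (i + 1)) (F x)) := by
      rw [pow_succ' E (i + 1), Module.End.mul_apply]
    have e2 : (E ^ (i + 1)) x = E ((E ^ i) x) := by rw [pow_succ', Module.End.mul_apply]
    have e3 : (E ^ (i + 1 + 1)) x = E (E ((E ^ i) x)) := by
      rw [pow_succ' E (i + 1), Module.End.mul_apply, e2]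
    rw [e1, ih, map_add, C2_EF h2, map_smul, map_sub, map_smul, e2, e3, C2_HE h1]
    push_cast
    module

/-- `(H - j) ⋯ (H - j - i + 1)` maps `ker E ∩ im E^j` to `im E^(j + i)` -/
theorem C2_prod_range (h1 : H * E - E * H = (2 : ℚ) • E) (h2 : E * F - F * E = H) {j : ℕ} {z x : M}
    (hz : E z = 0) (hx : z = (E ^ j) x) (i : ℕ) :
    ∃ x', aeval H (∏ l ∈ Finset.range i, (X - C (((j + l : ℕ) : ℚ)))) z = (E ^ (j + i)) x' ∧
      E (aeval H (∏ l ∈ Finset.range i, (X - C (((j + l : ℕ) : ℚ)))) z) = 0 := by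
  have hker : ∀ p : ℚ[X], E (aeval H p z) = 0 := by
    intro p
    have hS : ∀ y ∈ LinearMap.ker E, H y ∈ LinearMap.ker E := by
      intro y hy
      rw [LinearMap.mem_ker] at hy ⊢
      have := C2_HE h1 y
      rw [hy, map_zero, smul_zero, add_zero] at this
      exact this.symm
    exact LinearMap.mem_ker.1 (C2_aeval_mem hS p (LinearMap.mem_ker.2 hz))
  induction i with
  | zero => exact ⟨x, by simpa using hx, hker _⟩
  | succ i ih =>
    obtain ⟨x', hx', h0⟩ := ih
    refine ⟨((((j + i : ℕ) : ℚ) + 1)⁻¹) • F x', ?_, hker _⟩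
    have h3 := C2_E_pow_F h1 h2 (j + i) x'
    have h4 : (E ^ (j + i + 1)) x' = 0 := by
      rw [pow_succ', Module.End.mul_apply, ← hx', h0]
    rw [h4, map_zero, zero_add] at h3
    have hne : (((j + i : ℕ) : ℚ) + 1) ≠ 0 := by positivity
    rw [show j + (i + 1) = j + i + 1 from rfl, map_smul, h3, smul_smul, inv_mul_cancel₀ hne,
      one_smul, Finset.prod_range_succ, mul_comm, map_mul, Module.End.mul_apply, hx', map_sub,
      aeval_X, aeval_C, LinearMap.sub_apply, Module.algebraMap_end_apply]

/-- Lagrange decomposition with respect to `H` -/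
theorem C2_lagr {κ : Type*} [DecidableEq κ] {s : Finset κ} {v : κ → ℚ} (hv : Set.InjOn v s) {z : M}
    (hz : aeval H (∏ l ∈ s, (X - C (v l))) z = 0) :
    z = ∑ l ∈ s, aeval H (Lagrange.basis s v l) z ∧
      ∀ l ∈ s, H (aeval H (Lagrange.basis s v l) z) = v l • aeval H (Lagrange.basis s v l) z := by
  constructor
  · rcases s.eq_empty_or_nonempty with rfl | hs
    · simpa using hz
    · have h1 := Lagrange.sum_basis hv hs
      have h2 := congrArg (fun p => aeval H p z) h1
      simp only [map_sum, map_one, LinearMap.sum_apply, Module.End.one_apply] at h2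
      exact h2.symm
  · intro l hl
    have h1 : (X - C (v l)) * Lagrange.basis s v l =
        C (Lagrange.nodalWeight s v l) * ∏ l ∈ s, (X - C (v l)) := by
      rw [Lagrange.basis_eq_prod_sub_inv_mul_nodal_div hl, ← Lagrange.nodal_erase_eq_nodal_div hl,
        mul_left_comm, ← Lagrange.nodal_eq_mul_nodal_erase hl, Lagrange.nodal_eq]
    have h2 := congrArg (fun p => aeval H p z) h1
    simp only [map_mul, map_sub, aeval_X, aeval_C, Module.End.mul_apply, LinearMap.sub_apply,
      Module.algebraMap_end_apply] at h2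
    rw [hz, smul_zero, sub_eq_zero] at h2
    exact h2

/-- primitive vectors -/
theorem C2_prim_HF (h3 : H * F - F * H = -((2 : ℚ) • F)) {l : ℚ} {y : M} (hy : H y = l • y) (i : ℕ) :
    H ((F ^ i) y) = (l - 2 * i) • (F ^ i) y := by
  induction i with
  | zero => simpa using hy
  | succ i ih =>
    have h := congrArg (fun f => f ((F ^ i) y)) h3
    simp only [LinearMap.sub_apply, Module.End.mul_apply, LinearMap.smul_apply,
      LinearMap.neg_apply, ih, map_smul] at h
    rw [pow_succ', Module.End.mul_apply, sub_eq_iff_eq_add.1 h]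
    push_cast
    module

theorem C2_prim_EF (h2 : E * F - F * E = H) (h3 : H * F - F * H = -((2 : ℚ) • F)) {l : ℚ} {y : M}
    (hE : E y = 0) (hy : H y = l • y) (i : ℕ) :
    E ((F ^ (i + 1)) y) = (((i : ℚ) + 1) * (l - i)) • (F ^ i) y := by
  induction i with
  | zero => simp [C2_EF h2, hE, hy]
  | succ i ih =>
    rw [pow_succ', Module.End.mul_apply, C2_EF h2, ih, C2_prim_HF h3 hy, map_smul,
      show F ((F ^ i) y) = (F ^ (i + 1)) y by rw [pow_succ', Module.End.mul_apply]]
    push_cast
    module

theorem C2_prim_EkF (h2 : E * F - F * E = H) (h3 : H * F - F * H = -((2 : ℚ) • F)) {l : ℚ} {y : M}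
    (hE : E y = 0) (hy : H y = l • y) (m k : ℕ) :
    (E ^ k) ((F ^ (m + k)) y) =
      (∏ i ∈ Finset.range k, (((m + i : ℕ) : ℚ) + 1) * (l - ((m + i : ℕ) : ℚ))) • (F ^ m) y := by
  induction k with
  | zero => simp
  | succ k ih =>
    rw [pow_succ, Module.End.mul_apply, show m + (k + 1) = (m + k) + 1 from rfl,
      C2_prim_EF h2 h3 hE hy, map_smul, ih, smul_smul, Finset.prod_range_succ, mul_comm]

/-- a nilpotent `E` : everything is a sum of vectors `F^j y` with `y` primitive -/
theorem C2_span_prim (h1 : H * E - E * H = (2 : ℚ) • E) (h2 : E * F - F * E = H)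
    (h3 : H * F - F * H = -((2 : ℚ) • F)) {n : ℕ} (hn : E ^ n = 0) (v : M) :
    v ∈ Submodule.span ℚ {w : M | ∃ (l j : ℕ) (y : M), j ≤ l ∧ l < n ∧ E y = 0 ∧
      H y = (l : ℚ) • y ∧ w = (F ^ j) y} := by
  set S := Submodule.span ℚ {w : M | ∃ (l j : ℕ) (y : M), j ≤ l ∧ l < n ∧ E y = 0 ∧
      H y = (l : ℚ) • y ∧ w = (F ^ j) y} with hS
  have key : ∀ j ≤ n, ∀ v : M, (E ^ j) v = 0 → v ∈ S := by
    intro j
    induction j with
    | zero =>
      intro _ v hv
      rw [pow_zero, Module.End.one_apply] at hv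
      rw [hv]
      exact S.zero_mem
    | succ j ih =>
      intro hj v hv
      have hy0 : E ((E ^ j) v) = 0 := by rw [← hv, pow_succ', Module.End.mul_apply]
      obtain ⟨x', hx', -⟩ := C2_prod_range h1 h2 (j := j) (x := v) hy0 rfl (n - j)
      rw [show j + (n - j) = n by omega, hn, LinearMap.zero_apply] at hx'
      have hinj : Set.InjOn (fun l : ℕ => (((j + l : ℕ) : ℚ))) (Finset.range (n - j)) := by
        intro a _ b _ hab
        have h4 : j + a = j + b := Nat.cast_injective hab
        omega
      obtain ⟨hsum, heig⟩ := C2_lagr hinj hx'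
      set Y : ℕ → M := fun l => aeval H (Lagrange.basis (Finset.range (n - j))
        (fun l : ℕ => (((j + l : ℕ) : ℚ))) l) ((E ^ j) v) with hY
      have hYE : ∀ l, E (Y l) = 0 := by
        intro l
        have hS : ∀ y ∈ LinearMap.ker E, H y ∈ LinearMap.ker E := by
          intro y hy
          rw [LinearMap.mem_ker] at hy ⊢
          have := C2_HE h1 y
          rw [hy, map_zero, smul_zero, add_zero] at this
          exact this.symm
        exact LinearMap.mem_ker.1 (C2_aeval_mem hS _ (LinearMap.mem_ker.2 hy0))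
      set c : ℕ → ℚ := fun l => ∏ i ∈ Finset.range j, (((0 + i : ℕ) : ℚ) + 1) *
        (((j + l : ℕ) : ℚ) - ((0 + i : ℕ) : ℚ)) with hc
      have hc0 : ∀ l, c l ≠ 0 := by
        intro l
        rw [hc]
        refine Finset.prod_ne_zero_iff.2 fun i hi => ?_
        rw [Finset.mem_range] at hi
        refine mul_ne_zero (by positivity) ?_
        rw [sub_ne_zero]
        intro h4
        have h5 : j + l = 0 + i := Nat.cast_injective h4
        omega
      have hFj : ∀ l ∈ Finset.range (n - j), (F ^ j) (Y l) ∈ S := by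
        intro l hl
        rw [Finset.mem_range] at hl
        exact Submodule.subset_span ⟨j + l, j, Y l, by omega, by omega, hYE l,
          heig l (Finset.mem_range.2 hl), rfl⟩
      have hv' : v - ∑ l ∈ Finset.range (n - j), (c l)⁻¹ • (F ^ j) (Y l) ∈ S := by
        apply ih (by omega)
        rw [map_sub, map_sum, sub_eq_zero]
        refine hsum.trans (Finset.sum_congr rfl fun l hl => ?_)
        have h4 := C2_prim_EkF h2 h3 (hYE l) (heig l hl) 0 j
        rw [zero_add, pow_zero, Module.End.one_apply] at h4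
        rw [map_smul, h4, smul_smul, inv_mul_cancel₀ (hc0 l), one_smul]
      have h6 := S.add_mem hv' (S.sum_mem fun l hl => S.smul_mem (c l)⁻¹ (hFj l hl))
      rwa [sub_add_cancel] at h6
  exact key n le_rfl v (by rw [hn, LinearMap.zero_apply])

/-- `H` is semisimple with integral eigenvalues -/
theorem C2_H_prod (h1 : H * E - E * H = (2 : ℚ) • E) (h2 : E * F - F * E = H)
    (h3 : H * F - F * H = -((2 : ℚ) • F)) {n : ℕ} (hn : E ^ (n + 1) = 0) (v : M) :
    aeval H (∏ i ∈ Finset.Icc (-(n : ℤ)) n, (X - C ((i : ℤ) : ℚ))) v = 0 := by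
  have h4 := C2_span_prim h1 h2 h3 hn v
  induction h4 using Submodule.span_induction with
  | mem w hw =>
    obtain ⟨l, j, y, hjl, hl, hEy, hHy, rfl⟩ := hw
    have h5 := C2_prim_HF h3 hHy j
    rw [C2_aeval_eig h5, eval_prod, Finset.prod_eq_zero (i := ((l : ℤ) - 2 * j)), zero_smul]
    · rw [Finset.mem_Icc]
      omega
    · rw [eval_sub, eval_X, eval_C]
      push_cast
      ring
  | zero => rw [map_zero]
  | add x y _ _ hx hy => rw [map_add, hx, hy, add_zero]
  | smul a x _ hx => rw [map_smul, hx, smul_zero]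

end C2mod

theorem C2_semisimple {A : Type*} [Ring A] [Algebra ℚ A] {e f h : A} {n : ℕ} (hn : 0 < n)
    (hef : e * f - f * e = h) (hhe : h * e - e * h = 2 * e) (hhf : h * f - f * h = -(2 * f))
    (he : e ^ n = 0) :
    aeval h (∏ i ∈ Finset.Icc (-((n : ℤ) - 1)) ((n : ℤ) - 1), (X - C (i : ℚ))) = 0 := by
  obtain ⟨m, rfl⟩ : ∃ m, n = m + 1 := ⟨n - 1, by omega⟩
  have h1 : LinearMap.mulLeft ℚ h * LinearMap.mulLeft ℚ e -
      LinearMap.mulLeft ℚ e * LinearMap.mulLeft ℚ h = (2 : ℚ) • LinearMap.mulLeft ℚ e := by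
    ext w
    have h1 := congrArg (fun z => z * w) hhe
    simp only [sub_mul] at h1
    simp only [LinearMap.sub_apply, Module.End.mul_apply, LinearMap.mulLeft_apply,
      LinearMap.smul_apply]
    rw [← mul_assoc, ← mul_assoc, h1, two_smul, two_mul, add_mul]
  have h2 : LinearMap.mulLeft ℚ e * LinearMap.mulLeft ℚ f -
      LinearMap.mulLeft ℚ f * LinearMap.mulLeft ℚ e = LinearMap.mulLeft ℚ h := by
    ext w
    simp only [LinearMap.sub_apply, Module.End.mul_apply, LinearMap.mulLeft_apply]
    rw [← mul_assoc, ← mul_assoc, ← sub_mul, hef]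
  have h3 : LinearMap.mulLeft ℚ h * LinearMap.mulLeft ℚ f -
      LinearMap.mulLeft ℚ f * LinearMap.mulLeft ℚ h = -((2 : ℚ) • LinearMap.mulLeft ℚ f) := by
    ext w
    simp only [LinearMap.sub_apply, Module.End.mul_apply, LinearMap.mulLeft_apply,
      LinearMap.smul_apply, LinearMap.neg_apply]
    rw [← mul_assoc, ← mul_assoc, ← sub_mul, hhf, two_smul, two_mul, neg_mul, add_mul]
  have h4 : (LinearMap.mulLeft ℚ e) ^ (m + 1) = 0 := by
    rw [LinearMap.pow_mulLeft, he]
    ext w
    simp
  have h5 := C2_H_prod h1 h2 h3 h4 (1 : A)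
  have h6 : ∀ p : ℚ[X], ∀ y : A, aeval (LinearMap.mulLeft ℚ h) p y = aeval h p * y := by
    intro p
    induction p using Polynomial.induction_on' with
    | add p q hp hq =>
      intro y
      rw [map_add, LinearMap.add_apply, map_add, add_mul, hp, hq]
    | monomial k a =>
      intro y
      rw [aeval_monomial, aeval_monomial, Module.End.mul_apply, Module.algebraMap_end_apply,
        LinearMap.pow_mulLeft, LinearMap.mulLeft_apply, Algebra.smul_def, mul_assoc]
  rw [h6, mul_one] at h5
  have h7 : (((m + 1 : ℕ) : ℤ) - 1) = m := by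
    push_cast
    ring
  rw [h7]
  exact h5

end SDCK
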