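import Pool.Agent.LibLC88.C1
import Pool.Agent.LibLC88.C2
import Pool.Agent.LibLC88.B3
import Pool.Agent.LibLC88.A3

/-!
# ROW C3: the exact case

Plan. In `T.C` (with its unit, `h * Δ x = h`): `h = e * f - f * e`, `star h = - h`, `h * e - e * h = 2 * e` by
`hlin`, `e ^ (d + 1) = 0` by `T.CH_top`. `C1_morozov` with `S = T.Cor x x (-1)` gives `f₂`; `C1_unique` for `f₂` and
`star f₂` gives `star f₂ = f₂`. `C2_semisimple` with `n = d + 1`: `∏_{i = -d}^{d} (h - i) = 0`. `E` from
`A3_interpolation d 1`; `q i = aeval h (E i) ∈ T.C` for `-d ≤ i ≤ d`; `P k = q (k - d) * Δ x`. They are orthogonal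
idempotents; `∑ i, E i ≡ 1` modulo `∏ (X - C i)` (degrees: both take the value `1` at all nodes; use
`∏ (X - C i) ∣ S` if `S` vanishes at all the nodes: `Finset.prod_dvd_of_coprime`), `h * q i = i • q i`
(`X * E i ≡ i E i`), so `h = h * Δ x = ∑ (k - d) • P k`. `star (P k) = P k.rev`: `(E i).comp (-X) ≡ E (-i)` by values
at nodes. `R (P k) = π k`: `R h = ∑ (k - d) • π k` by `B3_exists_cohom` with `N = ∅` (`CorN ∅ = 0`:
`Fac` is the span of the empty set; `j = 0`), as in row B5. `P l * e * P k = 0` for `l ≠ k + 2`: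
`(l - d) P l e P k = P l h e P k = P l e (h + 2) P k = (k - d + 2) P l e P k`; same for `f₂`.
`P k ∈ T.CH x x (dim x)`: `aeval h S * Δ x` is in `T.CH x x (T.dim x)` for all `S` (induction on `S`), or use
`val (aeval (mk' h _) S) = aeval h S * Δ x`.
-/

set_option autoImplicit false

namespace SDCK

universe u v

open Polynomial

section C3mod

variable {M : Type*} [AddCommGroup M] [Module ℚ M] {H : Module.End ℚ M}

theorem C3_aeval_mem {S : Submodule ℚ M} (hS : ∀ x ∈ S, H x ∈ S) (p : ℚ[X]) {x : M} (hx : x ∈ S) :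
    aeval H p x ∈ S := by
  have hpow : ∀ k : ℕ, (H ^ k) x ∈ S := by
    intro k
    induction k with
    | zero => simpa using hx
    | succ k ih =>
      rw [pow_succ', Module.End.mul_apply]
      exact hS _ ih
  induction p using Polynomial.induction_on' with
  | add p q hp hq =>
    rw [map_add, LinearMap.add_apply]
    exact S.add_mem hp hq
  | monomial k a =>
    rw [aeval_monomial, Module.End.mul_apply, Module.algebraMap_end_apply]
    exact S.smul_mem _ (hpow k)

theorem C3_aeval_eig {μ : ℚ} {w : M} (hw : H w = μ • w) (p : ℚ[X]) :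
    aeval H p w = p.eval μ • w := by
  have hpow : ∀ k : ℕ, (H ^ k) w = μ ^ k • w := by
    intro k
    induction k with
    | zero => simp
    | succ k ih =>
      rw [pow_succ', Module.End.mul_apply, ih, map_smul, hw, smul_smul, pow_succ]
  induction p using Polynomial.induction_on' with
  | add p q hp hq => rw [map_add, LinearMap.add_apply, hp, hq, eval_add, add_smul]
  | monomial k a =>
    rw [aeval_monomial, Module.End.mul_apply, Module.algebraMap_end_apply, hpow, smul_smul,
      eval_monomial]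

/-- Lagrange decomposition with respect to `H` -/
theorem C3_lagr {κ : Type*} [DecidableEq κ] {s : Finset κ} {v : κ → ℚ} (hv : Set.InjOn v s) {z : M}
    (hz : aeval H (∏ l ∈ s, (X - C (v l))) z = 0) :
    z = ∑ l ∈ s, aeval H (Lagrange.basis s v l) z ∧
      ∀ l ∈ s, H (aeval H (Lagrange.basis s v l) z) = v l • aeval H (Lagrange.basis s v l) z := by
  constructor
  · rcases s.eq_empty_or_nonempty with rfl | hs
    · simpa using hz
    · have h1 := Lagrange.sum_basis hv hs
      have h2 := congrArg (fun p => aeval H p z) h1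
      simp only [map_sum, map_one, LinearMap.sum_apply, Module.End.one_apply] at h2
      exact h2.symm
  · intro l hl
    have h1 : (X - C (v l)) * Lagrange.basis s v l =
        C (Lagrange.nodalWeight s v l) * ∏ l ∈ s, (X - C (v l)) := by
      rw [Lagrange.basis_eq_prod_sub_inv_mul_nodal_div hl, ← Lagrange.nodal_erase_eq_nodal_div hl,
        mul_left_comm, ← Lagrange.nodal_eq_mul_nodal_erase hl, Lagrange.nodal_eq]
    have h2 := congrArg (fun p => aeval H p z) h1
    simp only [map_mul, map_sub, aeval_X, aeval_C, Module.End.mul_apply, LinearMap.sub_apply,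
      Module.algebraMap_end_apply] at h2
    rw [hz, smul_zero, sub_eq_zero] at h2
    exact h2

end C3mod

namespace Cycles

variable {T : Cycles.{u, v}}

/-- an antisymmetric `sl2`-triple with nilpotent `e` -/
structure C3_Trip (T : Cycles.{u, v}) (x : T.ι) (e h f : T.C) : Prop where
  em : e ∈ T.Cor x x 1
  hm : h ∈ T.Cor x x 0
  fm : f ∈ T.Cor x x (-1)
  es : star e = e
  hs : star h = -h
  he : h * e - e * h = 2 * e
  ef : e * f - f * e = h
  hf : h * f - f * h = -(2 * f)

/-- left multiplication -/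
abbrev C3_L (y : T.C) : Module.End ℚ T.C := LinearMap.mulLeft ℚ y

theorem C3_L_pow (y : T.C) (k : ℕ) : (C3_L y) ^ k = C3_L (y ^ k) := LinearMap.pow_mulLeft ℚ T.C y k

theorem C3_star_int (i : ℤ) (z : T.C) : star ((i : ℚ) • z) = (i : ℚ) • star z := by
  rw [Int.cast_smul_eq_zsmul, Int.cast_smul_eq_zsmul]
  exact map_zsmul (starAddEquiv (R := T.C)) i z

theorem C3_aeval_L (y : T.C) (p : ℚ[X]) (z : T.C) : aeval (C3_L y) p z = aeval y p * z := by
  induction p using Polynomial.induction_on' with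
  | add p q hp hq => rw [map_add, LinearMap.add_apply, map_add, add_mul, hp, hq]
  | monomial k a =>
    rw [aeval_monomial, aeval_monomial, Module.End.mul_apply, Module.algebraMap_end_apply,
      C3_L_pow, LinearMap.mulLeft_apply, Algebra.smul_def, mul_assoc]

/-- the Lagrange polynomials of the nodes `-d, …, d` -/
noncomputable def C3_lp (T : Cycles.{u, v}) (x : T.ι) (i : ℤ) : ℚ[X] :=
  if i ∈ Finset.Icc (-(T.dim x : ℤ)) (T.dim x) then
    Lagrange.basis (Finset.Icc (-(T.dim x : ℤ)) (T.dim x)) (fun j : ℤ => (j : ℚ)) i else 0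

theorem C3_lp_eval {x : T.ι} {i j : ℤ} (hj : j ∈ Finset.Icc (-(T.dim x : ℤ)) (T.dim x)) :
    (C3_lp T x i).eval (j : ℚ) = if i = j then 1 else 0 := by
  by_cases hi : i ∈ Finset.Icc (-(T.dim x : ℤ)) (T.dim x)
  · rw [C3_lp, if_pos hi]
    have hnodes : Set.InjOn (fun i : ℤ => (i : ℚ)) (Finset.Icc (-(T.dim x : ℤ)) (T.dim x)) :=
      fun a _ b _ hab => Int.cast_injective hab
    by_cases hij : i = j
    · subst hij
      rw [if_pos rfl]
      exact Lagrange.eval_basis_self hnodes hi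
    · rw [if_neg hij]
      exact Lagrange.eval_basis_of_ne hij hj
  · rw [C3_lp, if_neg hi, eval_zero, if_neg]
    rintro rfl
    exact hi hj

/-- the spectral projectors -/
noncomputable def C3_q (T : Cycles.{u, v}) (x : T.ι) (h : T.C) (i : ℤ) : T.C :=
  aeval (C3_L h) (C3_lp T x i) (T.Δ x)

theorem C3_q_out {x : T.ι} {h : T.C} {i : ℤ}
    (hi : i ∉ Finset.Icc (-(T.dim x : ℤ)) (T.dim x)) : C3_q T x h i = 0 := by
  rw [C3_q, C3_lp, if_neg hi, map_zero, LinearMap.zero_apply]

/-- `q i * v = L_i(μ) v` for an eigenvector `v` -/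
theorem C3_q_eig {x : T.ι} {h : T.C} {μ : ℚ} {v : T.C} (hv : h * v = μ • v)
    (hΔ : T.Δ x * v = v) (i : ℤ) : C3_q T x h i * v = (C3_lp T x i).eval μ • v := by
  rw [C3_q, C3_aeval_L, mul_assoc, hΔ, ← C3_aeval_L]
  exact C3_aeval_eig hv _

theorem C3_star_Δ (x : T.ι) : star (T.Δ x) = T.Δ x := by
  have h1 : star (T.Δ x) ∈ T.CH x x (T.dim x) := T.star_mem (T.Δ_mem x)
  have h2 : T.Δ x * star (T.Δ x) = star (T.Δ x) := T.Δ_mul h1
  have h3 := congrArg star h2
  rw [star_mul, star_star, h2] at h3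
  exact h3

section trip

variable {x : T.ι} {e h f : T.C} (t : C3_Trip T x e h f)

include t

theorem C3_en : e ^ (T.dim x + 1) = 0 := by
  have key : ∀ k : ℕ, e ^ (k + 1) ∈ T.Cor x x (k + 1) := by
    intro k
    induction k with
    | zero => simpa using t.em
    | succ k ih =>
      rw [pow_succ]
      exact cor_mul ih t.em (by push_cast; ring)
  exact T.CH_top (i := x) (j := x) (c := T.dim x + ((T.dim x : ℕ) + 1)) (by omega) (key (T.dim x))

theorem C3_q_mem (i : ℤ) : C3_q T x h i ∈ T.Cor x x 0 :=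
  C3_aeval_mem (S := T.Cor x x 0) (fun _ hy => cor_mul t.hm hy (add_zero 0)) _ (Δ_cor x)

theorem C3_q_lag : T.Δ x = ∑ i ∈ Finset.Icc (-(T.dim x : ℤ)) (T.dim x), C3_q T x h i ∧
    ∀ i ∈ Finset.Icc (-(T.dim x : ℤ)) (T.dim x), h * C3_q T x h i = (i : ℚ) • C3_q T x h i := by
  have hnodes : Set.InjOn (fun i : ℤ => (i : ℚ)) (Finset.Icc (-(T.dim x : ℤ)) (T.dim x)) :=
    fun a _ b _ hab => Int.cast_injective hab
  have h1 := C2_semisimple (n := T.dim x + 1) (by omega) t.ef t.he t.hf (C3_en t)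
  rw [show (((T.dim x + 1 : ℕ) : ℤ) - 1) = T.dim x by push_cast; ring] at h1
  have h2 : aeval (C3_L h) (∏ l ∈ Finset.Icc (-(T.dim x : ℤ)) (T.dim x),
      (X - Polynomial.C ((l : ℤ) : ℚ))) (T.Δ x) = 0 := by
    rw [C3_aeval_L, h1, zero_mul]
  obtain ⟨h2, h3⟩ := C3_lagr hnodes h2
  have h4 : ∀ i ∈ Finset.Icc (-(T.dim x : ℤ)) (T.dim x), C3_q T x h i =
      aeval (C3_L h) (Lagrange.basis (Finset.Icc (-(T.dim x : ℤ)) (T.dim x))
        (fun j : ℤ => (j : ℚ)) i) (T.Δ x) := by
    intro i hi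
    rw [C3_q, C3_lp, if_pos hi]
  constructor
  · rw [Finset.sum_congr rfl h4]
    exact h2
  · intro i hi
    rw [h4 i hi]
    exact h3 i hi

theorem C3_hq (i : ℤ) : h * C3_q T x h i = (i : ℚ) • C3_q T x h i := by
  by_cases hi : i ∈ Finset.Icc (-(T.dim x : ℤ)) (T.dim x)
  · exact (C3_q_lag t).2 i hi
  · rw [C3_q_out hi, mul_zero, smul_zero]

theorem C3_q_sum : ∑ i ∈ Finset.Icc (-(T.dim x : ℤ)) (T.dim x), C3_q T x h i = T.Δ x :=
  (C3_q_lag t).1.symm

theorem C3_qh (i : ℤ) : C3_q T x h i * h = (i : ℚ) • C3_q T x h i := by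
  have h1 : C3_q T x h i * h = h * C3_q T x h i := by
    have h2 : C3_q T x h i ∈ (LinearMap.ker (LinearMap.mulRight ℚ h - LinearMap.mulLeft ℚ h) :
        Submodule ℚ T.C) := by
      refine C3_aeval_mem (fun _ hy => ?_) _ ?_
      · rw [LinearMap.mem_ker, LinearMap.sub_apply, LinearMap.mulRight_apply,
          LinearMap.mulLeft_apply, sub_eq_zero] at hy ⊢
        rw [LinearMap.mulLeft_apply, mul_assoc, hy]
      · rw [LinearMap.mem_ker, LinearMap.sub_apply, LinearMap.mulRight_apply,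
          LinearMap.mulLeft_apply, sub_eq_zero, Δ_cor_mul t.hm, cor_mul_Δ t.hm]
    rw [LinearMap.mem_ker, LinearMap.sub_apply, LinearMap.mulRight_apply,
      LinearMap.mulLeft_apply, sub_eq_zero] at h2
    exact h2
  rw [h1, C3_hq t]

theorem C3_Δq (i : ℤ) : T.Δ x * C3_q T x h i = C3_q T x h i := Δ_cor_mul (C3_q_mem t i)

theorem C3_qΔ (i : ℤ) : C3_q T x h i * T.Δ x = C3_q T x h i := cor_mul_Δ (C3_q_mem t i)

theorem C3_qq (i j : ℤ) : C3_q T x h i * C3_q T x h j = if i = j then C3_q T x h j else 0 := by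
  by_cases hj : j ∈ Finset.Icc (-(T.dim x : ℤ)) (T.dim x)
  · rw [C3_q_eig (C3_hq t j) (C3_Δq t j), C3_lp_eval hj]
    split_ifs <;> simp
  · rw [C3_q_out hj, mul_zero]
    split_ifs <;> rfl

theorem C3_star_q (i : ℤ) : star (C3_q T x h i) = C3_q T x h (-i) := by
  have key : ∀ i : ℤ, star (C3_q T x h i) = C3_q T x h (-i) * star (C3_q T x h i) := by
    intro i
    by_cases hi : i ∈ Finset.Icc (-(T.dim x : ℤ)) (T.dim x)
    · have h1 : h * star (C3_q T x h i) = ((-i : ℤ) : ℚ) • star (C3_q T x h i) := by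
        have h2 := congrArg star (C3_qh t i)
        rw [star_mul, t.hs] at h2
        rw [C3_star_int, neg_mul, neg_eq_iff_eq_neg] at h2
        rw [h2]
        push_cast
        rw [neg_smul]
      have h4 : T.Δ x * star (C3_q T x h i) = star (C3_q T x h i) := by
        rw [← C3_star_Δ, ← star_mul, C3_qΔ t]
      rw [C3_q_eig h1 h4, C3_lp_eval (by rw [Finset.mem_Icc] at hi ⊢; omega), if_pos rfl, one_smul]
    · rw [C3_q_out hi, star_zero, mul_zero]
  have h1 := key i
  have h2 := congrArg star (key (-i))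
  rw [star_star, star_mul, star_star, neg_neg] at h2
  rw [h1, ← h2]

theorem C3_qeq {i j : ℤ} (hij : j ≠ i + 2) : C3_q T x h j * e * C3_q T x h i = 0 := by
  have h1 : (j : ℚ) • (C3_q T x h j * e * C3_q T x h i) =
      ((i : ℚ) + 2) • (C3_q T x h j * e * C3_q T x h i) := by
    have h3 : h * e = e * h + (2 : ℚ) • e := by
      rw [two_smul, ← two_mul, ← t.he]
      abel
    have h2 : C3_q T x h j * (h * e) * C3_q T x h i =
        C3_q T x h j * (e * h + (2 : ℚ) • e) * C3_q T x h i := by rw [h3]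
    rw [← mul_assoc, C3_qh t, mul_add, add_mul, smul_mul_assoc, smul_mul_assoc, mul_smul_comm,
      smul_mul_assoc, ← mul_assoc, mul_assoc _ h, C3_hq t, mul_smul_comm] at h2
    rw [h2, ← add_smul]
  rw [← sub_eq_zero, ← sub_smul] at h1
  refine (smul_eq_zero.1 h1).resolve_left ?_
  intro h3
  apply hij
  have h4 : (j : ℚ) = ((i + 2 : ℤ) : ℚ) := by
    push_cast
    linarith
  exact_mod_cast h4

theorem C3_qfq {i j : ℤ} (hij : j + 2 ≠ i) : C3_q T x h j * f * C3_q T x h i = 0 := by
  have h1 : (j : ℚ) • (C3_q T x h j * f * C3_q T x h i) =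
      ((i : ℚ) - 2) • (C3_q T x h j * f * C3_q T x h i) := by
    have h3 : h * f = f * h - (2 : ℚ) • f := by
      rw [two_smul, ← two_mul, sub_eq_add_neg, ← t.hf]
      abel
    have h2 : C3_q T x h j * (h * f) * C3_q T x h i =
        C3_q T x h j * (f * h - (2 : ℚ) • f) * C3_q T x h i := by rw [h3]
    rw [← mul_assoc, C3_qh t, mul_sub, sub_mul, smul_mul_assoc, smul_mul_assoc, mul_smul_comm,
      smul_mul_assoc, ← mul_assoc, mul_assoc _ h, C3_hq t, mul_smul_comm] at h2
    rw [h2, ← sub_smul]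
  rw [← sub_eq_zero, ← sub_smul] at h1
  refine (smul_eq_zero.1 h1).resolve_left ?_
  intro h3
  apply hij
  have h4 : ((j + 2 : ℤ) : ℚ) = (i : ℚ) := by
    push_cast
    linarith
  exact_mod_cast h4

end trip

/-- reindexing -/
theorem C3_sum {A : Type*} [AddCommMonoid A] (d : ℕ) (F : ℤ → A) :
    ∑ k : Fin (2 * d + 1), F ((k : ℕ) - d) = ∑ i ∈ Finset.Icc (-(d : ℤ)) d, F i := by
  refine Finset.sum_bij (fun k _ => ((k : ℕ) : ℤ) - d) ?_ ?_ ?_ ?_
  · intro k _
    have := k.2
    rw [Finset.mem_Icc]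
    omega
  · intro k _ l _ hkl
    apply Fin.ext
    omega
  · intro i hi
    rw [Finset.mem_Icc] at hi
    refine ⟨⟨(i + d).toNat, by omega⟩, Finset.mem_univ _, ?_⟩
    simp only
    omega
  · intro k _
    rfl

theorem C3_rat_comm {B : Type*} [Ring B] (φ : ℚ →+* B) (c : ℚ) (y : B) : φ c * y = y * φ c := by
  have h1 : φ ((c.den : ℚ)⁻¹) * (c.den : B) = 1 := by
    rw [← map_natCast φ, ← map_mul, inv_mul_cancel₀ (by exact_mod_cast c.den_nz), map_one]
  have h2 : (c.den : B) * φ c = (c.num : B) := by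
    rw [← map_natCast φ, ← map_mul, Rat.den_mul_eq_num, map_intCast]
  have h3 : φ c = φ ((c.den : ℚ)⁻¹) * (c.num : B) := by
    rw [← h2, ← mul_assoc, h1, one_mul]
  have h4 : φ ((c.den : ℚ)⁻¹) * y = y * φ ((c.den : ℚ)⁻¹) := by
    have h5 : (c.den : B) * φ ((c.den : ℚ)⁻¹) = 1 := by
      rw [← map_natCast φ, ← map_mul, mul_inv_cancel₀ (by exact_mod_cast c.den_nz), map_one]
    calc φ ((c.den : ℚ)⁻¹) * y = φ ((c.den : ℚ)⁻¹) * y * ((c.den : B) * φ ((c.den : ℚ)⁻¹)) := by
          rw [h5, mul_one]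
      _ = φ ((c.den : ℚ)⁻¹) * (y * (c.den : B)) * φ ((c.den : ℚ)⁻¹) := by
          simp only [mul_assoc]
      _ = φ ((c.den : ℚ)⁻¹) * ((c.den : B) * y) * φ ((c.den : ℚ)⁻¹) := by
          rw [Nat.cast_comm]
      _ = y * φ ((c.den : ℚ)⁻¹) := by rw [← mul_assoc, h1, one_mul]
  rw [h3, mul_assoc, Int.cast_comm, ← mul_assoc, h4, mul_assoc, ← Int.cast_comm, ← mul_assoc,
    mul_assoc y]

/-- the rational structure on the endomorphisms of the cohomology -/
@[reducible] noncomputable def C3_algH (T : Cycles.{u, v}) : Algebra ℚ T.H :=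
  RingHom.toAlgebra' (T.R.comp (algebraMap ℚ T.C)) (fun c y => C3_rat_comm _ c y)

attribute [local instance] C3_algH

theorem C3_R_smul (c : ℚ) (a : T.C) : T.R (c • a) = c • T.R a := by
  rw [Algebra.smul_def, Algebra.smul_def, map_mul]
  rfl

theorem C3_ππ {x : T.ι} (k l : Fin (2 * T.dim x + 1)) :
    T.π x k * T.π x l = if k = l then T.π x l else 0 := by
  by_cases h : k = l
  · subst h
    rw [if_pos rfl]
    exact (T.π_ortho x).idem k
  · rw [if_neg h]
    exact (T.π_ortho x).ortho h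

theorem C3_aeval_R (h : T.C) (p : ℚ[X]) : T.R (aeval h p) = aeval (T.R h) p := by
  induction p using Polynomial.induction_on' with
  | add p q hp hq => rw [map_add, map_add, map_add, hp, hq]
  | monomial k a => rw [aeval_monomial, aeval_monomial, ← Algebra.smul_def, ← Algebra.smul_def,
      C3_R_smul, map_pow]

theorem C3_aeval_eigH {h v : T.H} {μ : ℚ} (hv : h * v = μ • v) (p : ℚ[X]) :
    aeval h p * v = p.eval μ • v := by
  have hpow : ∀ k : ℕ, h ^ k * v = μ ^ k • v := by
    intro k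
    induction k with
    | zero => simp
    | succ k ih => rw [pow_succ', mul_assoc, ih, mul_smul_comm, hv, smul_smul, pow_succ]
  induction p using Polynomial.induction_on' with
  | add p q hp hq => rw [map_add, add_mul, hp, hq, eval_add, add_smul]
  | monomial k a =>
    rw [aeval_monomial, ← Algebra.smul_def, smul_mul_assoc, hpow, smul_smul, eval_monomial]

/-- the classes of the spectral projectors -/
theorem C3_R_q {x : T.ι} {e h f : T.C} (t : C3_Trip T x e h f)
    (hR : T.R h = ∑ k : Fin (2 * T.dim x + 1), (((k : ℕ) : ℤ) - T.dim x) • T.π x k)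
    (k : Fin (2 * T.dim x + 1)) : T.R (C3_q T x h ((k : ℕ) - T.dim x)) = T.π x k := by
  have h3 : ∀ l, T.R (C3_q T x h ((k : ℕ) - T.dim x)) * T.π x l =
      if l = k then T.π x l else 0 := by
    intro l
    have h4 : T.R (T.Δ x) * T.π x l = T.π x l := by
      rw [← T.π_sum, Finset.sum_mul, Finset.sum_eq_single l]
      · rw [C3_ππ, if_pos rfl]
      · intro l' _ hl'
        rw [C3_ππ, if_neg hl']
      · intro h
        exact absurd (Finset.mem_univ l) h
    have h5 : T.R h * T.π x l = (((l : ℕ) - T.dim x : ℤ) : ℚ) • T.π x l := by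
      rw [hR, Finset.sum_mul, Finset.sum_eq_single l]
      · rw [smul_mul_assoc, C3_ππ, if_pos rfl, Int.cast_smul_eq_zsmul]
      · intro l' _ hl'
        rw [smul_mul_assoc, C3_ππ, if_neg hl', smul_zero]
      · intro h
        exact absurd (Finset.mem_univ l) h
    rw [C3_q, C3_aeval_L, map_mul, mul_assoc, h4, C3_aeval_R, C3_aeval_eigH h5, C3_lp_eval (by
      have := l.2
      rw [Finset.mem_Icc]
      omega)]
    by_cases hlk : l = k
    · subst hlk
      rw [if_pos rfl, if_pos rfl, one_smul]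
    · rw [if_neg hlk, if_neg, zero_smul]
      intro h6
      apply hlk
      apply Fin.ext
      omega
  have h6 : T.R (C3_q T x h ((k : ℕ) - T.dim x)) =
      ∑ l, T.R (C3_q T x h ((k : ℕ) - T.dim x)) * T.π x l := by
    rw [← Finset.mul_sum, T.π_sum, ← map_mul, C3_qΔ t]
  rw [h6, Finset.sum_eq_single k]
  · rw [h3, if_pos rfl]
  · intro l _ hl
    rw [h3, if_neg hl]
  · intro h
    exact absurd (Finset.mem_univ k) h

theorem C3_corN_empty (x y : T.ι) (r : ℤ) : T.CorN ∅ x y r = ⊥ := by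
  rw [CorN, Fac, Submodule.span_eq_bot]
  rintro z ⟨o, ho, -⟩
  exact absurd ho (Set.notMem_empty o)

theorem C3_exact (hN : T.Kim ∅) {x : T.ι} {e f : T.C} (he : e ∈ T.Cor x x 1) (hs : star e = e)
    (hf : f ∈ T.Cor x x (-1)) (hfs : star f = f) {Λ : T.H} (hΛ : T.IsHard ∅ x e Λ)
    (hlin : e * e * f - 2 * (e * f * e) + f * e * e + 2 * e = 0) :
    ∃ (P : Fin (2 * T.dim x + 1) → T.C) (g : T.C), T.IsSelfDualCK x P ∧ g ∈ T.Cor x x (-1) ∧
      star g = g ∧
      e * g - g * e = ∑ k : Fin (2 * T.dim x + 1), (((k : ℕ) : ℚ) - T.dim x) • P k ∧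
      (∀ k l : Fin (2 * T.dim x + 1), (l : ℕ) ≠ k + 2 → P l * e * P k = 0) ∧
      ∀ k l : Fin (2 * T.dim x + 1), (l : ℕ) + 2 ≠ k → P l * g * P k = 0 := by
  set h : T.C := e * f - f * e with hh
  have hm : h ∈ T.Cor x x 0 := Submodule.sub_mem _ (cor_mul he hf (by norm_num))
    (cor_mul hf he (by norm_num))
  have hhs : star h = -h := by
    rw [hh, star_sub, star_mul, star_mul, hs, hfs, neg_sub]
  have hhe : h * e - e * h = 2 * e := by
    have h1 : h * e - e * h = 2 * e - (e * e * f - 2 * (e * f * e) + f * e * e + 2 * e) := by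
      rw [hh]
      noncomm_ring
    rw [h1, hlin, sub_zero]
  have hen : e ^ (T.dim x + 1) = 0 := by
    have key : ∀ k : ℕ, e ^ (k + 1) ∈ T.Cor x x (k + 1) := by
      intro k
      induction k with
      | zero => simpa using he
      | succ k ih =>
        rw [pow_succ]
        exact cor_mul ih he (by push_cast; ring)
    exact T.CH_top (i := x) (j := x) (c := T.dim x + ((T.dim x : ℕ) + 1)) (by omega)
      (key (T.dim x))
  obtain ⟨g, hg1, hg2, hg3⟩ := C1_morozov hh.symm hhe hen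
  have hgm : g ∈ T.Cor x x (-1) := hg3 _ hf fun z hz =>
    Submodule.sub_mem _ (cor_mul hm hz (zero_add _)) (cor_mul hz hm (add_zero _))
  have hgs : star g = g := by
    refine C1_unique hhe hen ?_ ?_ hg1 hg2
    · have h1 := congrArg star hg1
      rw [star_sub, star_mul, star_mul, hs, hhs] at h1
      rw [← neg_sub, h1, neg_neg]
    · have h1 := congrArg star hg2
      rw [star_sub, star_mul, star_mul, hhs, star_neg, star_mul, star_ofNat] at h1
      have h2 : h * star g - star g * h = star g * -h - -h * star g := by noncomm_ring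
      rw [h2, h1]
      noncomm_ring
  have t : C3_Trip T x e h g := ⟨he, hm, hgm, hs, hhs, hhe, hg1, hg2⟩
  have hR : T.R h = ∑ k : Fin (2 * T.dim x + 1), (((k : ℕ) : ℤ) - T.dim x) • T.π x k := by
    obtain ⟨j, hj, -, hj2⟩ := B3_exists_cohom hN he hs hf hfs hΛ
      (by rw [hlin]; exact Submodule.zero_mem _)
    rw [C3_corN_empty, Submodule.mem_bot] at hj
    rw [hj, add_zero] at hj2
    exact hj2
  have hcor : T.Cor x x 0 = T.CH x x (T.dim x) := by rw [Cor, add_zero]
  refine ⟨fun k => C3_q T x h ((k : ℕ) - T.dim x), g, ⟨⟨fun k => ?_, ?_, ?_, fun k => ?_⟩,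
    fun k => ?_⟩, hgm, hgs, ?_, ?_, ?_⟩
  · have h1 := C3_q_mem t ((k : ℕ) - T.dim x)
    rwa [hcor] at h1
  · refine ⟨fun k => ?_, fun k l hkl => ?_⟩
    · have h1 := C3_qq t ((k : ℕ) - T.dim x) ((k : ℕ) - T.dim x)
      rw [if_pos rfl] at h1
      exact h1
    · have h1 := C3_qq t ((k : ℕ) - T.dim x) ((l : ℕ) - T.dim x)
      rw [if_neg] at h1
      · exact h1
      · intro h2
        apply hkl
        apply Fin.ext
        omega
  · rw [C3_sum (T.dim x) (fun i => C3_q T x h i)]
    exact C3_q_sum t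
  · exact C3_R_q t hR k
  · rw [C3_star_q t]
    congr 1
    rw [Fin.val_rev]
    have := k.2
    omega
  · rw [hg1]
    have h1 : ∑ k : Fin (2 * T.dim x + 1), ((((k : ℕ) : ℚ) - T.dim x)) •
        C3_q T x h ((k : ℕ) - T.dim x) = ∑ k : Fin (2 * T.dim x + 1),
          (fun i : ℤ => (i : ℚ) • C3_q T x h i) ((k : ℕ) - T.dim x) := by
      refine Finset.sum_congr rfl fun k _ => ?_
      push_cast
      rfl
    rw [h1, C3_sum (T.dim x) (fun i : ℤ => (i : ℚ) • C3_q T x h i)]
    have h2 : h = h * T.Δ x := (cor_mul_Δ hm).symm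
    refine h2.trans ?_
    rw [← C3_q_sum t, Finset.mul_sum]
    exact Finset.sum_congr rfl fun i _ => C3_hq t i
  · intro k l hkl
    refine C3_qeq t ?_
    omega
  · intro k l hkl
    refine C3_qfq t ?_
    omega

end Cycles

end SDCK
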