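import Pool.Agent.LibLC88.C3
import Pool.Agent.LibLC32.Proj

/-!
# The exact case, with exact Lefschetz isomorphisms
-/

set_option autoImplicit false

namespace SDCK

universe u v

namespace Cycles

variable {T : Cycles.{u, v}}

private theorem C4_wt {x : T.ι} {P : Fin (2 * T.dim x + 1) → T.C} (hsum : ∑ k, P k = T.Δ x)
    {y : T.C} (hy1 : T.Δ x * y = y) (hy2 : y * T.Δ x = y) (c : ℤ)
    (hPy : ∀ k l : Fin (2 * T.dim x + 1), ((l : ℕ) : ℤ) ≠ (k : ℕ) + c → P l * y * P k = 0) :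
    (∑ k : Fin (2 * T.dim x + 1), (((k : ℕ) : ℚ) - T.dim x) • P k) * y -
      y * ∑ k : Fin (2 * T.dim x + 1), (((k : ℕ) : ℚ) - T.dim x) • P k = (c : ℚ) • y := by
  have h1 : ∀ k, y * P k = ∑ l, P l * y * P k := by
    intro k
    rw [← Finset.sum_mul, ← Finset.sum_mul, hsum, hy1]
  have h2 : ∀ l, P l * y = ∑ k, P l * y * P k := by
    intro l
    rw [← Finset.mul_sum, hsum, mul_assoc, hy2]
  rw [Finset.sum_mul, Finset.mul_sum]
  have h4 : ∀ l : Fin (2 * T.dim x + 1), ((((l : ℕ) : ℚ) - T.dim x) • P l) * y =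
      ∑ k, ((((l : ℕ) : ℚ) - T.dim x)) • (P l * y * P k) := by
    intro l
    conv_lhs => rw [smul_mul_assoc, h2 l, Finset.smul_sum]
  have h5 : ∀ k : Fin (2 * T.dim x + 1), y * ((((k : ℕ) : ℚ) - T.dim x) • P k) =
      ∑ l, ((((k : ℕ) : ℚ) - T.dim x)) • (P l * y * P k) := by
    intro k
    conv_lhs => rw [mul_smul_comm, h1 k, Finset.smul_sum]
  rw [Finset.sum_congr rfl fun l _ => h4 l, Finset.sum_congr rfl fun l _ => h5 l,
    Finset.sum_comm, ← Finset.sum_sub_distrib]
  have h6 : (c : ℚ) • y = ∑ k, ∑ l, (c : ℚ) • (P l * y * P k) := by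
    have h7 : y = ∑ k, ∑ l, P l * y * P k := by
      rw [← Finset.sum_congr rfl fun k _ => h1 k, ← Finset.mul_sum, hsum, hy2]
    conv_lhs => rw [h7]
    rw [Finset.smul_sum]
    exact Finset.sum_congr rfl fun k _ => Finset.smul_sum
  rw [h6]
  refine Finset.sum_congr rfl fun k _ => ?_
  rw [← Finset.sum_sub_distrib]
  refine Finset.sum_congr rfl fun l _ => ?_
  rw [← sub_smul]
  by_cases hkl : ((l : ℕ) : ℤ) = (k : ℕ) + c
  · have h8 : (((l : ℕ) : ℚ) - T.dim x) - (((k : ℕ) : ℚ) - T.dim x) = c := by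
      have h9 : ((((l : ℕ) : ℤ)) : ℚ) = ((((k : ℕ) : ℤ) + c : ℤ) : ℚ) := by rw [hkl]
      push_cast at h9
      rw [h9]
      ring
    rw [h8]
  · rw [hPy k l hkl, smul_zero, smul_zero]

theorem C4_exact (hN : T.Kim ∅) {x : T.ι} {e f : T.C} (he : e ∈ T.Cor x x 1) (hs : star e = e)
    (hf : f ∈ T.Cor x x (-1)) (hfs : star f = f) {Λ : T.H} (hΛ : T.IsHard ∅ x e Λ)
    (hlin : e * e * f - 2 * (e * f * e) + f * e * e + 2 * e = 0) :
    ∃ P : Fin (2 * T.dim x + 1) → T.C, T.IsSelfDualCK x P ∧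
      (∀ k l : Fin (2 * T.dim x + 1), (l : ℕ) ≠ k + 2 → P l * e * P k = 0) ∧
      ∀ k : Fin (2 * T.dim x + 1), (k : ℕ) ≤ T.dim x → ∃ M ∈ T.Cor x x ((k : ℕ) - T.dim x),
        P k * M * P k.rev * e ^ (T.dim x - k) * P k = P k ∧
          P k.rev * e ^ (T.dim x - k) * P k * M * P k.rev = P k.rev := by
  obtain ⟨P, g, hP, hg, hgs, heg, hPe, hPg⟩ := C3_exact hN he hs hf hfs hΛ hlin
  refine ⟨P, hP, hPe, ?_⟩
  have hsum : ∑ k, P k = T.Δ x := hP.1.2.2.1
  have hort : OrthogonalIdempotents P := hP.1.2.1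
  have hPm : ∀ k, P k ∈ T.CH x x (T.dim x) := hP.1.1
  obtain ⟨h, hh⟩ : ∃ h, h = e * g - g * e := ⟨_, rfl⟩
  have hhP : h = ∑ k : Fin (2 * T.dim x + 1), (((k : ℕ) : ℚ) - T.dim x) • P k := hh.trans heg
  have t : Trip T x e h g :=
    { em := he
      hm := by
        rw [hhP]
        exact Submodule.sum_mem _ fun k _ => Submodule.smul_mem _ _ (hPm k)
      fm := by
        have h1 := hg
        rw [Cor, ← sub_eq_add_neg] at h1
        exact h1
      es := hs
      hs := by
        rw [hh, star_sub, star_mul, star_mul, hs, hgs, neg_sub]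
      he := by
        have h1 := C4_wt hsum (Δ_cor_mul he) (cor_mul_Δ he) 2 (fun k l hkl => hPe k l (by omega))
        rw [← hhP] at h1
        rw [h1]
        norm_num
      ef := hh.symm
      hf := by
        have h1 := C4_wt hsum (Δ_cor_mul hg) (cor_mul_Δ hg) (-2)
          (fun k l hkl => hPg k l (by omega))
        rw [← hhP] at h1
        rw [h1]
        push_cast
        rw [neg_smul] }
  have hqP : ∀ k : Fin (2 * T.dim x + 1), Trip.q T x h (((k : ℕ) : ℤ) - T.dim x) = P k := by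
    intro k
    have h1 : ∀ l : Fin (2 * T.dim x + 1),
        Trip.q T x h (((k : ℕ) : ℤ) - T.dim x) * P l = if k = l then P l else 0 := by
      intro l
      have h2 : h * P l = ((((l : ℕ) : ℤ) - T.dim x : ℤ) : ℚ) • P l := by
        rw [hhP, Finset.sum_mul, Finset.sum_eq_single l]
        · rw [smul_mul_assoc, (hort.idem l).eq]
          push_cast
          rfl
        · intro k' _ hk'
          rw [smul_mul_assoc, hort.ortho hk', smul_zero]
        · intro h3
          exact absurd (Finset.mem_univ l) h3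
      rw [Trip.q_eig h2 (T.Δ_mul (hPm l)), Trip.lp_eval (by
        have := l.isLt
        rw [Finset.mem_Icc]
        omega)]
      by_cases hkl : k = l
      · subst hkl
        rw [if_pos rfl, if_pos rfl, one_smul]
      · rw [if_neg hkl, if_neg, zero_smul]
        intro h3
        apply hkl
        ext
        omega
    have h2 : Trip.q T x h (((k : ℕ) : ℤ) - T.dim x) =
        Trip.q T x h (((k : ℕ) : ℤ) - T.dim x) * T.Δ x := (t.qΔ _).symm
    rw [h2, ← hsum, Finset.mul_sum, Finset.sum_eq_single k]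
    · rw [h1, if_pos rfl]
    · intro l _ hl
      rw [h1, if_neg (Ne.symm hl)]
    · intro h3
      exact absurd (Finset.mem_univ k) h3
  intro k hk
  obtain ⟨M, hM, hM1, hM2⟩ := t.exists_inv (T.dim x - k)
  have e1 : Trip.q T x h (-((T.dim x - k : ℕ) : ℤ)) = P k := by
    rw [← hqP k]
    congr 1
    omega
  have e2 : Trip.q T x h ((T.dim x - k : ℕ) : ℤ) = P k.rev := by
    rw [← hqP k.rev]
    congr 1
    rw [Fin.val_rev]
    omega
  rw [e1] at hM1 hM2
  rw [e2] at hM2
  have hkk : P k * P k = P k := (hort.idem k).eq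
  have hrr : P k.rev * P k.rev = P k.rev := (hort.idem k.rev).eq
  have e3 : P k.rev * (e ^ (T.dim x - k) * P k) = e ^ (T.dim x - k) * P k := by
    have h1 := t.eq_left (-((T.dim x - k : ℕ) : ℤ)) (T.dim x - k)
    rw [e1, show -((T.dim x - k : ℕ) : ℤ) + 2 * ((T.dim x - k : ℕ) : ℤ) =
      ((T.dim x - k : ℕ) : ℤ) by ring, e2] at h1
    rw [h1, ← mul_assoc, ← mul_assoc, hrr]
  refine ⟨M, ?_, ?_, ?_⟩
  · have h1 : ((T.dim x : ℤ) - ((T.dim x - k : ℕ) : ℤ)) = T.dim x + (((k : ℕ) : ℤ) - T.dim x) := by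
      omega
    rw [h1] at hM
    exact hM
  · have h1 : P k * M * P k.rev * e ^ (T.dim x - k) * P k =
        P k * (M * (P k.rev * (e ^ (T.dim x - k) * P k))) := by
      simp only [mul_assoc]
    rw [h1, e3, hM1, hkk]
  · have h1 : P k.rev * e ^ (T.dim x - k) * P k * M * P k.rev =
        P k.rev * (e ^ (T.dim x - k) * P k) * M * P k.rev := by
      simp only [mul_assoc]
    rw [h1, e3, hM2, hrr]

end Cycles

end SDCK
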