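import Pool.Agent.LibLC88.Hard

/-!
# ROW E1: the dual Lefschetz operator

In an abstract ring: `P w` the projector onto the weight `w` (degree `d + w`), `G m` the inverse of
`E ^ m : P (-m) → P m`; `A m` is the operator on the weight `-m`, defined by descending recursion:
`A m = (E A (m + 2) + (m + 2)) G (m + 2) E ^ (m + 1) P (-m)`, and on the weight `m > 0` it is
`B m = (E ^ m A m + m E ^ (m - 1)) G m`.
-/

set_option autoImplicit false

namespace SDCK

universe u v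

/-- the data of a hard Lefschetz structure in a ring, and a graded set `S` of operators -/
structure E1Dat {A : Type v} [Ring A] (d : ℕ) (E : A) (P : ℤ → A) (G : ℕ → A) (S : ℤ → A → Prop) :
    Prop where
  pp : ∀ k l, P k * P l = if k = l then P k else 0
  out : ∀ k : ℤ, k < -(d : ℤ) ∨ (d : ℤ) < k → P k = 0
  EP : ∀ k, E * P k = P (k + 2) * E
  PG : ∀ m : ℕ, P (-(m : ℤ)) * G m = G m
  GP : ∀ m : ℕ, G m * P m = G m
  GE : ∀ m : ℕ, G m * E ^ m * P (-(m : ℤ)) = P (-(m : ℤ))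
  EG : ∀ m : ℕ, E ^ m * G m = P m
  S_zero : ∀ r, S r 0
  S_add : ∀ r a b, S r a → S r b → S r (a + b)
  S_mul : ∀ r s a b, S r a → S s b → S (r + s) (a * b)
  S_nat : ∀ n : ℕ, S 0 (n : A)
  S_E : S 1 E
  S_P : ∀ k, S 0 (P k)
  S_G : ∀ m : ℕ, S (-(m : ℤ)) (G m)

namespace E1Dat

variable {A : Type v} [Ring A] {d : ℕ} {E : A} {P : ℤ → A} {G : ℕ → A} {S : ℤ → A → Prop}

/-- descending recursion -/
def Af (E : A) (P : ℤ → A) (G : ℕ → A) : ℕ → ℕ → A
  | 0, _ => 0
  | n + 1, m => (E * Af E P G n (m + 2) + ((m + 2 : ℕ) : A)) * G (m + 2) * E ^ (m + 1) * P (-(m : ℤ))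

theorem EpP (h : E1Dat d E P G S) (n : ℕ) (k : ℤ) : E ^ n * P k = P (k + 2 * n) * E ^ n := by
  induction n with
  | zero => simp
  | succ n ih =>
    have e : k + 2 * (n : ℤ) + 2 = k + 2 * ((n + 1 : ℕ) : ℤ) := by push_cast; ring
    rw [pow_succ', mul_assoc, ih, ← mul_assoc, h.EP, mul_assoc, e]

theorem G_out (h : E1Dat d E P G S) {m : ℕ} (hm : d < m) : G m = 0 := by
  rw [← h.PG m, h.out _ (Or.inl (by omega)), zero_mul]

theorem Af_stab (h : E1Dat d E P G S) : ∀ n m : ℕ, d ≤ n + m → Af E P G (n + 1) m = Af E P G n m := by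
  intro n
  induction n with
  | zero =>
    intro m hm
    change (E * 0 + ((m + 2 : ℕ) : A)) * G (m + 2) * E ^ (m + 1) * P (-(m : ℤ)) = 0
    rw [h.G_out (by omega), mul_zero, zero_mul, zero_mul]
  | succ n ih =>
    intro m hm
    change (E * Af E P G (n + 1) (m + 2) + ((m + 2 : ℕ) : A)) * G (m + 2) * E ^ (m + 1) *
      P (-(m : ℤ)) = (E * Af E P G n (m + 2) + ((m + 2 : ℕ) : A)) * G (m + 2) * E ^ (m + 1) *
      P (-(m : ℤ))
    rw [ih (m + 2) (by omega)]

/-- on weight `-m` -/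
def Am (d : ℕ) (E : A) (P : ℤ → A) (G : ℕ → A) (m : ℕ) : A := Af E P G d m

/-- on weight `m` -/
def Bm (d : ℕ) (E : A) (P : ℤ → A) (G : ℕ → A) (m : ℕ) : A :=
  (E ^ m * Am d E P G m + (m : A) * E ^ (m - 1)) * G m

theorem Am_rec (h : E1Dat d E P G S) (m : ℕ) : Am d E P G m =
    (E * Am d E P G (m + 2) + ((m + 2 : ℕ) : A)) * G (m + 2) * E ^ (m + 1) * P (-(m : ℤ)) :=
  (h.Af_stab d m (by omega)).symm

theorem P_sq (h : E1Dat d E P G S) (k : ℤ) : P k * P k = P k := by rw [h.pp, if_pos rfl]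

theorem Am_P (h : E1Dat d E P G S) (m : ℕ) : Am d E P G m * P (-(m : ℤ)) = Am d E P G m := by
  rw [h.Am_rec, mul_assoc, h.P_sq]

theorem Af_PA (h : E1Dat d E P G S) : ∀ n m : ℕ,
    P (-(m : ℤ) - 2) * Af E P G n m = Af E P G n m := by
  intro n
  induction n with
  | zero =>
    intro m
    exact mul_zero _
  | succ n ih =>
    intro m
    change P (-(m : ℤ) - 2) * ((E * Af E P G n (m + 2) + ((m + 2 : ℕ) : A)) * G (m + 2) *
      E ^ (m + 1) * P (-(m : ℤ))) = (E * Af E P G n (m + 2) + ((m + 2 : ℕ) : A)) * G (m + 2) *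
      E ^ (m + 1) * P (-(m : ℤ))
    have e1 : P (-(m : ℤ) - 2) * (E * Af E P G n (m + 2)) = E * Af E P G n (m + 2) := by
      have e2 : E * P (-((m + 2 : ℕ) : ℤ) - 2) = P (-(m : ℤ) - 2) * E := by
        rw [h.EP]
        congr 2
        push_cast
        ring
      rw [← mul_assoc, ← e2, mul_assoc, ih]
    have e3 : P (-(m : ℤ) - 2) * (((m + 2 : ℕ) : A) * G (m + 2)) =
        ((m + 2 : ℕ) : A) * G (m + 2) := by
      have e4 : P (-(m : ℤ) - 2) * G (m + 2) = G (m + 2) := by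
        have := h.PG (m + 2)
        rwa [show (-((m + 2 : ℕ) : ℤ)) = -(m : ℤ) - 2 by push_cast; ring] at this
      rw [← mul_assoc, ← (Nat.cast_commute (m + 2) (P (-(m : ℤ) - 2))).eq, mul_assoc, e4]
    have e5 : P (-(m : ℤ) - 2) * ((E * Af E P G n (m + 2) + ((m + 2 : ℕ) : A)) * G (m + 2)) =
        (E * Af E P G n (m + 2) + ((m + 2 : ℕ) : A)) * G (m + 2) := by
      rw [add_mul, mul_add, e3, ← mul_assoc, e1]
    rw [← mul_assoc, ← mul_assoc, e5]

theorem P_Am (h : E1Dat d E P G S) (m : ℕ) :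
    P (-(m : ℤ) - 2) * Am d E P G m = Am d E P G m := h.Af_PA d m

theorem Bm_P (h : E1Dat d E P G S) (m : ℕ) : Bm d E P G m * P m = Bm d E P G m := by
  rw [Bm, mul_assoc, h.GP]

theorem P_Bm (h : E1Dat d E P G S) (m : ℕ) :
    P ((m : ℤ) - 2) * Bm d E P G m = Bm d E P G m := by
  have e1 : P ((m : ℤ) - 2) * (E ^ m * Am d E P G m) = E ^ m * Am d E P G m := by
    have e2 : E ^ m * P (-(m : ℤ) - 2) = P ((m : ℤ) - 2) * E ^ m := by
      rw [h.EpP]
      congr 2
      ring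
    rw [← mul_assoc, ← e2, mul_assoc, h.P_Am]
  have e3 : P ((m : ℤ) - 2) * ((m : A) * E ^ (m - 1) * G m) = (m : A) * E ^ (m - 1) * G m := by
    rcases Nat.eq_zero_or_pos m with rfl | hm
    · simp
    · have e4 : P ((m : ℤ) - 2) * (E ^ (m - 1) * G m) = E ^ (m - 1) * G m := by
        have e5 : E ^ (m - 1) * P (-(m : ℤ)) = P ((m : ℤ) - 2) * E ^ (m - 1) := by
          rw [h.EpP]
          congr 2
          have : ((m - 1 : ℕ) : ℤ) = (m : ℤ) - 1 := by omega
          rw [this]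
          ring
        rw [← mul_assoc, ← e5, mul_assoc, h.PG]
      rw [mul_assoc, ← mul_assoc (P ((m : ℤ) - 2)), ← (Nat.cast_commute m (P ((m : ℤ) - 2))).eq,
        mul_assoc, e4]
  rw [Bm, add_mul, mul_add, e3, ← mul_assoc, e1]

theorem Am_out (h : E1Dat d E P G S) {m : ℕ} (hm : d < m) : Am d E P G m = 0 := by
  rw [← h.Am_P, h.out _ (Or.inl (by omega)), mul_zero]

theorem Bm_out (h : E1Dat d E P G S) {m : ℕ} (hm : d < m) : Bm d E P G m = 0 := by
  rw [Bm, h.G_out hm, mul_zero]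

theorem r1 (h : E1Dat d E P G S) (m : ℕ) : Am d E P G m * E =
    E * Am d E P G (m + 2) + ((m + 2 : ℕ) : A) * P (-((m + 2 : ℕ) : ℤ)) := by
  have e1 : P (-(m : ℤ)) * E = E * P (-((m + 2 : ℕ) : ℤ)) := by
    rw [h.EP]
    congr 2
    push_cast
    ring
  have e2 : G (m + 2) * E ^ (m + 1) * (E * P (-((m + 2 : ℕ) : ℤ))) = P (-((m + 2 : ℕ) : ℤ)) := by
    have := h.GE (m + 2)
    rw [pow_succ (n := m + 1)] at this
    simpa only [mul_assoc] using this
  calc Am d E P G m * E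
      = (E * Am d E P G (m + 2) + ((m + 2 : ℕ) : A)) * G (m + 2) * E ^ (m + 1) *
        (P (-(m : ℤ)) * E) := by rw [h.Am_rec, mul_assoc]
    _ = (E * Am d E P G (m + 2) + ((m + 2 : ℕ) : A)) *
        (G (m + 2) * E ^ (m + 1) * (E * P (-((m + 2 : ℕ) : ℤ)))) := by
        rw [e1]
        simp only [mul_assoc]
    _ = (E * Am d E P G (m + 2) + ((m + 2 : ℕ) : A)) * P (-((m + 2 : ℕ) : ℤ)) := by rw [e2]
    _ = _ := by rw [add_mul, mul_assoc, h.Am_P]

theorem r2 (h : E1Dat d E P G S) : Bm d E P G 1 * E = E * Am d E P G 1 + P (-1) := by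
  have e1 : P ((1 : ℕ) : ℤ) * E = E * P (-1) := by
    rw [h.EP]
    norm_num
  have e2 : G 1 * (E * P (-1)) = P (-1) := by
    have := h.GE 1
    simpa [mul_assoc] using this
  have e3 : Am d E P G 1 * P (-1) = Am d E P G 1 := by
    have := h.Am_P 1
    simpa using this
  rw [← h.Bm_P, mul_assoc, e1, Bm, mul_assoc, e2]
  simp only [pow_one, Nat.cast_one, one_mul, Nat.sub_self, pow_zero]
  rw [add_mul, mul_assoc, e3, one_mul]

theorem r4 (h : E1Dat d E P G S) (m : ℕ) : E * Bm d E P G m =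
    Bm d E P G (m + 2) * E + (m : A) * P m := by
  have e1 : P ((m + 2 : ℕ) : ℤ) * E = E * P m := by
    rw [h.EP]
    norm_num
  have hc : E ^ (m + 1) * ((m + 2 : ℕ) : A) = ((m + 2 : ℕ) : A) * E ^ (m + 1) :=
    (Nat.cast_commute _ _).eq.symm
  have e2 : Bm d E P G (m + 2) * E = E ^ (m + 1) * Am d E P G m * G m := by
    calc Bm d E P G (m + 2) * E = Bm d E P G (m + 2) * (P ((m + 2 : ℕ) : ℤ) * E) := by
          rw [← mul_assoc, h.Bm_P]
      _ = Bm d E P G (m + 2) * (E * (E ^ m * G m)) := by rw [e1, h.EG]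
      _ = (E ^ (m + 2) * Am d E P G (m + 2) + ((m + 2 : ℕ) : A) * E ^ (m + 1)) * G (m + 2) *
          (E ^ (m + 1) * G m) := by
          rw [Bm, ← mul_assoc E, ← pow_succ']
          rfl
      _ = E ^ (m + 1) * (E * Am d E P G (m + 2) + ((m + 2 : ℕ) : A)) * G (m + 2) *
          (E ^ (m + 1) * (P (-(m : ℤ)) * G m)) := by
          rw [h.PG, mul_add (E ^ (m + 1)), hc, ← mul_assoc (E ^ (m + 1)) E, ← pow_succ]
      _ = E ^ (m + 1) * ((E * Am d E P G (m + 2) + ((m + 2 : ℕ) : A)) * G (m + 2) *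
          E ^ (m + 1) * P (-(m : ℤ))) * G m := by simp only [mul_assoc]
      _ = _ := by rw [← h.Am_rec]
  have e3 : E * ((m : A) * E ^ (m - 1) * G m) = (m : A) * P m := by
    rcases Nat.eq_zero_or_pos m with rfl | hm
    · simp
    · obtain ⟨n, rfl⟩ : ∃ n, m = n + 1 := ⟨m - 1, by omega⟩
      rw [Nat.add_sub_cancel, ← mul_assoc, ← mul_assoc,
        ← (Nat.cast_commute (n + 1) E).eq, mul_assoc (((n + 1 : ℕ) : A)), ← pow_succ', mul_assoc,
        h.EG]
  rw [e2, Bm, add_mul, mul_add, e3, pow_succ']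
  simp only [mul_assoc]

theorem r3 (h : E1Dat d E P G S) : E * Am d E P G 0 = Bm d E P G 2 * E := by
  have h1 := h.r4 0
  have h2 : Bm d E P G 0 = Am d E P G 0 := by
    have h3 := h.EG 0
    rw [pow_zero, one_mul] at h3
    have h4 := h.Am_P 0
    rw [Nat.cast_zero, neg_zero] at h4
    rw [Bm, pow_zero, one_mul, Nat.cast_zero, zero_mul, add_zero, h3]
    exact h4
  rw [h2] at h1
  simpa using h1

/-- the dual Lefschetz operator -/
def La (d : ℕ) (E : A) (P : ℤ → A) (G : ℕ → A) : A :=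
  ∑ m ∈ Finset.range (d + 1), Am d E P G m + ∑ m ∈ Finset.range (d + 1), Bm d E P G (m + 1)

theorem La_comm (h : E1Dat d E P G S) : E * La d E P G - La d E P G * E =
    ∑ m ∈ Finset.range (d + 1), ((m + 1 : ℕ) : A) * P ((m + 1 : ℕ) : ℤ) -
      ∑ m ∈ Finset.range (d + 2), ((m + 1 : ℕ) : A) * P (-((m + 1 : ℕ) : ℤ)) := by
  have a1 : ∑ m ∈ Finset.range (d + 1), Am d E P G m =
      ∑ m ∈ Finset.range (d + 1), Am d E P G (m + 2) + Am d E P G 1 + Am d E P G 0 := by
    have t1 := Finset.sum_range_succ' (fun m => Am d E P G (m + 1)) (d + 1)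
    have t2 := Finset.sum_range_succ' (Am d E P G) (d + 2)
    have t3 := Finset.sum_range_succ (Am d E P G) (d + 2)
    have t4 := Finset.sum_range_succ (Am d E P G) (d + 1)
    rw [h.Am_out (m := d + 2) (by omega), add_zero] at t3
    rw [h.Am_out (m := d + 1) (by omega), add_zero] at t4
    rw [← t4]
    exact t3.symm.trans (t2.trans (by rw [t1]))
  have b1 : ∑ m ∈ Finset.range (d + 1), Bm d E P G (m + 1) =
      ∑ m ∈ Finset.range (d + 1), Bm d E P G (m + 1 + 2) + Bm d E P G 2 + Bm d E P G 1 := by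
    have t1 := Finset.sum_range_succ' (fun m => Bm d E P G (m + 2)) (d + 1)
    have t2 := Finset.sum_range_succ' (fun m => Bm d E P G (m + 1)) (d + 2)
    have t3 := Finset.sum_range_succ (fun m => Bm d E P G (m + 1)) (d + 2)
    have t4 := Finset.sum_range_succ (fun m => Bm d E P G (m + 1)) (d + 1)
    rw [h.Bm_out (m := d + 2 + 1) (by omega), add_zero] at t3
    rw [h.Bm_out (m := d + 1 + 1) (by omega), add_zero] at t4
    rw [← t4]
    exact t3.symm.trans (t2.trans (by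
      rw [show ∑ k ∈ Finset.range (d + 2), Bm d E P G (k + 1 + 1) =
        ∑ k ∈ Finset.range (d + 1), Bm d E P G (k + 1 + 2) + Bm d E P G 2 from t1]))
  have s1 : (∑ m ∈ Finset.range (d + 1), Am d E P G m) * E =
      ∑ m ∈ Finset.range (d + 1), E * Am d E P G (m + 2) +
        ∑ m ∈ Finset.range (d + 1), ((m + 2 : ℕ) : A) * P (-((m + 2 : ℕ) : ℤ)) := by
    rw [Finset.sum_mul, ← Finset.sum_add_distrib]
    exact Finset.sum_congr rfl fun m _ => h.r1 m
  have s2 : E * (∑ m ∈ Finset.range (d + 1), Am d E P G m) =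
      ∑ m ∈ Finset.range (d + 1), E * Am d E P G (m + 2) + E * Am d E P G 1 +
        E * Am d E P G 0 := by
    rw [a1, mul_add, mul_add, Finset.mul_sum]
  have s3 : E * (∑ m ∈ Finset.range (d + 1), Bm d E P G (m + 1)) =
      ∑ m ∈ Finset.range (d + 1), Bm d E P G (m + 1 + 2) * E +
        ∑ m ∈ Finset.range (d + 1), ((m + 1 : ℕ) : A) * P ((m + 1 : ℕ) : ℤ) := by
    rw [Finset.mul_sum, ← Finset.sum_add_distrib]
    exact Finset.sum_congr rfl fun m _ => h.r4 (m + 1)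
  have s4 : (∑ m ∈ Finset.range (d + 1), Bm d E P G (m + 1)) * E =
      ∑ m ∈ Finset.range (d + 1), Bm d E P G (m + 1 + 2) * E + E * Am d E P G 0 +
        (E * Am d E P G 1 + P (-1)) := by
    rw [b1, add_mul, add_mul, Finset.sum_mul, h.r2, h.r3]
  have s5 : ∑ m ∈ Finset.range (d + 2), ((m + 1 : ℕ) : A) * P (-((m + 1 : ℕ) : ℤ)) =
      ∑ m ∈ Finset.range (d + 1), ((m + 2 : ℕ) : A) * P (-((m + 2 : ℕ) : ℤ)) + P (-1) := by
    rw [Finset.sum_range_succ']
    congr 1
    simp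
  rw [La, mul_add, add_mul, s1, s2, s3, s4, s5]
  abel

theorem pLp (h : E1Dat d E P G S) {k l : ℤ} (hkl : l + 2 ≠ k) : P l * La d E P G * P k = 0 := by
  have hA : ∀ m : ℕ, P l * Am d E P G m * P k = 0 := by
    intro m
    rw [← h.P_Am, ← h.Am_P, ← mul_assoc, ← mul_assoc, mul_assoc, h.pp l, h.pp _ k]
    by_cases h1 : l = -(m : ℤ) - 2
    · rw [if_neg (fun h2 : -(m : ℤ) = k => hkl (by omega)), mul_zero]
    · rw [if_neg h1, zero_mul, zero_mul]
  have hB : ∀ m : ℕ, P l * Bm d E P G m * P k = 0 := by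
    intro m
    rw [← h.P_Bm, ← h.Bm_P, ← mul_assoc, ← mul_assoc, mul_assoc, h.pp l, h.pp _ k]
    by_cases h1 : l = (m : ℤ) - 2
    · rw [if_neg (fun h2 : (m : ℤ) = k => hkl (by omega)), mul_zero]
    · rw [if_neg h1, zero_mul, zero_mul]
  rw [La, mul_add, add_mul, Finset.mul_sum, Finset.mul_sum, Finset.sum_mul, Finset.sum_mul,
    Finset.sum_eq_zero fun m _ => hA m, Finset.sum_eq_zero fun m _ => hB (m + 1), add_zero]

theorem c_La (h : E1Dat d E P G S) {c : A} (hc : ∀ k, c * P k = P k) :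
    c * La d E P G = La d E P G := by
  rw [La, mul_add, Finset.mul_sum, Finset.mul_sum]
  congr 1
  · refine Finset.sum_congr rfl fun m _ => ?_
    rw [← h.P_Am, ← mul_assoc, hc]
  · refine Finset.sum_congr rfl fun m _ => ?_
    rw [← h.P_Bm, ← mul_assoc, hc]

theorem La_c (h : E1Dat d E P G S) {c : A} (hc : ∀ k, P k * c = P k) :
    La d E P G * c = La d E P G := by
  rw [La, add_mul, Finset.sum_mul, Finset.sum_mul]
  congr 1
  · refine Finset.sum_congr rfl fun m _ => ?_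
    rw [← h.Am_P, mul_assoc, hc]
  · refine Finset.sum_congr rfl fun m _ => ?_
    rw [← h.Bm_P, mul_assoc, hc]

theorem S_pow (h : E1Dat d E P G S) (n : ℕ) : S n (E ^ n) := by
  induction n with
  | zero =>
    have := h.S_nat 1
    simpa using this
  | succ n ih =>
    have := h.S_mul _ _ _ _ ih h.S_E
    rw [← pow_succ] at this
    exact_mod_cast this

theorem S_Af (h : E1Dat d E P G S) : ∀ n m : ℕ, S (-1) (Af E P G n m) := by
  intro n
  induction n with
  | zero => exact fun m => h.S_zero _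
  | succ n ih =>
    intro m
    have h1 : S (1 + -1) (E * Af E P G n (m + 2)) := h.S_mul _ _ _ _ h.S_E (ih _)
    rw [show (1 : ℤ) + -1 = 0 by norm_num] at h1
    have h2 := h.S_add _ _ _ h1 (h.S_nat (m + 2))
    have h3 := h.S_mul _ _ _ _ h2 (h.S_G (m + 2))
    have h4 := h.S_mul _ _ _ _ h3 (h.S_pow (m + 1))
    have h5 := h.S_mul _ _ _ _ h4 (h.S_P (-(m : ℤ)))
    have e : (0 + -((m + 2 : ℕ) : ℤ) + ((m + 1 : ℕ) : ℤ) + 0) = -1 := by
      push_cast
      ring
    rw [e] at h5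
    exact h5

theorem S_La (h : E1Dat d E P G S) : S (-1) (La d E P G) := by
  have hs : ∀ (n : ℕ) (f : ℕ → A), (∀ m, S (-1) (f m)) → S (-1) (∑ m ∈ Finset.range n, f m) := by
    intro n f hf
    induction n with
    | zero => exact h.S_zero _
    | succ n ih =>
      rw [Finset.sum_range_succ]
      exact h.S_add _ _ _ ih (hf n)
  refine h.S_add _ _ _ (hs _ _ fun m => h.S_Af d m) (hs _ _ fun m => ?_)
  have h1 := h.S_mul _ _ _ _ (h.S_pow (m + 1)) (h.S_Af d (m + 1))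
  have h2 := h.S_mul _ _ _ _ (h.S_nat (m + 1)) (h.S_pow m)
  have e1 : (((m + 1 : ℕ) : ℤ) + -1) = 0 + (m : ℤ) := by
    push_cast
    ring
  rw [e1] at h1
  have h3 := h.S_mul _ _ _ _ (h.S_add _ _ _ h1 h2) (h.S_G (m + 1))
  have e2 : (0 + (m : ℤ) + -((m + 1 : ℕ) : ℤ)) = -1 := by
    push_cast
    ring
  rw [e2] at h3
  exact h3

end E1Dat

namespace Cycles

variable {T : Cycles.{u, v}}

/-- `u` maps the classes of correspondences through `N` to such classes, of degree larger by `r`. -/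
def E1St (T : Cycles.{u, v}) (N : Set T.ι) (x : T.ι) (r : ℤ) (u : T.H) : Prop :=
  ∀ s, ∀ z ∈ T.CorN N x x s, ∃ w ∈ T.CorN N x x (s + r), T.R w = u * T.R z

/-- both `u` and its adjoint -/
def E1S (T : Cycles.{u, v}) (N : Set T.ι) (x : T.ι) (r : ℤ) (u : T.H) : Prop :=
  T.E1St N x r u ∧ T.E1St N x r (star u)

theorem E1St_mul {N : Set T.ι} {x : T.ι} {r s t : ℤ} {a b : T.H} (ha : T.E1St N x r a)
    (hb : T.E1St N x s b) (ht : t = r + s) : T.E1St N x t (a * b) := by
  intro c z hz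
  obtain ⟨w, hw, hw'⟩ := hb c z hz
  obtain ⟨y, hy, hy'⟩ := ha _ w hw
  refine ⟨y, ?_, by rw [hy', hw', mul_assoc]⟩
  rwa [show c + t = c + s + r by rw [ht]; ring]

theorem E1St_add {N : Set T.ι} {x : T.ι} {r : ℤ} {a b : T.H} (ha : T.E1St N x r a)
    (hb : T.E1St N x r b) : T.E1St N x r (a + b) := by
  intro c z hz
  obtain ⟨w, hw, hw'⟩ := hb c z hz
  obtain ⟨y, hy, hy'⟩ := ha c z hz
  exact ⟨y + w, Submodule.add_mem _ hy hw, by rw [map_add, hy', hw', add_mul]⟩

theorem E1St_zero {N : Set T.ι} {x : T.ι} {r : ℤ} : T.E1St N x r 0 := fun _ _ _ =>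
  ⟨0, Submodule.zero_mem _, by rw [map_zero, zero_mul]⟩

theorem E1St_R {N : Set T.ι} {x : T.ι} {r : ℤ} {a : T.C} (ha : a ∈ T.Cor x x r) :
    T.E1St N x r (T.R a) := fun s z hz =>
  ⟨a * z, mul_corN ha hz (add_comm r s), by rw [map_mul]⟩

theorem E1St_nat {N : Set T.ι} {x : T.ι} (n : ℕ) : T.E1St N x 0 (n : T.H) := by
  intro s z hz
  refine ⟨n • z, ?_, ?_⟩
  · rw [add_zero]
    exact nsmul_mem hz n
  · rw [map_nsmul, nsmul_eq_mul]

theorem E1St_π {N : Set T.ι} (h : T.Kim N) (x : T.ι) (k : ℤ) : T.E1St N x 0 (T.πZ x k) := by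
  intro s z hz
  rw [add_zero]
  unfold CorN Fac at hz
  induction hz using Submodule.span_induction with
  | mem z hz1 =>
    obtain ⟨o, ho, r, s', hrs, a, ha, b, hb, rfl⟩ := hz1
    have ha' : a ∈ T.Cor o x (r - T.dim o) := by
      rw [Cor]
      have h2 : (T.dim o : ℤ) + (r - T.dim o) = r := by ring
      rwa [h2]
    have h1 : T.R a * T.πZ o (k - 2 * (r - T.dim o)) = T.πZ x k * T.R a :=
      R_comm h ha' (by ring)
    rcases πZ_cases o (k - 2 * (r - T.dim o)) with ⟨l, -, hl⟩ | hl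
    · obtain ⟨c, hc, hcR⟩ := h.kunneth o ho l
      refine ⟨a * (c * b), mem_fac ho hrs ha ?_, ?_⟩
      · have h2 := T.mul_mem hc hb
        have h3 : (T.dim o : ℤ) + s' - T.dim o = s' := by ring
        rwa [h3] at h2
      · rw [map_mul, map_mul, hcR, ← hl, ← mul_assoc, h1, map_mul, mul_assoc]
    · refine ⟨0, Submodule.zero_mem _, ?_⟩
      rw [map_zero, map_mul, ← mul_assoc, ← h1, hl, mul_zero, zero_mul]
  | zero => exact ⟨0, Submodule.zero_mem _, by rw [map_zero, mul_zero]⟩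
  | add a b _ _ iha ihb =>
    obtain ⟨a', ha', hRa⟩ := iha
    obtain ⟨b', hb', hRb⟩ := ihb
    exact ⟨a' + b', Submodule.add_mem _ ha' hb', by rw [map_add, map_add, hRa, hRb, mul_add]⟩
  | smul q a _ iha =>
    obtain ⟨a', ha', hRa⟩ := iha
    refine ⟨q • a', Submodule.smul_mem _ q ha', ?_⟩
    have hq : ∀ c : T.C, T.R (q • c) = T.R c * T.R (q • (1 : T.C)) := fun c => by
      rw [← map_mul, mul_smul_comm, mul_one]
    rw [hq a', hq a, hRa, mul_assoc]

theorem star_πZ (x : T.ι) (k : ℤ) : star (T.πZ x k) = T.πZ x (2 * T.dim x - k) := by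
  by_cases h : 0 ≤ k ∧ k ≤ 2 * (T.dim x : ℤ)
  · obtain ⟨l, hl, hl'⟩ := πZ_of x h.1 h.2
    have h1 : (2 * (T.dim x : ℤ) - k) = ((l.rev : ℕ) : ℤ) := by
      rw [Fin.val_rev]
      omega
    rw [hl', T.π_star, h1, πZ_coe]
  · rw [πZ_out x (by omega), πZ_out x (by omega), star_zero]

theorem pow_πZ {N : Set T.ι} (hN : T.Kim N) {x : T.ι} {e : T.C} (he : e ∈ T.Cor x x 1) (n : ℕ)
    (k : ℤ) : T.R e ^ n * T.πZ x k = T.πZ x (k + 2 * n) * T.R e ^ n := by
  induction n with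
  | zero => simp
  | succ n ih =>
    have h1 : T.R e * T.πZ x (k + 2 * n) = T.πZ x (k + 2 * (n + 1 : ℕ)) * T.R e :=
      R_comm hN he (by push_cast; ring)
    rw [pow_succ', mul_assoc, ih, ← mul_assoc, h1, mul_assoc]

theorem E1_g {N : Set T.ι} {x : T.ι} {e : T.C} (h : T.Lefschetz N x e) (m : ℕ)
    (hm : m ≤ T.dim x) : ∃ g : T.H,
      g * T.R e ^ m * T.πZ x (T.dim x - m) = T.πZ x (T.dim x - m) ∧ T.E1S N x (-(m : ℤ)) g := by
  have hk : T.dim x - m < 2 * T.dim x + 1 := by omega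
  have e1 : T.πZ x (T.dim x - m) = T.π x ⟨T.dim x - m, hk⟩ := by
    rw [← πZ_coe]
    congr 1
    simp only
    omega
  have e2 : T.dim x - ((⟨T.dim x - m, hk⟩ : Fin (2 * T.dim x + 1)) : ℕ) = m := by
    simp only
    omega
  rcases N.eq_empty_or_nonempty with hN | hN
  · obtain ⟨g, hg⟩ := h.hard ⟨T.dim x - m, hk⟩ (by simp only; omega)
    rw [e2] at hg
    refine ⟨g, by rw [e1]; exact hg, ?_⟩
    have h0 : ∀ (r : ℤ) (u : T.H), T.E1St N x r u := by
      intro r u s z hz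
      have hz0 : z = 0 := by
        subst hN
        rw [CorN, Fac] at hz
        have h1 : {z | ∃ o ∈ (∅ : Set T.ι), ∃ r' s' : ℤ, r' + s' = (T.dim x : ℤ) + s + T.dim o ∧
          ∃ a ∈ T.CH o x r', ∃ b ∈ T.CH x o s', a * b = z} = (∅ : Set T.C) := by
          ext z
          simp
        rw [h1, Submodule.span_empty, Submodule.mem_bot] at hz
        exact hz
      exact ⟨0, Submodule.zero_mem _, by rw [hz0, map_zero, mul_zero]⟩
    exact ⟨h0 _ _, h0 _ _⟩
  · obtain ⟨M, hM, hg⟩ := h.alg hN ⟨T.dim x - m, hk⟩ (by simp only; omega)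
    rw [e2] at hg
    have e3 : (((⟨T.dim x - m, hk⟩ : Fin (2 * T.dim x + 1)) : ℕ) : ℤ) - T.dim x = -(m : ℤ) := by
      simp only
      omega
    rw [e3] at hM
    refine ⟨T.R M, by rw [e1]; exact hg, E1St_R hM, ?_⟩
    rw [← T.R_star]
    exact E1St_R (cor_star hM rfl)

theorem E1_dat {N : Set T.ι} (hN : T.Kim N) {x : T.ι} {e : T.C} (he : e ∈ T.Cor x x 1)
    (hs : star e = e) (h : T.Lefschetz N x e) : ∃ G : ℕ → T.H,
      E1Dat (T.dim x) (T.R e) (fun w => T.πZ x (T.dim x + w)) G (T.E1S N x) := by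
  classical
  have hg := fun m => fun hm : m ≤ T.dim x => E1_g h m hm
  choose g hg1 hg2 using hg
  have hE : star (T.R e) = T.R e := by rw [← T.R_star, hs]
  have hid : ∀ k : ℤ, T.πZ x k * T.πZ x k = T.πZ x k := fun k => by rw [πZ_mul, if_pos rfl]
  have hcomm : ∀ m : ℕ, T.R e ^ m * T.πZ x (T.dim x - m) = T.πZ x (T.dim x + m) * T.R e ^ m := by
    intro m
    rw [pow_πZ hN he]
    congr 2
    ring
  have hst : ∀ m (hm : m ≤ T.dim x), T.πZ x (T.dim x + m) * (T.R e ^ m * star (g m hm)) =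
      T.πZ x (T.dim x + m) := by
    intro m hm
    have h1 := congrArg star (hg1 m hm)
    rw [star_mul, star_mul, star_pow, hE, star_πZ] at h1
    have e1 : (2 * (T.dim x : ℤ) - (T.dim x - m)) = T.dim x + m := by ring
    rwa [e1] at h1
  refine ⟨fun m => if hm : m ≤ T.dim x then
    T.πZ x (T.dim x - m) * g m hm * T.πZ x (T.dim x + m) else 0, ?_⟩
  have hneg : ∀ m : ℕ, ((T.dim x : ℤ) + -(m : ℤ)) = T.dim x - m := fun m => by ring
  refine ⟨?_, ?_, ?_, ?_, ?_, ?_, ?_, ?_, ?_, ?_, ?_, ?_, ?_, ?_⟩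
  · intro k l
    change T.πZ x (T.dim x + k) * T.πZ x (T.dim x + l) = _
    rw [πZ_mul]
    by_cases hkl : k = l
    · rw [if_pos hkl, if_pos (by rw [hkl])]
    · rw [if_neg hkl, if_neg (fun h' => hkl (by linarith))]
  · intro k hk
    exact πZ_out x (by omega)
  · intro k
    exact R_comm hN he (by ring)
  · intro m
    change T.πZ x (T.dim x + -(m : ℤ)) * (dite _ _ _) = dite _ _ _
    rw [hneg]
    split_ifs with hm
    · rw [← mul_assoc, ← mul_assoc, hid]
    · rw [mul_zero]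
  · intro m
    change (dite _ _ _) * T.πZ x (T.dim x + m) = dite _ _ _
    split_ifs with hm
    · rw [mul_assoc, hid]
    · rw [zero_mul]
  · intro m
    change (dite _ _ _) * T.R e ^ m * T.πZ x (T.dim x + -(m : ℤ)) = T.πZ x (T.dim x + -(m : ℤ))
    rw [hneg]
    split_ifs with hm
    · have h1 : T.πZ x (T.dim x + m) * (T.R e ^ m * T.πZ x (T.dim x - m)) =
          T.R e ^ m * T.πZ x (T.dim x - m) := by
        rw [hcomm, ← mul_assoc, hid]
      calc T.πZ x (T.dim x - m) * g m hm * T.πZ x (T.dim x + m) * T.R e ^ m *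
            T.πZ x (T.dim x - m)
          = T.πZ x (T.dim x - m) * g m hm *
            (T.πZ x (T.dim x + m) * (T.R e ^ m * T.πZ x (T.dim x - m))) := by
            simp only [mul_assoc]
        _ = T.πZ x (T.dim x - m) * (g m hm * T.R e ^ m * T.πZ x (T.dim x - m)) := by
            rw [h1]
            simp only [mul_assoc]
        _ = _ := by rw [hg1, hid]
    · rw [zero_mul, zero_mul, πZ_out x (by omega)]
  · intro m
    change T.R e ^ m * (dite _ _ _) = T.πZ x (T.dim x + m)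
    split_ifs with hm
    · calc T.R e ^ m * (T.πZ x (T.dim x - m) * g m hm * T.πZ x (T.dim x + m))
          = T.R e ^ m * (T.πZ x (T.dim x - m) * g m hm *
            (T.πZ x (T.dim x + m) * (T.R e ^ m * star (g m hm)))) := by rw [hst]
        _ = T.R e ^ m * T.πZ x (T.dim x - m) * g m hm *
            (T.πZ x (T.dim x + m) * T.R e ^ m) * star (g m hm) := by simp only [mul_assoc]
        _ = T.R e ^ m * T.πZ x (T.dim x - m) *
            (g m hm * T.R e ^ m * T.πZ x (T.dim x - m)) * star (g m hm) := by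
            rw [← hcomm]
            simp only [mul_assoc]
        _ = T.R e ^ m * T.πZ x (T.dim x - m) * star (g m hm) := by
            rw [hg1, mul_assoc (T.R e ^ m), hid]
        _ = T.πZ x (T.dim x + m) := by rw [hcomm, mul_assoc, hst]
    · rw [mul_zero, πZ_out x (by omega)]
  · intro r
    exact ⟨E1St_zero, by rw [star_zero]; exact E1St_zero⟩
  · intro r a b ha hb
    exact ⟨E1St_add ha.1 hb.1, by rw [star_add]; exact E1St_add ha.2 hb.2⟩
  · intro r s a b ha hb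
    exact ⟨E1St_mul ha.1 hb.1 rfl, by rw [star_mul]; exact E1St_mul hb.2 ha.2 (add_comm r s)⟩
  · intro n
    exact ⟨E1St_nat n, by rw [star_natCast]; exact E1St_nat n⟩
  · exact ⟨E1St_R he, by rw [hE]; exact E1St_R he⟩
  · intro k
    exact ⟨E1St_π hN x _, by rw [star_πZ]; exact E1St_π hN x _⟩
  · intro m
    change T.E1S N x (-(m : ℤ)) (dite _ _ _)
    split_ifs with hm
    · have h1 := hg2 m hm
      refine ⟨?_, ?_⟩
      · exact E1St_mul (E1St_mul (E1St_π hN x _) h1.1 rfl) (E1St_π hN x _) (by ring)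
      · rw [star_mul, star_mul, star_πZ, star_πZ]
        exact E1St_mul (E1St_π hN x _) (E1St_mul h1.2 (E1St_π hN x _) rfl) (by ring)
    · exact ⟨E1St_zero, by rw [star_zero]; exact E1St_zero⟩

theorem E1_sum (x : T.ι) :
    ∑ m ∈ Finset.range (T.dim x + 1), ((m + 1 : ℕ) : T.H) *
        T.πZ x (T.dim x + ((m + 1 : ℕ) : ℤ)) -
      ∑ m ∈ Finset.range (T.dim x + 2), ((m + 1 : ℕ) : T.H) *
        T.πZ x (T.dim x + -((m + 1 : ℕ) : ℤ)) =
    ∑ k : Fin (2 * T.dim x + 1), (((k : ℕ) : ℤ) - T.dim x) • T.π x k := by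
  set d := T.dim x with hd
  have h1 : ∑ k : Fin (2 * d + 1), (((k : ℕ) : ℤ) - d) • T.π x k =
      ∑ k ∈ Finset.range (2 * d + 1), ((k : ℤ) - d) • T.πZ x (k : ℤ) := by
    rw [← Fin.sum_univ_eq_sum_range (fun k : ℕ => ((k : ℤ) - d) • T.πZ x (k : ℤ))]
    exact Finset.sum_congr rfl fun k _ => by rw [πZ_coe]
  have h2 : 2 * d + 1 = d + (d + 1) := by ring
  have s1 := Finset.sum_range_add (fun k : ℕ => ((k : ℤ) - d) • T.πZ x (k : ℤ)) d (d + 1)
  have s2 := Finset.sum_range_reflect (fun k : ℕ => ((k : ℤ) - d) • T.πZ x (k : ℤ)) d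
  have s3 := Finset.sum_range_succ' (fun k : ℕ => (((d + k : ℕ) : ℤ) - d) •
    T.πZ x ((d + k : ℕ) : ℤ)) d
  have s4 := Finset.sum_range_succ (fun m : ℕ => ((m + 1 : ℕ) : T.H) *
    T.πZ x (d + ((m + 1 : ℕ) : ℤ))) d
  have s5 := Finset.sum_range_succ (fun m : ℕ => ((m + 1 : ℕ) : T.H) *
    T.πZ x (d + -((m + 1 : ℕ) : ℤ))) d
  have s6 := Finset.sum_range_succ (fun m : ℕ => ((m + 1 : ℕ) : T.H) *
    T.πZ x (d + -((m + 1 : ℕ) : ℤ))) (d + 1)
  rw [πZ_out x (k := (d : ℤ) + ((d + 1 : ℕ) : ℤ)) (by omega), mul_zero, add_zero] at s4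
  rw [πZ_out x (k := (d : ℤ) + -((d + 1 : ℕ) : ℤ)) (by omega), mul_zero, add_zero] at s5
  rw [πZ_out x (k := (d : ℤ) + -((d + 1 + 1 : ℕ) : ℤ)) (by omega), mul_zero, add_zero] at s6
  rw [h1, h2, s1, ← s2, s3, s4, s6, s5]
  have h3 : ∑ j ∈ Finset.range d, (((d - 1 - j : ℕ) : ℤ) - d) • T.πZ x ((d - 1 - j : ℕ) : ℤ) =
      -∑ m ∈ Finset.range d, ((m + 1 : ℕ) : T.H) * T.πZ x (d + -((m + 1 : ℕ) : ℤ)) := by
    rw [← Finset.sum_neg_distrib]
    refine Finset.sum_congr rfl fun j hj => ?_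
    rw [Finset.mem_range] at hj
    have e1 : ((d - 1 - j : ℕ) : ℤ) = d + -((j + 1 : ℕ) : ℤ) := by omega
    have e2 : ((d : ℤ) + -((j + 1 : ℕ) : ℤ)) - d = -((j + 1 : ℕ) : ℤ) := by ring
    rw [e1, e2, neg_smul, zsmul_eq_mul, Int.cast_natCast]
  have h4 : ∑ k ∈ Finset.range d, (((d + (k + 1) : ℕ) : ℤ) - d) • T.πZ x ((d + (k + 1) : ℕ) : ℤ) =
      ∑ m ∈ Finset.range d, ((m + 1 : ℕ) : T.H) * T.πZ x (d + ((m + 1 : ℕ) : ℤ)) := by
    refine Finset.sum_congr rfl fun j _ => ?_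
    have e1 : ((d + (j + 1) : ℕ) : ℤ) = d + ((j + 1 : ℕ) : ℤ) := by push_cast; ring
    have e2 : ((d : ℤ) + ((j + 1 : ℕ) : ℤ)) - d = ((j + 1 : ℕ) : ℤ) := by ring
    rw [e1, e2, zsmul_eq_mul, Int.cast_natCast]
  rw [h3, h4]
  have h5 : (((d + 0 : ℕ) : ℤ) - d) • T.πZ x ((d + 0 : ℕ) : ℤ) = 0 := by
    rw [add_zero, sub_self, zero_smul]
  rw [h5, add_zero]
  abel

theorem E1_exists_dual {N : Set T.ι} (hN : T.Kim N) {x : T.ι} {e : T.C} (he : e ∈ T.Cor x x 1)
    (hs : star e = e) (h : T.Lefschetz N x e) : ∃ Λ, T.IsHard N x e Λ := by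
  obtain ⟨G, hG⟩ := E1_dat hN he hs h
  set P : ℤ → T.H := fun w => T.πZ x (T.dim x + w) with hP
  set L : T.H := E1Dat.La (T.dim x) (T.R e) P G with hL
  have hE : star (T.R e) = T.R e := by rw [← T.R_star, hs]
  set c : T.H := T.R (algebraMap ℚ T.C (1 / 2)) with hc
  have c2 : c * 2 = 1 := by
    have h2 : (2 : T.H) = T.R (algebraMap ℚ T.C 2) := by
      rw [map_ofNat, map_ofNat]
    rw [hc, h2, ← map_mul, ← map_mul]
    norm_num
  have c2' : (2 : T.H) * c = 1 := by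
    have h2 : (2 : T.H) = T.R (algebraMap ℚ T.C 2) := by
      rw [map_ofNat, map_ofNat]
    rw [hc, h2, ← map_mul, ← map_mul]
    norm_num
  have hcc : ∀ a : T.H, c * a = a * c := by
    intro a
    have h2 : (2 : T.H) * a = a * 2 := by rw [two_mul, mul_two]
    calc c * a = c * a * (2 * c) := by rw [c2', mul_one]
      _ = c * (a * 2) * c := by simp only [mul_assoc]
      _ = c * 2 * a * c := by rw [← h2]; simp only [mul_assoc]
      _ = a * c := by rw [c2, one_mul]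
  have hcs : star c = c := by
    have h2 : star c * 2 = 1 := by
      have h3 := congrArg star c2'
      rw [star_mul, star_one, star_ofNat] at h3
      exact h3
    calc star c = star c * (2 * c) := by rw [c2', mul_one]
      _ = star c * 2 * c := by rw [mul_assoc]
      _ = c := by rw [h2, one_mul]
  have hch : ∀ a : T.H, c * (a + a) = a := by
    intro a
    rw [← mul_two, ← mul_assoc, hcc a, mul_assoc, c2, mul_one]
  have hρ1 : T.R (T.Δ x) * L = L := hG.c_La fun k => R_Δ_πZ x _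
  have hρ2 : L * T.R (T.Δ x) = L := by
    apply hG.La_c
    intro k
    have h1 := congrArg star (R_Δ_πZ (T := T) x (2 * T.dim x - (T.dim x + k)))
    rw [star_mul, star_πZ, ρ_star] at h1
    have e1 : (2 * (T.dim x : ℤ) - (2 * T.dim x - (T.dim x + k))) = T.dim x + k := by ring
    rw [e1] at h1
    exact h1
  have hρ3 : T.R (T.Δ x) * star L = star L := by
    have h1 := congrArg star hρ2
    rwa [star_mul, ρ_star] at h1
  have hρ4 : star L * T.R (T.Δ x) = star L := by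
    have h1 := congrArg star hρ1
    rwa [star_mul, ρ_star] at h1
  have hcomm : T.R e * L - L * T.R e =
      ∑ k : Fin (2 * T.dim x + 1), (((k : ℕ) : ℤ) - T.dim x) • T.π x k :=
    hG.La_comm.trans (E1_sum x)
  have hcomm' : T.R e * star L - star L * T.R e =
      ∑ k : Fin (2 * T.dim x + 1), (((k : ℕ) : ℤ) - T.dim x) • T.π x k := by
    have h1 := congrArg star hcomm
    rw [star_sub, star_mul, star_mul, hE, star_sum] at h1
    have h2 : ∑ k : Fin (2 * T.dim x + 1), star ((((k : ℕ) : ℤ) - T.dim x) • T.π x k) =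
        -∑ k : Fin (2 * T.dim x + 1), (((k : ℕ) : ℤ) - T.dim x) • T.π x k := by
      rw [← Finset.sum_neg_distrib]
      rw [← Equiv.sum_comp Fin.revPerm]
      refine Finset.sum_congr rfl fun k _ => ?_
      rw [star_zsmul, T.π_star, Fin.revPerm_apply, Fin.rev_rev, ← neg_smul]
      congr 1
      rw [Fin.val_rev]
      omega
    rw [h2] at h1
    rw [← neg_sub, h1, neg_neg]
  refine ⟨c * (L + star L), ?_, ?_, ?_, ?_, ?_⟩
  · have h1 : T.R (T.Δ x) * ((L + star L) * T.R (T.Δ x)) = L + star L := by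
      rw [add_mul, mul_add, hρ2, hρ4, hρ1, hρ3]
    rw [← mul_assoc, ← hcc, mul_assoc, mul_assoc, h1]
  · intro k l hkl
    have h1 : T.π x l * L * T.π x k = 0 := by
      have h2 := hG.pLp (k := (k : ℤ) - T.dim x) (l := (l : ℤ) - T.dim x) (by omega)
      have e1 : P ((k : ℤ) - T.dim x) = T.π x k := by
        rw [hP]
        simp only
        rw [add_sub_cancel, πZ_coe]
      have e2 : P ((l : ℤ) - T.dim x) = T.π x l := by
        rw [hP]
        simp only
        rw [add_sub_cancel, πZ_coe]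
      rwa [e1, e2] at h2
    have h3 : T.π x l * star L * T.π x k = 0 := by
      have h2 := hG.pLp (k := (l.rev : ℤ) - T.dim x) (l := (k.rev : ℤ) - T.dim x) (by
        rw [Fin.val_rev, Fin.val_rev]
        omega)
      have e1 : P (((k.rev : ℕ) : ℤ) - T.dim x) = T.π x k.rev := by
        rw [hP]
        simp only
        rw [add_sub_cancel, πZ_coe]
      have e2 : P (((l.rev : ℕ) : ℤ) - T.dim x) = T.π x l.rev := by
        rw [hP]
        simp only
        rw [add_sub_cancel, πZ_coe]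
      rw [e1, e2] at h2
      have h4 := congrArg star h2
      rw [star_mul, star_mul, T.π_star, T.π_star, Fin.rev_rev, Fin.rev_rev, star_zero,
        ← mul_assoc] at h4
      exact h4
    rw [hcc, ← mul_assoc, mul_add, mul_assoc, hcc, ← mul_assoc, add_mul, h1, h3, add_zero,
      zero_mul]
  · rw [star_mul, star_add, star_star, hcs, ← hcc, add_comm]
  · have h1 : T.R e * (c * (L + star L)) - c * (L + star L) * T.R e =
        c * ((T.R e * L - L * T.R e) + (T.R e * star L - star L * T.R e)) := by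
      rw [← mul_assoc, ← hcc]
      noncomm_ring
    rw [h1, hcomm, hcomm', hch]
  · intro z hz
    obtain ⟨w1, hw1, e1⟩ := hG.S_La.1 1 z hz
    obtain ⟨w2, hw2, e2⟩ := hG.S_La.2 1 z hz
    rw [show (1 : ℤ) + -1 = 0 by norm_num] at hw1 hw2
    refine ⟨(1 / 2 : ℚ) • (w1 + w2), Submodule.smul_mem _ _ (Submodule.add_mem _ hw1 hw2), ?_⟩
    rw [Algebra.smul_def, map_mul, map_add, e1, e2, mul_assoc, add_mul]

end Cycles

end SDCK
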