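import Pool.Agent.LibLC88.B5
import Pool.Agent.LibLC88.B6
import Pool.Agent.LibLC88.C4
import Pool.Agent.LibLC88.E1

/-!
# The linear criterion
-/

set_option autoImplicit false

namespace SDCK

universe u v

namespace Cycles

variable {T : Cycles.{u, v}}

theorem CorN_empty (x y : T.ι) (r : ℤ) : T.CorN ∅ x y r = ⊥ := by
  rw [CorN, Fac, Submodule.span_eq_bot]
  rintro z ⟨o, ho, -⟩
  exact absurd ho (Set.notMem_empty o)

/-- symmetrised solutions of the linear equation -/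
theorem isLinear_symm {N : Set T.ι} {x : T.ι} {e : T.C} (hs : star e = e)
    (h : T.IsLinear N x e) : ∃ f ∈ T.Cor x x (-1), star f = f ∧
      e * e * f - 2 * (e * f * e) + f * e * e + 2 * e ∈ T.CorN N x x 1 := by
  obtain ⟨he, f', hf', hlin⟩ := h
  refine B4_domination (a := T.Δ x) (b := T.Δ x) he hs (Δ_cor x) (Δ_cor x) he hf' ?_ ?_ ?_ hlin
  · rw [T.Δ_mul (T.Δ_mem x), sub_self]
    exact Submodule.zero_mem _
  · rw [cor_mul_Δ he, Δ_cor_mul he, sub_self]
    exact Submodule.zero_mem _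
  · rw [cor_mul_Δ he, Δ_cor_mul he, sub_self]
    exact Submodule.zero_mem _

/-- The linear criterion. -/
theorem linear_criterion {N : Set T.ι} (hN : T.Kim N) {x : T.ι} {e : T.C}
    (h : T.Lin N x e) (hs : star e = e) (hL : T.Lefschetz N x e) :
    ∃ P, T.IsSelfDualCK x P ∧ (N = ∅ →
      (∀ k l : Fin (2 * T.dim x + 1), (l : ℕ) ≠ k + 2 → P l * e * P k = 0) ∧
      ∀ k : Fin (2 * T.dim x + 1), (k : ℕ) ≤ T.dim x → ∃ M ∈ T.Cor x x ((k : ℕ) - T.dim x),
        P k * M * P k.rev * e ^ (T.dim x - k) * P k = P k ∧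
          P k.rev * e ^ (T.dim x - k) * P k * M * P k.rev = P k.rev) := by
  have hl := B6_isLinear h
  obtain ⟨Λ, hΛ⟩ := E1_exists_dual hN hl.1 hs hL
  by_cases hN0 : N = ∅
  · subst hN0
    obtain ⟨f, hf, hfs, h⟩ := isLinear_symm hs hl
    rw [CorN_empty, Submodule.mem_bot] at h
    obtain ⟨P, hP, h1, h2⟩ := C4_exact hN hl.1 hs hf hfs hΛ h
    exact ⟨P, hP, fun _ => ⟨h1, h2⟩⟩
  · obtain ⟨f, hf, hfs, h1⟩ := isLinear_symm hs hl
    obtain ⟨P, hP⟩ := B5_selfDual hN hl.1 hs hf hfs hΛ h1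
    exact ⟨P, hP, fun h2 => absurd h2 hN0⟩

end Cycles

end SDCK
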