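import Pool.Agent.LibFR75.Mod

/-!
# The linear criterion: definitions
-/

set_option autoImplicit false

namespace SDCK

universe u v

namespace Cycles

variable (T : Cycles.{u, v})

/-- The operator `R e` on the cohomology of `V x`, given by a correspondence `e` of degree `1`,
satisfies the hard Lefschetz theorem, and, if `N` is not empty, its inverses are given by algebraic
correspondences (the standard conjecture of Lefschetz type for `V x`). -/
structure Lefschetz (N : Set T.ι) (x : T.ι) (e : T.C) : Prop where
  hard : ∀ k : Fin (2 * T.dim x + 1), (k : ℕ) ≤ T.dim x →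
    ∃ g : T.H, g * T.R e ^ (T.dim x - k) * T.π x k = T.π x k
  alg : N.Nonempty → ∀ k : Fin (2 * T.dim x + 1), (k : ℕ) ≤ T.dim x →
    ∃ M ∈ T.Cor x x ((k : ℕ) - T.dim x), T.R M * T.R e ^ (T.dim x - k) * T.π x k = T.π x k

/-- The linear equation for a correspondence `e` of degree `1` on `V y`: up to correspondences
through `N`, `[e, [e, f]] = - 2 e` for some correspondence `f` of degree `- 1`. For the operator `e` of
multiplication by a divisor `L` it says that `2 Δ_*(L) = - (L × 1 - 1 × L) ^ 2 · f` in
`CH(V y × V y)`, that is, `Δ_*(L)` is a multiple of `(L × 1 - 1 × L) ^ 2`, up to correspondences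
through `N`. -/
def IsLinear (N : Set T.ι) (y : T.ι) (e : T.C) : Prop :=
  e ∈ T.Cor y y 1 ∧ ∃ f ∈ T.Cor y y (-1),
    e * e * f - 2 * (e * f * e) + f * e * e + 2 * e ∈ T.CorN N y y 1

/-- The motive of `V x` is a direct summand of that of `V y`, compatibly with `e` and `e'`, up to
correspondences through `N`. For instance: `V y → V x` is a surjective morphism and `e`, `e'` are given
by a divisor on `V x` and its pull-back; `V y = V x ×_k k'` for a finite separable extension `k'` of the
base field `k`; `V x` is the blow-up of `V y` along a member of `N`, and `e` is given by the pull-back of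
a divisor plus any combination of exceptional divisors. -/
def IsDominated (N : Set T.ι) (x y : T.ι) (e e' : T.C) : Prop :=
  ∃ a ∈ T.Cor x y 0, ∃ b ∈ T.Cor y x 0, b * a - T.Δ x ∈ T.CorN N x x 0 ∧
    e' * a - a * e ∈ T.CorN N x y 1 ∧ b * e' - e * b ∈ T.CorN N y x 1

/-- The motive of `V y` is a direct summand of that of `V x`, `e` is equal to `e'` on it and `0` on the
complement, up to correspondences through `N`. For instance: `V x → V y` is the projection of a
hypersurface in a projective space from a point to a hyperplane, or a cyclic covering branched along a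
smooth divisor, and `e'` is given by a multiple of the hyperplane class or of this divisor. -/
def IsCovering (N : Set T.ι) (x y : T.ι) (e e' : T.C) : Prop :=
  ∃ a ∈ T.Cor y x 0, ∃ b ∈ T.Cor x y 0, b * a - T.Δ y ∈ T.CorN N y y 0 ∧
    e - a * e' * b ∈ T.CorN N x x 1

/-- `θ` is a homomorphism from the correspondences of `V i` to those of `V y`, preserving the degrees:
for instance `V y = V i × V j` and `θ a = a × Δ`. -/
structure IsHom (i y : T.ι) (θ : T.C → T.C) : Prop where
  add : ∀ a b, θ (a + b) = θ a + θ b
  mem : ∀ (r : ℤ), ∀ a ∈ T.Cor i i r, θ a ∈ T.Cor y y r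
  mul : ∀ (r s : ℤ), ∀ a ∈ T.Cor i i r, ∀ b ∈ T.Cor i i s, θ (a * b) = θ a * θ b

/-- The class of varieties `V y` with a correspondence `e` of degree `1`, up to correspondences
through `N`, which contains the solutions of the linear equation and is closed under multiples,
products (with `e × 1 + 1 × e'`; here the products of members of `N₁` with `V j` and of members of `N₂`
with `V i` are in `N`), domination and coverings. -/
inductive Lin : Set T.ι → T.ι → T.C → Prop
  | linear (N : Set T.ι) (y : T.ι) (e : T.C) (h : T.IsLinear N y e) : Lin N y e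
  | mono (N N' : Set T.ι) (y : T.ι) (e : T.C) (hN : N ⊆ N') (h : Lin N y e) : Lin N' y e
  | smul (N : Set T.ι) (y : T.ι) (e : T.C) (q : ℚ) (h : Lin N y e) : Lin N y (q • e)
  | prod (N₁ N₂ N : Set T.ι) (i j y : T.ι) (e e' : T.C) (θ θ' : T.C → T.C) (h : Lin N₁ i e)
      (h' : Lin N₂ j e') (hθ : T.IsHom i y θ) (hθ' : T.IsHom j y θ')
      (hc : ∀ (r s : ℤ), ∀ a ∈ T.Cor i i r, ∀ b ∈ T.Cor j j s, θ a * θ' b = θ' b * θ a)
      (hN : ∀ z ∈ T.CorN N₁ i i 1, θ z ∈ T.CorN N y y 1)
      (hN' : ∀ z ∈ T.CorN N₂ j j 1, θ' z ∈ T.CorN N y y 1) : Lin N y (θ e + θ' e')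
  | dom (N : Set T.ι) (x y : T.ι) (e e' : T.C) (he : e ∈ T.Cor x x 1)
      (hd : T.IsDominated N x y e e') (h : Lin N y e') : Lin N x e
  | cov (N : Set T.ι) (x y : T.ι) (e e' : T.C) (he : e ∈ T.Cor x x 1)
      (hc : T.IsCovering N x y e e') (h : Lin N y e') : Lin N x e

end Cycles

end SDCK
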