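import Pool.Agent.LibLC88.D1

/-!
# The converse of the linear criterion: exact Lefschetz isomorphisms give a solution of the linear
equation
-/

set_option autoImplicit false

namespace SDCK

universe u v

namespace F1

section ring

variable {C : Type u} [Ring C] [Algebra ℚ C]

/-- the coefficients `(j + 1) (m - j)` -/
private def cf (m j : ℕ) : ℚ := ((j : ℚ) + 1) * ((m : ℚ) - j)

private theorem tel (m : ℕ) (y : ℕ → C) (n : ℕ) :
    ∑ j ∈ Finset.range n, (cf m j • y (j + 2) - (2 * cf m j) • y (j + 1) + cf m j • y j +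
        (2 : ℚ) • y (j + 1)) =
      ((n : ℚ) * ((m : ℚ) - n + 1)) • y (n + 1) - cf m n • y n + cf m 0 • y 0 := by
  induction n with
  | zero => simp
  | succ n ih =>
    rw [Finset.sum_range_succ, ih]
    simp only [cf]
    push_cast
    module

variable (e : C) (m : ℕ) (w : C)

/-- the part of `f` on one primitive piece -/
private def fp : C := ∑ j ∈ Finset.range m, cf m j • (e ^ j * w * e ^ (m - 1 - j))

/-- the projector onto the submodule generated by one primitive piece -/
private def sp : C := ∑ j ∈ Finset.range (m + 1), e ^ j * w * e ^ (m - j)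

variable {e m w}

private theorem e_sp : e * sp e m w =
    ∑ j ∈ Finset.range (m + 1), e ^ (j + 1) * w * e ^ (m + 1 - (j + 1)) := by
  rw [sp, Finset.mul_sum]
  refine Finset.sum_congr rfl fun j _ => ?_
  rw [show m + 1 - (j + 1) = m - j by omega, pow_succ']
  simp only [mul_assoc]

private theorem sp_e : sp e m w * e = ∑ j ∈ Finset.range (m + 1), e ^ j * w * e ^ (m + 1 - j) := by
  rw [sp, Finset.sum_mul]
  refine Finset.sum_congr rfl fun j hj => ?_
  rw [Finset.mem_range] at hj
  rw [show m + 1 - j = (m - j) + 1 by omega, pow_succ]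
  simp only [mul_assoc]

private theorem comm (h1 : e ^ (m + 1) * w = 0) (h2 : w * e ^ (m + 1) = 0) :
    e * sp e m w = sp e m w * e := by
  rw [e_sp, sp_e, Finset.sum_range_succ, Finset.sum_range_succ', h1, zero_mul, add_zero]
  simp only [pow_zero, one_mul, Nat.sub_zero]
  rw [h2, add_zero]

private theorem lin (h1 : e ^ (m + 1) * w = 0) (h2 : w * e ^ (m + 1) = 0) :
    e * e * fp e m w - 2 * (e * fp e m w * e) + fp e m w * e * e + 2 * (e * sp e m w) = 0 := by
  obtain ⟨y, hy⟩ : ∃ y : ℕ → C, y = fun j => e ^ j * w * e ^ (m + 1 - j) := ⟨_, rfl⟩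
  have hy0 : y 0 = 0 := by
    rw [hy]
    simp only [pow_zero, one_mul, Nat.sub_zero]
    exact h2
  have hym : y (m + 1) = 0 := by
    rw [hy]
    simp only
    rw [h1, zero_mul]
  have a1 : e * e * fp e m w = ∑ j ∈ Finset.range m, cf m j • y (j + 2) := by
    rw [fp, Finset.mul_sum]
    refine Finset.sum_congr rfl fun j hj => ?_
    rw [Finset.mem_range] at hj
    rw [hy, mul_smul_comm]
    simp only
    rw [show m + 1 - (j + 2) = m - 1 - j by omega, pow_add, pow_two]
    congr 1
    rw [show e ^ j * (e * e) = (e * e) * e ^ j by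
      rw [← pow_two, ← pow_add, ← pow_add, add_comm]]
    simp only [mul_assoc]
  have a2 : e * fp e m w * e = ∑ j ∈ Finset.range m, cf m j • y (j + 1) := by
    rw [fp, Finset.mul_sum, Finset.sum_mul]
    refine Finset.sum_congr rfl fun j hj => ?_
    rw [Finset.mem_range] at hj
    rw [hy, mul_smul_comm, smul_mul_assoc]
    simp only
    rw [show m + 1 - (j + 1) = (m - 1 - j) + 1 by omega, pow_succ' e j, pow_succ e (m - 1 - j)]
    simp only [mul_assoc]
  have a3 : fp e m w * e * e = ∑ j ∈ Finset.range m, cf m j • y j := by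
    rw [fp, Finset.sum_mul, Finset.sum_mul]
    refine Finset.sum_congr rfl fun j hj => ?_
    rw [Finset.mem_range] at hj
    rw [hy, smul_mul_assoc, smul_mul_assoc]
    simp only
    rw [show m + 1 - j = (m - 1 - j) + 1 + 1 by omega, pow_succ, pow_succ]
    simp only [mul_assoc]
  have a4 : e * sp e m w = ∑ j ∈ Finset.range m, y (j + 1) := by
    rw [e_sp, Finset.sum_range_succ, h1, zero_mul, add_zero, hy]
  have a5 := tel m y m
  rw [hym, hy0, smul_zero, smul_zero, add_zero, show cf m m = 0 by simp [cf], zero_smul,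
    sub_zero] at a5
  rw [a1, a2, a3, a4, ← a5]
  simp only [Finset.sum_add_distrib, Finset.sum_sub_distrib, mul_smul, ← Finset.smul_sum]
  have h3 : ∀ z : C, (2 : ℚ) • z = 2 * z := by
    intro z
    rw [Algebra.smul_def, map_ofNat]
  rw [h3, h3]

variable {d : ℕ} {Δ : C} {p μ : ℕ → C}

/-- the projectors are homogeneous -/
private theorem pow_p (hep : ∀ n, e * p n = p (n + 2) * e) (a n : ℕ) :
    e ^ a * p n = p (n + 2 * a) * e ^ a := by
  induction a with
  | zero => simp
  | succ a ih =>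
    rw [pow_succ', mul_assoc, ih, ← mul_assoc, hep, mul_assoc]
    rfl

/-- `μ (n - 2)`, or `0` if `n < 2` -/
private def mu' (μ : ℕ → C) (n : ℕ) : C := if 2 ≤ n then μ (n - 2) else 0

/-- the projectors onto the primitive parts -/
private def pr (d : ℕ) (e : C) (p μ : ℕ → C) (n : ℕ) : C :=
  p n - e * mu' μ n * e ^ (d + 1 - n) * p n

/-- the data -/
private structure Dat (d : ℕ) (e Δ : C) (p μ : ℕ → C) : Prop where
  pp : ∀ i j, p i * p j = if i = j then p i else 0
  out : ∀ n, 2 * d < n → p n = 0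
  sum : ∑ n ∈ Finset.range (2 * d + 1), p n = Δ
  ep : ∀ n, e * p n = p (n + 2) * e
  h0 : p 0 * e = 0
  h1 : p 1 * e = 0
  Δe : Δ * e = e
  eΔ : e * Δ = e
  μ1 : ∀ k ≤ d, p k * μ k = μ k
  μ2 : ∀ k ≤ d, μ k * p (2 * d - k) = μ k
  μ3 : ∀ k ≤ d, μ k * e ^ (d - k) * p k = p k
  μ4 : ∀ k ≤ d, e ^ (d - k) * μ k = p (2 * d - k)

namespace Dat

variable (D : Dat d e Δ p μ)

include D

private theorem idem (n : ℕ) : p n * p n = p n := by
  rw [D.pp, if_pos rfl]

private theorem pr_p (n : ℕ) : pr d e p μ n * p n = pr d e p μ n := by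
  rw [pr, sub_mul, D.idem, mul_assoc, D.idem]

private theorem p_pr {n : ℕ} (hn : n ≤ d) : p n * pr d e p μ n = pr d e p μ n := by
  rw [pr, mul_sub, D.idem]
  congr 1
  rw [mu']
  split_ifs with h
  · obtain ⟨k, rfl⟩ : ∃ k, n = k + 2 := ⟨n - 2, by omega⟩
    rw [show k + 2 - 2 = k by omega]
    have h1 : p (k + 2) * (e * μ k) = e * μ k := by
      rw [← mul_assoc, ← D.ep, mul_assoc, D.μ1 k (by omega)]
    calc p (k + 2) * (e * μ k * e ^ (d + 1 - (k + 2)) * p (k + 2))
        = (p (k + 2) * (e * μ k)) * e ^ (d + 1 - (k + 2)) * p (k + 2) := by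
          simp only [mul_assoc]
      _ = _ := by rw [h1]
  · simp

private theorem e_pr {n : ℕ} (hn : n ≤ d) : e ^ (d + 1 - n) * pr d e p μ n = 0 := by
  rw [pr, mul_sub, pow_p D.ep, mu']
  split_ifs with h
  · obtain ⟨k, rfl⟩ : ∃ k, n = k + 2 := ⟨n - 2, by omega⟩
    rw [show k + 2 - 2 = k by omega]
    have h1 : e ^ (d + 1 - (k + 2)) * (e * μ k * e ^ (d + 1 - (k + 2)) * p (k + 2)) =
        (e ^ (d + 1 - (k + 2)) * e * μ k) * (e ^ (d + 1 - (k + 2)) * p (k + 2)) := by
      simp only [mul_assoc]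
    rw [h1, ← pow_succ, show d + 1 - (k + 2) + 1 = d - k by omega, D.μ4 k (by omega), pow_p D.ep,
      show k + 2 + 2 * (d + 1 - (k + 2)) = 2 * d - k by omega, ← mul_assoc, D.idem, sub_self]
  · rw [D.out (n + 2 * (d + 1 - n)) (by omega)]
    simp

private theorem pr_e {n : ℕ} (hn : n ≤ d) : pr d e p μ n * e = 0 := by
  rw [pr, mu']
  split_ifs with h
  · obtain ⟨k, rfl⟩ : ∃ k, n = k + 2 := ⟨n - 2, by omega⟩
    rw [show k + 2 - 2 = k by omega, sub_mul, mul_assoc, ← D.ep]
    have h1 : e * μ k * e ^ (d + 1 - (k + 2)) * (e * p k) =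
        e * (μ k * (e ^ (d + 1 - (k + 2)) * e) * p k) := by
      simp only [mul_assoc]
    rw [h1, ← pow_succ, show d + 1 - (k + 2) + 1 = d - k by omega, D.μ3 k (by omega), sub_self]
  · have h1 : p n * e = 0 := by
      obtain rfl | rfl : n = 0 ∨ n = 1 := by omega
      · exact D.h0
      · exact D.h1
    rw [mul_zero, zero_mul, zero_mul, sub_zero, h1]

private theorem pr_pr {n : ℕ} (hn : n ≤ d) : pr d e p μ n * pr d e p μ n = pr d e p μ n := by
  conv_lhs => rw [pr.eq_1 d e p μ n, ← pr.eq_1 d e p μ n]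
  have h1 : pr d e p μ n * (p n - e * mu' μ n * e ^ (d + 1 - n) * p n) = pr d e p μ n := by
    rw [mul_sub, D.pr_p]
    have h2 : pr d e p μ n * (e * mu' μ n * e ^ (d + 1 - n) * p n) =
        (pr d e p μ n * e) * mu' μ n * e ^ (d + 1 - n) * p n := by
      simp only [mul_assoc]
    rw [h2, D.pr_e hn]
    simp
  exact h1

private theorem u_e {n : ℕ} (hn : n ≤ d) : pr d e p μ n * μ n * e ^ (d - n) = pr d e p μ n := by
  have h1 : μ n * e ^ (d - n) = p n := by
    calc μ n * e ^ (d - n) = (μ n * p (2 * d - n)) * e ^ (d - n) := by rw [D.μ2 n hn]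
      _ = μ n * (p (n + 2 * (d - n)) * e ^ (d - n)) := by
          rw [show n + 2 * (d - n) = 2 * d - n by omega, mul_assoc]
      _ = μ n * e ^ (d - n) * p n := by rw [← pow_p D.ep, mul_assoc]
      _ = p n := D.μ3 n hn
  rw [mul_assoc, h1, D.pr_p]

private theorem e_u {n : ℕ} (hn : n ≤ d) : e ^ (d - n + 1) * (pr d e p μ n * μ n) = 0 := by
  rw [← mul_assoc, show d - n + 1 = d + 1 - n by omega, D.e_pr hn, zero_mul]

private theorem u_e' {n : ℕ} (hn : n ≤ d) : pr d e p μ n * μ n * e ^ (d - n + 1) = 0 := by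
  rw [pow_succ, ← mul_assoc, D.u_e hn, D.pr_e hn]

/-- the sum of the projectors -/
private theorem S_pr {n : ℕ} (hn : n ≤ d) :
    (∑ k ∈ Finset.range (d + 1), sp e (d - k) (pr d e p μ k * μ k)) * pr d e p μ n =
      pr d e p μ n := by
  rw [Finset.sum_mul, Finset.sum_eq_single n]
  · rw [sp, Finset.sum_mul, Finset.sum_eq_single 0]
    · rw [pow_zero, one_mul, Nat.sub_zero, D.u_e hn, D.pr_pr hn]
    · intro j hj hj0
      rw [Finset.mem_range] at hj
      have h1 : e ^ (d - n - j) * pr d e p μ n = 0 ∨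
          pr d e p μ n * μ n * (e ^ (d - n - j) * pr d e p μ n) = 0 := by
        right
        rw [← D.p_pr hn, ← mul_assoc (e ^ (d - n - j)), pow_p D.ep, ← D.μ2 n hn]
        have h2 : p (2 * d - n) * p (n + 2 * (d - n - j)) = 0 := by
          rw [D.pp, if_neg (by omega)]
        calc p n * pr d e p μ n * (μ n * p (2 * d - n)) *
              (p (n + 2 * (d - n - j)) * e ^ (d - n - j) * (pr d e p μ n))
            = p n * pr d e p μ n * μ n * (p (2 * d - n) * p (n + 2 * (d - n - j))) *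
              e ^ (d - n - j) * (pr d e p μ n) := by simp only [mul_assoc]
          _ = 0 := by rw [h2]; simp
      rcases h1 with h1 | h1
      · rw [mul_assoc, h1, mul_zero]
      · rw [mul_assoc, mul_assoc, h1, mul_zero]
    · intro h
      exact absurd (Finset.mem_range.2 (Nat.succ_pos _)) h
  · intro k hk hkn
    rw [Finset.mem_range] at hk
    rw [sp, Finset.sum_mul]
    refine Finset.sum_eq_zero fun j hj => ?_
    rw [Finset.mem_range] at hj
    by_cases hkj : k + 2 * j = n
    · have h1 : e ^ (d - k - j) * pr d e p μ n = 0 := by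
        rw [show d - k - j = (j - 1) + (d + 1 - n) by omega, pow_add, mul_assoc, D.e_pr hn,
          mul_zero]
      rw [mul_assoc, h1, mul_zero]
    · have h1 : μ k * (e ^ (d - k - j) * pr d e p μ n) = 0 := by
        rw [← D.p_pr hn, ← mul_assoc (e ^ (d - k - j)), pow_p D.ep, ← D.μ2 k (by omega)]
        have h2 : p (2 * d - k) * p (n + 2 * (d - k - j)) = 0 := by
          rw [D.pp, if_neg (by omega)]
        calc μ k * p (2 * d - k) *
              (p (n + 2 * (d - k - j)) * e ^ (d - k - j) * (pr d e p μ n))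
            = μ k * (p (2 * d - k) * p (n + 2 * (d - k - j))) *
              e ^ (d - k - j) * (pr d e p μ n) := by simp only [mul_assoc]
          _ = 0 := by rw [h2]; simp
      rw [mul_assoc, mul_assoc, mul_assoc, h1, mul_zero, mul_zero]
  · intro h
    exact absurd (Finset.mem_range.2 (by omega)) h

private theorem S_comm : e * (∑ k ∈ Finset.range (d + 1), sp e (d - k) (pr d e p μ k * μ k)) =
    (∑ k ∈ Finset.range (d + 1), sp e (d - k) (pr d e p μ k * μ k)) * e := by
  rw [Finset.mul_sum, Finset.sum_mul]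
  refine Finset.sum_congr rfl fun k hk => ?_
  rw [Finset.mem_range] at hk
  exact comm (D.e_u (by omega)) (D.u_e' (by omega))

private theorem Δp {n : ℕ} (hn : n ≤ 2 * d) : Δ * p n = p n := by
  rw [← D.sum, Finset.sum_mul, Finset.sum_eq_single n]
  · exact D.idem n
  · intro k _ hk
    rw [D.pp, if_neg hk]
  · intro h
    exact absurd (Finset.mem_range.2 (by omega)) h

/-- completeness -/
private theorem S_e : (∑ k ∈ Finset.range (d + 1), sp e (d - k) (pr d e p μ k * μ k)) * e = e := by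
  obtain ⟨S, hS⟩ : ∃ S, S = ∑ k ∈ Finset.range (d + 1), sp e (d - k) (pr d e p μ k * μ k) :=
    ⟨_, rfl⟩
  have hc := D.S_comm
  have hpr : ∀ n ≤ d, S * pr d e p μ n = pr d e p μ n := by
    intro n hn
    rw [hS]
    exact D.S_pr hn
  rw [← hS] at hc ⊢
  have hc' : ∀ a, (Δ - S) * e ^ a = e ^ a * (Δ - S) := by
    intro a
    induction a with
    | zero => simp
    | succ a ih =>
      rw [pow_succ, ← mul_assoc, ih, mul_assoc, mul_assoc, sub_mul, mul_sub e, hc, D.Δe, D.eΔ]
  have h1 : ∀ n ≤ d, (Δ - S) * p n = 0 := by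
    intro n
    induction n using Nat.strong_induction_on with
    | _ n ih =>
      intro hn
      have h2 : p n = pr d e p μ n + e * mu' μ n * e ^ (d + 1 - n) * p n := by
        rw [pr, sub_add_cancel]
      have h3 : (Δ - S) * pr d e p μ n = 0 := by
        rw [sub_mul, hpr n hn, ← D.p_pr hn, ← mul_assoc, D.Δp (by omega), sub_self]
      have h4 : (Δ - S) * (e * mu' μ n) = 0 := by
        have h5 : (Δ - S) * (e * mu' μ n) = e * ((Δ - S) * mu' μ n) := by
          have h6 := hc' 1
          rw [pow_one] at h6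
          rw [← mul_assoc, h6, mul_assoc]
        rw [h5, mu']
        split_ifs with h7
        · rw [← D.μ1 (n - 2) (by omega), ← mul_assoc (Δ - S), ih (n - 2) (by omega) (by omega),
            zero_mul, mul_zero]
        · simp
      rw [h2, mul_add, h3, zero_add, ← mul_assoc, ← mul_assoc, h4, zero_mul, zero_mul]
  have h2 : ∀ n ≤ 2 * d, (Δ - S) * p n = 0 := by
    intro n hn
    rcases le_or_gt n d with h3 | h3
    · exact h1 n h3
    · obtain ⟨k, hk, rfl⟩ : ∃ k, k ≤ d ∧ n = 2 * d - k := ⟨2 * d - n, by omega, by omega⟩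
      rw [← D.μ4 k hk, ← mul_assoc, hc', mul_assoc, ← D.μ1 k hk, ← mul_assoc (Δ - S), h1 k hk,
        zero_mul, mul_zero]
  have h3 : (Δ - S) * Δ = 0 := by
    have h5 : (Δ - S) * ∑ n ∈ Finset.range (2 * d + 1), p n = 0 := by
      rw [Finset.mul_sum]
      refine Finset.sum_eq_zero fun n hn => ?_
      rw [Finset.mem_range] at hn
      exact h2 n (by omega)
    rwa [D.sum] at h5
  have h4 : (Δ - S) * e = 0 := by
    rw [← D.Δe, ← mul_assoc, h3, zero_mul]
  rw [sub_mul, D.Δe, sub_eq_zero] at h4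
  exact h4.symm

/-- the solution of the linear equation -/
private theorem sol : ∃ f, f = ∑ k ∈ Finset.range (d + 1), fp e (d - k) (pr d e p μ k * μ k) ∧
    e * e * f - 2 * (e * f * e) + f * e * e + 2 * e = 0 := by
  refine ⟨_, rfl, ?_⟩
  have h1 : (2 : C) * e = ∑ k ∈ Finset.range (d + 1),
      2 * (e * sp e (d - k) (pr d e p μ k * μ k)) := by
    rw [← Finset.mul_sum, ← Finset.mul_sum, D.S_comm, D.S_e]
  conv_lhs => rw [h1]
  simp only [Finset.mul_sum, Finset.sum_mul]
  rw [← Finset.sum_sub_distrib, ← Finset.sum_add_distrib, ← Finset.sum_add_distrib]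
  refine Finset.sum_eq_zero fun k hk => ?_
  rw [Finset.mem_range] at hk
  exact lin (D.e_u (by omega)) (D.u_e' (by omega))

end Dat

/-- membership in a graded subring -/
private theorem pow_mem {G : ℤ → Submodule ℚ C} (hG : ∀ r s, ∀ a ∈ G r, ∀ b ∈ G s, a * b ∈ G (r + s))
    (he : e ∈ G 1) (a : ℕ) {z : C} {r : ℤ} (hz : z ∈ G r) : e ^ a * z ∈ G (a + r) := by
  induction a with
  | zero => simpa using hz
  | succ a ih =>
    rw [pow_succ', mul_assoc]
    have h1 := hG 1 (a + r) e he _ ih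
    rwa [show (1 : ℤ) + (a + r) = ((a + 1 : ℕ) : ℤ) + r by push_cast; ring] at h1

private theorem mem_pow {G : ℤ → Submodule ℚ C} (hG : ∀ r s, ∀ a ∈ G r, ∀ b ∈ G s, a * b ∈ G (r + s))
    (he : e ∈ G 1) (a : ℕ) {z : C} {r : ℤ} (hz : z ∈ G r) : z * e ^ a ∈ G (r + a) := by
  induction a with
  | zero => simpa using hz
  | succ a ih =>
    rw [pow_succ, ← mul_assoc]
    have h1 := hG (r + a) 1 _ ih e he
    rwa [show r + (a : ℤ) + 1 = r + ((a + 1 : ℕ) : ℤ) by push_cast; ring] at h1

private theorem sol_mem {G : ℤ → Submodule ℚ C} (hG : ∀ r s, ∀ a ∈ G r, ∀ b ∈ G s, a * b ∈ G (r + s))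
    (he : e ∈ G 1) (hp : ∀ n, p n ∈ G 0) (hμ : ∀ k ≤ d, μ k ∈ G (k - d)) :
    ∑ k ∈ Finset.range (d + 1), fp e (d - k) (pr d e p μ k * μ k) ∈ G (-1) := by
  refine Submodule.sum_mem _ fun k hk => Submodule.sum_mem _ fun j hj => Submodule.smul_mem _ _ ?_
  rw [Finset.mem_range] at hk hj
  have h1 : pr d e p μ k ∈ G 0 := by
    refine Submodule.sub_mem _ (hp k) ?_
    rw [mu']
    split_ifs with h
    · have h2 := pow_mem hG he (d + 1 - k) (hp k)
      have h3 := hG _ _ _ (hG _ _ _ he _ (hμ (k - 2) (by omega))) _ h2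
      rw [← mul_assoc] at h3
      rwa [show (1 : ℤ) + (((k - 2 : ℕ) : ℤ) - d) + (((d + 1 - k : ℕ) : ℤ) + 0) = 0 by omega] at h3
    · simp
  have h4 := mem_pow hG he (d - k - 1 - j) (pow_mem hG he j (hG _ _ _ h1 _ (hμ k (by omega))))
  rwa [show (j : ℤ) + (0 + ((k : ℤ) - d)) + ((d - k - 1 - j : ℕ) : ℤ) = -1 by omega] at h4

end ring

end F1

namespace Cycles

variable {T : Cycles.{u, v}}

/-- The converse of the linear criterion: a Chow-Künneth decomposition for which `e` is homogeneous,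
with exact Lefschetz isomorphisms, gives a solution of the linear equation. -/
theorem F1_converse {x : T.ι} {e : T.C} (he : e ∈ T.Cor x x 1)
    {P : Fin (2 * T.dim x + 1) → T.C} (hP : T.IsCK x P)
    (hPe : ∀ k l : Fin (2 * T.dim x + 1), (l : ℕ) ≠ k + 2 → P l * e * P k = 0)
    (hM : ∀ k : Fin (2 * T.dim x + 1), (k : ℕ) ≤ T.dim x → ∃ M ∈ T.Cor x x ((k : ℕ) - T.dim x),
      P k * M * P k.rev * e ^ (T.dim x - k) * P k = P k ∧
        P k.rev * e ^ (T.dim x - k) * P k * M * P k.rev = P k.rev) :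
    ∃ f ∈ T.Cor x x (-1), e * e * f - 2 * (e * f * e) + f * e * e + 2 * e = 0 := by
  obtain ⟨hPm, hort, hsum, hR⟩ := hP
  choose! M hMm hM1 hM2 using hM
  obtain ⟨p, hp⟩ : ∃ p : ℕ → T.C, p = fun n => if h : n < 2 * T.dim x + 1 then P ⟨n, h⟩ else 0 :=
    ⟨_, rfl⟩
  obtain ⟨μ, hμ⟩ : ∃ μ : ℕ → T.C, μ = fun n => if h : n < 2 * T.dim x + 1 then
    P ⟨n, h⟩ * M ⟨n, h⟩ * P (Fin.rev ⟨n, h⟩) else 0 := ⟨_, rfl⟩
  have hp1 : ∀ k : Fin (2 * T.dim x + 1), p k = P k := by
    intro k
    rw [hp]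
    simp only
    rw [dif_pos k.isLt]
  have hμ1 : ∀ k : Fin (2 * T.dim x + 1), μ k = P k * M k * P k.rev := by
    intro k
    rw [hμ]
    simp only
    rw [dif_pos k.isLt]
  have hout : ∀ n, 2 * T.dim x < n → p n = 0 := by
    intro n hn
    rw [hp]
    simp only
    rw [dif_neg (by omega)]
  have hpp : ∀ i j, p i * p j = if i = j then p i else 0 := by
    intro i j
    rcases lt_or_ge (2 * T.dim x) i with hi | hi
    · rw [hout i hi, zero_mul]
      simp
    · rcases lt_or_ge (2 * T.dim x) j with hj | hj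
      · rw [hout j hj, mul_zero, if_neg (by omega)]
      · have h1 := hp1 ⟨i, by omega⟩
        have h2 := hp1 ⟨j, by omega⟩
        simp only at h1 h2
        rw [h1, h2]
        split_ifs with h3
        · subst h3
          exact (hort.idem _).eq
        · exact hort.ortho (by
            intro h4
            exact h3 (congrArg Fin.val h4))
  have hsum' : ∑ n ∈ Finset.range (2 * T.dim x + 1), p n = T.Δ x := by
    rw [← hsum, ← Fin.sum_univ_eq_sum_range]
    exact Finset.sum_congr rfl fun k _ => hp1 k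
  have hΔe : T.Δ x * e = e := Δ_cor_mul he
  have heΔ : e * T.Δ x = e := cor_mul_Δ he
  have hpe : ∀ k l : ℕ, l ≠ k + 2 → p l * e * p k = 0 := by
    intro k l hkl
    rcases lt_or_ge (2 * T.dim x) k with hi | hi
    · rw [hout k hi, mul_zero]
    · rcases lt_or_ge (2 * T.dim x) l with hj | hj
      · rw [hout l hj, zero_mul, zero_mul]
      · have h1 := hp1 ⟨k, by omega⟩
        have h2 := hp1 ⟨l, by omega⟩
        simp only at h1 h2
        rw [h1, h2]
        exact hPe _ _ hkl
  have hep1 : ∀ n, e * p n = p (n + 2) * e * p n := by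
    intro n
    conv_lhs => rw [← hΔe, ← hsum', Finset.sum_mul, Finset.sum_mul]
    rcases lt_or_ge (2 * T.dim x) (n + 2) with h | h
    · rw [hout _ h, zero_mul, zero_mul]
      refine Finset.sum_eq_zero fun l hl => hpe n l ?_
      rw [Finset.mem_range] at hl
      omega
    · refine Finset.sum_eq_single (n + 2) (fun l _ hl => hpe n l hl) fun h1 => ?_
      exact absurd (Finset.mem_range.2 (by omega)) h1
  have hep2 : ∀ n, p (n + 2) * e = p (n + 2) * e * p n := by
    intro n
    conv_lhs => rw [← heΔ, ← hsum', ← mul_assoc, Finset.mul_sum]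
    rcases lt_or_ge (2 * T.dim x) n with h | h
    · rw [hout n h, mul_zero]
      refine Finset.sum_eq_zero fun l hl => hpe l (n + 2) ?_
      rw [Finset.mem_range] at hl
      omega
    · refine Finset.sum_eq_single n (fun l _ hl => hpe l (n + 2) (by omega)) fun h1 => ?_
      exact absurd (Finset.mem_range.2 (by omega)) h1
  have hlow : ∀ n, n < 2 → p n * e = 0 := by
    intro n hn
    conv_lhs => rw [← heΔ, ← hsum', ← mul_assoc, Finset.mul_sum]
    exact Finset.sum_eq_zero fun l _ => hpe l n (by omega)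
  have hrev : ∀ k : Fin (2 * T.dim x + 1), (k : ℕ) ≤ T.dim x →
      p (2 * T.dim x - k) = P k.rev := by
    intro k hk
    rw [← hp1 k.rev, Fin.val_rev]
    congr 1
    omega
  have hpw := F1.pow_p (p := p) (e := e) (fun n => (hep1 n).trans (hep2 n).symm)
  have D : F1.Dat (T.dim x) e (T.Δ x) p μ := by
    refine ⟨hpp, hout, hsum', fun n => (hep1 n).trans (hep2 n).symm, hlow 0 (by omega),
      hlow 1 (by omega), hΔe, heΔ, ?_, ?_, ?_, ?_⟩
    · intro k hk
      have h1 := hp1 ⟨k, by omega⟩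
      have h2 := hμ1 ⟨k, by omega⟩
      simp only at h1 h2
      rw [h1, h2, ← mul_assoc, ← mul_assoc, (hort.idem _).eq]
    · intro k hk
      have h2 := hμ1 ⟨k, by omega⟩
      simp only at h2
      rw [h2, hrev ⟨k, by omega⟩ hk, mul_assoc, (hort.idem _).eq]
    · intro k hk
      have h1 := hp1 ⟨k, by omega⟩
      have h2 := hμ1 ⟨k, by omega⟩
      simp only at h1 h2
      rw [h1, h2]
      exact hM1 ⟨k, by omega⟩ hk
    · intro k hk
      have h1 := hp1 ⟨k, by omega⟩
      have h2 := hμ1 ⟨k, by omega⟩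
      have h3 := hM2 ⟨k, by omega⟩ hk
      have h4 := hpw (T.dim x - k) k
      have h5 := hrev ⟨k, by omega⟩ hk
      simp only at h1 h2 h3 h5
      rw [show k + 2 * (T.dim x - k) = 2 * T.dim x - k by omega, h1, h5] at h4
      have h6 : P (Fin.rev ⟨k, by omega⟩) * e ^ (T.dim x - k) * P ⟨k, by omega⟩ =
          e ^ (T.dim x - k) * P ⟨k, by omega⟩ := by
        rw [← h4, mul_assoc, (hort.idem _).eq]
      rw [h5, h2, ← mul_assoc, ← mul_assoc, ← h6]
      exact h3
  obtain ⟨f, hf, hlin⟩ := D.sol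
  refine ⟨f, ?_, hlin⟩
  rw [hf]
  refine F1.sol_mem (G := fun r => T.Cor x x r) (fun r s a ha b hb => cor_mul ha hb rfl) he ?_ ?_
  · intro n
    rw [hp]
    simp only
    split_ifs with h
    · have h1 := hPm ⟨n, h⟩
      rw [Cor, add_zero]
      exact h1
    · exact Submodule.zero_mem _
  · intro k hk
    have h2 := hμ1 ⟨k, by omega⟩
    simp only at h2
    have h3 : ∀ l, P l ∈ T.Cor x x 0 := by
      intro l
      rw [Cor, add_zero]
      exact hPm l
    change μ k ∈ T.Cor x x (k - T.dim x)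
    rw [h2]
    have h4 := hMm ⟨k, by omega⟩ hk
    simp only at h4
    exact cor_mul (cor_mul (h3 _) h4 (by ring : (0 : ℤ) + (k - T.dim x) = k - T.dim x)) (h3 _) (by ring)

variable (T) in
/-- `e` is homogeneous of weight `2` for the decomposition `P`, and the powers
`e ^ (d - k) : P k → P (2 d - k)` have inverse correspondences (exact hard Lefschetz isomorphisms of
Chow motives). -/
def ExactLefschetz (x : T.ι) (e : T.C) (P : Fin (2 * T.dim x + 1) → T.C) : Prop :=
  (∀ k l : Fin (2 * T.dim x + 1), (l : ℕ) ≠ k + 2 → P l * e * P k = 0) ∧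
    ∀ k : Fin (2 * T.dim x + 1), (k : ℕ) ≤ T.dim x → ∃ M ∈ T.Cor x x ((k : ℕ) - T.dim x),
      P k * M * P k.rev * e ^ (T.dim x - k) * P k = P k ∧
        P k.rev * e ^ (T.dim x - k) * P k * M * P k.rev = P k.rev

/-- exact Lefschetz isomorphisms of motives imply hard Lefschetz for the cohomology -/
theorem F1_lefschetz {x : T.ι} {e : T.C} {P : Fin (2 * T.dim x + 1) → T.C} (hP : T.IsCK x P)
    (h : T.ExactLefschetz x e P) : T.Lefschetz ∅ x e where
  hard k hk := by
    obtain ⟨M, -, h1, -⟩ := h.2 k hk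
    refine ⟨T.π x k * T.R M * T.π x k.rev, ?_⟩
    have h2 := congrArg T.R h1
    simp only [map_mul, map_pow, hP.2.2.2] at h2
    exact h2
  alg h := absurd h Set.not_nonempty_empty

/-- The criterion as an equivalence. -/
theorem F1_tfae (hN : T.Kim ∅) {x : T.ι} {e : T.C} (he : e ∈ T.Cor x x 1) (hs : star e = e) :
    List.TFAE [T.Lefschetz ∅ x e ∧ T.IsLinear ∅ x e,
      ∃ P, T.IsCK x P ∧ T.ExactLefschetz x e P,
      ∃ P, T.IsSelfDualCK x P ∧ T.ExactLefschetz x e P] := by
  tfae_have 1 → 3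
  | ⟨h1, h2⟩ => by
    obtain ⟨P, hP, h3⟩ := linear_criterion hN (Lin.linear ∅ x e h2) hs h1
    exact ⟨P, hP, h3 rfl⟩
  tfae_have 3 → 2
  | ⟨P, hP, h⟩ => ⟨P, hP.1, h⟩
  tfae_have 2 → 1
  | ⟨P, hP, h⟩ => by
    refine ⟨F1_lefschetz hP h, he, ?_⟩
    obtain ⟨f, hf, hlin⟩ := F1_converse he hP h.1 h.2
    refine ⟨f, hf, ?_⟩
    rw [hlin]
    exact Submodule.zero_mem _
  tfae_finish

end Cycles

end SDCK
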