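import Pool.Agent.LibLC88.Defs

/-!
# The dual Lefschetz operator
-/

set_option autoImplicit false

namespace SDCK

universe u v

namespace Cycles

variable (T : Cycles.{u, v})

/-- `Λ` is the dual Lefschetz operator of `R e`, and maps classes of correspondences of degree `1`
through `N` to classes of correspondences of degree `0` through `N`. -/
structure IsHard (N : Set T.ι) (x : T.ι) (e : T.C) (Λ : T.H) : Prop where
  supp : T.R (T.Δ x) * Λ * T.R (T.Δ x) = Λ
  deg : ∀ k l : Fin (2 * T.dim x + 1), (l : ℕ) + 2 ≠ k → T.π x l * Λ * T.π x k = 0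
  symm : star Λ = Λ
  comm : T.R e * Λ - Λ * T.R e =
    ∑ k : Fin (2 * T.dim x + 1), (((k : ℕ) : ℤ) - T.dim x) • T.π x k
  stable : ∀ z ∈ T.CorN N x x 1, ∃ w ∈ T.CorN N x x 0, T.R w = Λ * T.R z

end Cycles

end SDCK
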